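import Pool.Agent.H937R2.Theta

set_option autoImplicit false

namespace Pool.Agent.H937R2

open Matrix

variable {g : ℕ}

/-- Gaussian weight. -/
noncomputable def wt (m : Fin g → ℤ) : ℝ := Real.exp (-(Real.pi / 2) * ∑ i, (m i : ℝ) ^ 2)

/-- Change the sign of the `k`-th coordinate. -/
def negAt (k : Fin g) (m : Fin g → ℤ) : Fin g → ℤ := Function.update m k (-m k)

theorem negAt_self (k : Fin g) (m : Fin g → ℤ) : negAt k m k = -m k := by
  simp [negAt]

theorem negAt_ne {k i : Fin g} (h : i ≠ k) (m : Fin g → ℤ) : negAt k m i = m i := by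
  simp [negAt, h]

theorem wt_negAt (k : Fin g) (m : Fin g → ℤ) : wt (negAt k m) = wt m := by
  unfold wt
  congr 2
  refine Finset.sum_congr rfl fun i _ => ?_
  by_cases h : i = k
  · subst h
    rw [negAt_self]
    push_cast
    ring
  · rw [negAt_ne h]

theorem wt_pos (m : Fin g → ℤ) : 0 < wt m := Real.exp_pos _

theorem summable_wt (e : Fin g → ℤ) (B : ℝ) :
    Summable (fun n : Fin g → ℤ => wt (dbl e n) * Real.exp (B * ∑ i, |(dbl e n i : ℝ)|)) := by
  have h := summable_bound (g := g) 1 (B / (2 * Real.pi)) one_pos e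
  refine h.congr fun n => ?_
  unfold wt
  rw [← Real.exp_add, ← Real.exp_sum]
  congr 1
  rw [Finset.mul_sum, Finset.mul_sum, ← Finset.sum_add_distrib]
  refine Finset.sum_congr rfl fun i _ => ?_
  have := Real.pi_ne_zero
  field_simp

/-- The flip of the summation variable. -/
def flipEquiv (e : Fin g → ℤ) (k : Fin g) : (Fin g → ℤ) ≃ (Fin g → ℤ) where
  toFun n := Function.update n k (-n k - e k)
  invFun n := Function.update n k (-n k - e k)
  left_inv n := by
    ext i
    by_cases h : i = k
    · subst h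
      simp
    · simp [h]
  right_inv n := by
    ext i
    by_cases h : i = k
    · subst h
      simp
    · simp [h]

theorem dbl_flip (e : Fin g → ℤ) (k : Fin g) (n : Fin g → ℤ) :
    dbl e (flipEquiv e k n) = negAt k (dbl e n) := by
  ext i
  by_cases h : i = k
  · subst h
    rw [negAt_self]
    simp only [dbl, flipEquiv, Equiv.coe_fn_mk, Function.update_self]
    ring
  · rw [negAt_ne h]
    simp [dbl, flipEquiv, h]

theorem tsum_flip (e : Fin g → ℤ) (k : Fin g) (H H' : (Fin g → ℤ) → ℂ)
    (hs : Summable (fun n => H (dbl e n)))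
    (h : ∀ m, (H m + H (negAt k m)) / 2 = H' m) :
    ∑' n, H (dbl e n) = ∑' n, H' (dbl e n) := by
  have h1 : ∑' n, H (dbl e n) = ∑' n, H (negAt k (dbl e n)) := by
    rw [← (flipEquiv e k).tsum_eq (fun n => H (dbl e n))]
    exact tsum_congr fun n => by rw [dbl_flip]
  have hs2 : Summable (fun n => H (negAt k (dbl e n))) := by
    have := (flipEquiv e k).summable_iff.mpr hs
    refine this.congr fun n => ?_
    simp only [Function.comp, dbl_flip]
  have h2 : ∑' n, H' (dbl e n) = (∑' n, H (dbl e n) + ∑' n, H (negAt k (dbl e n))) / 2 := by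
    rw [← hs.tsum_add hs2, ← tsum_div_const]
    exact tsum_congr fun n => (h _).symm
  rw [h2, ← h1]
  ring

/-- The sine product identity. -/
theorem tsum_sin (e : Fin g → ℤ) (a b c d : Fin g) (hab : a ≠ b) (hac : a ≠ c) (had : a ≠ d)
    (hbc : b ≠ c) (hbd : b ≠ d) (hcd : c ≠ d) (α : ℝ) :
    ∑' n, ((wt (dbl e n) : ℝ) : ℂ) *
      (Complex.exp (Complex.I * ((α * (dbl e n a * dbl e n b + dbl e n b * dbl e n c +
        dbl e n c * dbl e n d + dbl e n d * dbl e n a) : ℝ) : ℂ)) -
      Complex.exp (Complex.I * ((α * (dbl e n a * dbl e n b + dbl e n b * dbl e n c +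
        dbl e n c * dbl e n d - dbl e n d * dbl e n a) : ℝ) : ℂ))) =
    ∑' n, ((wt (dbl e n) * (2 * Real.sin (α * (dbl e n d * dbl e n a)) *
      Real.sin (α * (dbl e n a * dbl e n b)) * Real.sin (α * (dbl e n b * dbl e n c)) *
      Real.sin (α * (dbl e n c * dbl e n d))) : ℝ) : ℂ) := by
  let x : (Fin g → ℤ) → ℝ := fun m => α * (m a * m b)
  let y : (Fin g → ℤ) → ℝ := fun m => α * (m b * m c)
  let z : (Fin g → ℤ) → ℝ := fun m => α * (m c * m d)
  let u : (Fin g → ℤ) → ℝ := fun m => α * (m d * m a)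
  let E : ℝ → ℂ := fun t => Complex.exp (Complex.I * (t : ℂ))
  let H0 : (Fin g → ℤ) → ℂ := fun m => (wt m : ℂ) * (2 * Complex.I * Real.sin (u m) * E (x m) *
    E (y m) * E (z m))
  let H1 : (Fin g → ℤ) → ℂ := fun m => (wt m : ℂ) * (-2 * Real.sin (u m) * Real.sin (x m) *
    E (y m) * E (z m))
  let H2 : (Fin g → ℤ) → ℂ := fun m => (wt m : ℂ) * (-2 * Complex.I * Real.sin (u m) *
    Real.sin (x m) * Real.sin (y m) * E (z m))
  let H3 : (Fin g → ℤ) → ℂ := fun m => (wt m : ℂ) * (2 * Real.sin (u m) *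
    Real.sin (x m) * Real.sin (y m) * Real.sin (z m))
  have hE : ∀ t : ℝ, E t - E (-t) = 2 * Complex.I * Real.sin t := by
    intro t
    simp only [E]
    have h1 : Complex.I * ((-t : ℝ) : ℂ) = (-(t : ℂ)) * Complex.I := by
      push_cast; ring
    have h2 : Complex.I * (t : ℂ) = (t : ℂ) * Complex.I := by ring
    rw [h1, h2, Complex.ofReal_sin, Complex.sin]
    have h3 : Complex.I * Complex.I = -1 := Complex.I_mul_I
    linear_combination (-(Complex.exp (-(t : ℂ) * Complex.I) -
      Complex.exp ((t : ℂ) * Complex.I))) * h3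
  have hnE : ∀ t : ℝ, ‖E t‖ = 1 := by
    intro t
    simp only [E]
    rw [mul_comm, Complex.norm_exp_ofReal_mul_I]
  have hsin : ∀ t : ℝ, ‖((Real.sin t : ℝ) : ℂ)‖ ≤ 1 := by
    intro t
    rw [Complex.norm_real, Real.norm_eq_abs]
    exact Real.abs_sin_le_one t
  have hw : Summable (fun n : Fin g → ℤ => 2 * wt (dbl e n)) := by
    have := (summable_wt (g := g) e 0).mul_left 2
    refine this.congr fun n => ?_
    simp
  have hwn : ∀ m : Fin g → ℤ, ‖((wt m : ℝ) : ℂ)‖ = wt m := by
    intro m
    rw [Complex.norm_real, Real.norm_eq_abs, abs_of_pos (wt_pos m)]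
  have s0 : Summable (fun n => H0 (dbl e n)) := by
    refine hw.of_norm_bounded fun n => ?_
    simp only [H0, norm_mul, hnE, hwn, Complex.norm_I, mul_one, Complex.norm_ofNat]
    have := hsin (u (dbl e n))
    have := wt_pos (dbl e n)
    nlinarith
  have s1 : Summable (fun n => H1 (dbl e n)) := by
    refine hw.of_norm_bounded fun n => ?_
    simp only [H1, norm_mul, hnE, hwn, mul_one, norm_neg, Complex.norm_ofNat]
    have h1 := hsin (u (dbl e n))
    have h2 := hsin (x (dbl e n))
    have h3 := wt_pos (dbl e n)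
    have h4 : ‖((Real.sin (u (dbl e n)) : ℝ) : ℂ)‖ * ‖((Real.sin (x (dbl e n)) : ℝ) : ℂ)‖ ≤ 1 :=
      mul_le_one₀ h1 (norm_nonneg _) h2
    calc wt (dbl e n) * (2 * ‖((Real.sin (u (dbl e n)) : ℝ) : ℂ)‖ *
          ‖((Real.sin (x (dbl e n)) : ℝ) : ℂ)‖) =
          2 * wt (dbl e n) * (‖((Real.sin (u (dbl e n)) : ℝ) : ℂ)‖ *
          ‖((Real.sin (x (dbl e n)) : ℝ) : ℂ)‖) := by ring
      _ ≤ 2 * wt (dbl e n) * 1 := by gcongr
      _ = 2 * wt (dbl e n) := mul_one _
  have s2 : Summable (fun n => H2 (dbl e n)) := by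
    refine hw.of_norm_bounded fun n => ?_
    simp only [H2, norm_mul, hnE, hwn, mul_one, norm_neg, Complex.norm_ofNat, Complex.norm_I]
    have h1 := hsin (u (dbl e n))
    have h2 := hsin (x (dbl e n))
    have h5 := hsin (y (dbl e n))
    have h3 := wt_pos (dbl e n)
    have h4 : ‖((Real.sin (u (dbl e n)) : ℝ) : ℂ)‖ * ‖((Real.sin (x (dbl e n)) : ℝ) : ℂ)‖ *
        ‖((Real.sin (y (dbl e n)) : ℝ) : ℂ)‖ ≤ 1 :=
      mul_le_one₀ (mul_le_one₀ h1 (norm_nonneg _) h2) (norm_nonneg _) h5
    calc wt (dbl e n) * (2 * ‖((Real.sin (u (dbl e n)) : ℝ) : ℂ)‖ *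
          ‖((Real.sin (x (dbl e n)) : ℝ) : ℂ)‖ * ‖((Real.sin (y (dbl e n)) : ℝ) : ℂ)‖) =
          2 * wt (dbl e n) * (‖((Real.sin (u (dbl e n)) : ℝ) : ℂ)‖ *
          ‖((Real.sin (x (dbl e n)) : ℝ) : ℂ)‖ * ‖((Real.sin (y (dbl e n)) : ℝ) : ℂ)‖) := by ring
      _ ≤ 2 * wt (dbl e n) * 1 := by gcongr
      _ = 2 * wt (dbl e n) := mul_one _
  have f1 : ∑' n, H0 (dbl e n) = ∑' n, H1 (dbl e n) := by
    apply tsum_flip e a H0 H1 s0
    intro m
    have hx : x (negAt a m) = -x m := by
      simp only [x, negAt_self, negAt_ne hab.symm]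
      push_cast
      ring
    have hu : u (negAt a m) = -u m := by
      simp only [u, negAt_self, negAt_ne had.symm]
      push_cast
      ring
    have hy : y (negAt a m) = y m := by
      simp only [y, negAt_ne hab.symm, negAt_ne hac.symm]
    have hz : z (negAt a m) = z m := by
      simp only [z, negAt_ne hac.symm, negAt_ne had.symm]
    simp only [H0, H1, wt_negAt, hx, hu, hy, hz, Real.sin_neg]
    have := hE (x m)
    have h3 : Complex.I * Complex.I = -1 := Complex.I_mul_I
    push_cast
    push_cast at this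
    linear_combination (((wt m : ℝ) : ℂ) * Complex.I * Complex.sin (u m) * E (y m) * E (z m)) *
      this + (((wt m : ℝ) : ℂ) * 2 * Complex.sin (u m) * Complex.sin (x m) * E (y m) * E (z m)) *
      h3
  have f2 : ∑' n, H1 (dbl e n) = ∑' n, H2 (dbl e n) := by
    apply tsum_flip e b H1 H2 s1
    intro m
    have hx : x (negAt b m) = -x m := by
      simp only [x, negAt_self, negAt_ne hab]
      push_cast
      ring
    have hu : u (negAt b m) = u m := by
      simp only [u, negAt_ne hab, negAt_ne hbd.symm]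
    have hy : y (negAt b m) = -y m := by
      simp only [y, negAt_self, negAt_ne hbc.symm]
      push_cast
      ring
    have hz : z (negAt b m) = z m := by
      simp only [z, negAt_ne hbc.symm, negAt_ne hbd.symm]
    simp only [H1, H2, wt_negAt, hx, hu, hy, hz, Real.sin_neg]
    have := hE (y m)
    push_cast
    push_cast at this
    linear_combination (-((wt m : ℝ) : ℂ) * Complex.sin (u m) * Complex.sin (x m) * E (z m)) *
      this
  have f3 : ∑' n, H2 (dbl e n) = ∑' n, H3 (dbl e n) := by
    apply tsum_flip e c H2 H3 s2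
    intro m
    have hx : x (negAt c m) = x m := by
      simp only [x, negAt_ne hac, negAt_ne hbc]
    have hu : u (negAt c m) = u m := by
      simp only [u, negAt_ne hac, negAt_ne hcd.symm]
    have hy : y (negAt c m) = -y m := by
      simp only [y, negAt_self, negAt_ne hbc]
      push_cast
      ring
    have hz : z (negAt c m) = -z m := by
      simp only [z, negAt_self, negAt_ne hcd.symm]
      push_cast
      ring
    simp only [H2, H3, wt_negAt, hx, hu, hy, hz, Real.sin_neg]
    have := hE (z m)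
    have h3 : Complex.I * Complex.I = -1 := Complex.I_mul_I
    push_cast
    push_cast at this
    linear_combination (-((wt m : ℝ) : ℂ) * Complex.I * Complex.sin (u m) * Complex.sin (x m) *
      Complex.sin (y m)) * this - (((wt m : ℝ) : ℂ) * 2 * Complex.sin (u m) *
      Complex.sin (x m) * Complex.sin (y m) * Complex.sin (z m)) * h3
  have f0 : ∑' n, ((wt (dbl e n) : ℝ) : ℂ) *
      (Complex.exp (Complex.I * ((α * (dbl e n a * dbl e n b + dbl e n b * dbl e n c +
        dbl e n c * dbl e n d + dbl e n d * dbl e n a) : ℝ) : ℂ)) -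
      Complex.exp (Complex.I * ((α * (dbl e n a * dbl e n b + dbl e n b * dbl e n c +
        dbl e n c * dbl e n d - dbl e n d * dbl e n a) : ℝ) : ℂ))) = ∑' n, H0 (dbl e n) := by
    refine tsum_congr fun n => ?_
    set m := dbl e n with hm
    have e1 : Complex.exp (Complex.I * ((α * (m a * m b + m b * m c + m c * m d + m d * m a) :
        ℝ) : ℂ)) = E (x m) * E (y m) * E (z m) * E (u m) := by
      simp only [E, x, y, z, u]
      rw [← Complex.exp_add, ← Complex.exp_add, ← Complex.exp_add]
      congr 1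
      push_cast
      ring
    have e2 : Complex.exp (Complex.I * ((α * (m a * m b + m b * m c + m c * m d - m d * m a) :
        ℝ) : ℂ)) = E (x m) * E (y m) * E (z m) * E (-u m) := by
      simp only [E, x, y, z, u]
      rw [← Complex.exp_add, ← Complex.exp_add, ← Complex.exp_add]
      congr 1
      push_cast
      ring
    rw [e1, e2]
    simp only [H0]
    linear_combination (((wt m : ℝ) : ℂ) * E (x m) * E (y m) * E (z m)) * hE (u m)
  rw [f0, f1, f2, f3]
  refine tsum_congr fun n => ?_
  simp only [H3, x, y, z, u]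
  push_cast
  ring

end Pool.Agent.H937R2
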