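import Pool.Agent.H937R2.Asymp

set_option autoImplicit false

namespace Pool.Agent.H937R2

open Matrix Filter Topology

variable {g : ℕ}

/-- `E_ab + E_ba`. -/
def edge (a b : Fin g) : Matrix (Fin g) (Fin g) ℂ :=
  Matrix.of fun i j => (if i = a ∧ j = b then 1 else 0) + (if i = b ∧ j = a then 1 else 0)

theorem edge_transpose (a b : Fin g) : (edge a b)ᵀ = edge a b := by
  ext i j
  simp only [edge, transpose_apply, of_apply]
  rw [add_comm]
  simp only [and_comm]

theorem edge_im (a b : Fin g) (i j : Fin g) : (edge a b i j).im = 0 := by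
  simp only [edge, of_apply, Complex.add_im]
  split_ifs <;> simp

theorem qf_edge (a b : Fin g) (m : Fin g → ℤ) : qf (edge a b) m = 2 * (m a : ℂ) * (m b : ℂ) := by
  unfold qf edge
  simp only [of_apply, mul_add, add_mul, Finset.sum_add_distrib]
  have h1 : ∀ a b : Fin g, (∑ i, ∑ j, (m i : ℂ) * (if i = a ∧ j = b then 1 else 0) * (m j : ℂ)) =
      (m a : ℂ) * (m b : ℂ) := by
    intro a b
    rw [Finset.sum_eq_single a]
    · rw [Finset.sum_eq_single b]
      · simp
      · intro j _ hj
        simp [hj]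
      · intro h
        exact absurd (Finset.mem_univ _) h
    · intro i _ hi
      simp [hi]
    · intro h
      exact absurd (Finset.mem_univ _) h
  rw [h1, h1]
  ring

/-- The weighted adjacency matrix of a 4-cycle. -/
def cyc (a b c d : Fin g) (σ : ℝ) : Matrix (Fin g) (Fin g) ℂ :=
  edge a b + edge b c + edge c d + (σ : ℂ) • edge d a

/-- The curve `i·1 + s·cyc` in the Siegel space. -/
noncomputable def curve (a b c d : Fin g) (σ s : ℝ) : Siegel g :=
  ⟨Complex.I • (1 : Matrix (Fin g) (Fin g) ℂ) + (s : ℂ) • cyc a b c d σ, by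
    simp only [transpose_add, transpose_smul, transpose_one, cyc, edge_transpose], by
    have e : (Complex.I • (1 : Matrix (Fin g) (Fin g) ℂ) +
        (s : ℂ) • cyc a b c d σ).map Complex.im = 1 := by
      ext i j
      have h1 : (cyc a b c d σ i j).im = 0 := by
        simp only [cyc, Matrix.add_apply, Matrix.smul_apply, Complex.add_im, edge_im, smul_eq_mul,
          Complex.mul_im, Complex.ofReal_im, Complex.ofReal_re]
        ring
      simp only [Matrix.map_apply, Matrix.add_apply, Matrix.smul_apply, smul_eq_mul,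
        Complex.add_im, Complex.mul_im, h1, Complex.ofReal_im, Complex.ofReal_re]
      by_cases h : i = j
      · subst h
        simp
      · simp [Matrix.one_apply_ne h]
    rw [e]
    exact Matrix.PosDef.one⟩

theorem qf_curve (a b c d : Fin g) (σ s : ℝ) (m : Fin g → ℤ) :
    qf (curve a b c d σ s).1 m = Complex.I * ∑ i, (m i : ℂ) ^ 2 +
      2 * (s : ℂ) * ((m a : ℂ) * m b + m b * m c + m c * m d + σ * (m d * m a)) := by
  have h1 : qf (curve a b c d σ s).1 m = Complex.I * qf (1 : Matrix (Fin g) (Fin g) ℂ) m +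
      (s : ℂ) * (qf (edge a b) m + qf (edge b c) m + qf (edge c d) m + σ * qf (edge d a) m) := by
    unfold qf curve cyc
    simp only [Finset.mul_sum, ← Finset.sum_add_distrib]
    refine Finset.sum_congr rfl fun i _ => Finset.sum_congr rfl fun j _ => ?_
    simp only [Matrix.add_apply, Matrix.smul_apply, smul_eq_mul]
    ring
  have h2 : qf (1 : Matrix (Fin g) (Fin g) ℂ) m = ∑ i, (m i : ℂ) ^ 2 := by
    unfold qf
    refine Finset.sum_congr rfl fun i _ => ?_
    rw [Finset.sum_eq_single i]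
    · simp [sq]
    · intro j _ hj
      simp [Matrix.one_apply_ne hj.symm]
    · intro h
      exact absurd (Finset.mem_univ _) h
  rw [h1, h2, qf_edge, qf_edge, qf_edge, qf_edge]
  ring

theorem term_curve (a b c d : Fin g) (σ s : ℝ) (m : Fin g → ℤ) :
    term (curve a b c d σ s).1 0 m = ((wt m : ℝ) : ℂ) *
      Complex.exp (Complex.I * (((Real.pi * s) * ((m a : ℝ) * m b + m b * m c +
        m c * m d + σ * (m d * m a)) : ℝ) : ℂ)) := by
  unfold term wt
  rw [qf_curve]
  have h0 : lin m 0 = 0 := by simp [lin]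
  rw [h0, Complex.ofReal_exp, ← Complex.exp_add]
  congr 1
  push_cast
  have h3 : Complex.I * Complex.I = -1 := Complex.I_mul_I
  linear_combination ((Real.pi : ℂ) / 2 * ∑ i, (m i : ℂ) ^ 2) * h3

theorem th2_curve (a b c d : Fin g) (e : Fin g → ℤ) (σ s : ℝ) :
    th2 e (curve a b c d σ s).1 0 = ∑' n, ((wt (dbl e n) : ℝ) : ℂ) *
      Complex.exp (Complex.I * (((Real.pi * s) * ((dbl e n a : ℝ) * dbl e n b +
        dbl e n b * dbl e n c + dbl e n c * dbl e n d +
        σ * (dbl e n d * dbl e n a)) : ℝ) : ℂ)) := by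
  unfold th2
  exact tsum_congr fun n => term_curve a b c d σ s _

theorem summable_wt0 (e : Fin g → ℤ) : Summable (fun n : Fin g → ℤ => wt (dbl e n)) := by
  have := (summable_wt (g := g) e 0)
  refine this.congr fun n => ?_
  simp

theorem summable_curve (e : Fin g → ℤ) (t : (Fin g → ℤ) → ℝ) :
    Summable (fun n => ((wt (dbl e n) : ℝ) : ℂ) * Complex.exp (Complex.I * ((t n : ℝ) : ℂ))) := by
  refine (summable_wt0 e).of_norm_bounded fun n => ?_
  rw [norm_mul, mul_comm Complex.I, Complex.norm_exp_ofReal_mul_I, mul_one, Complex.norm_real,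
    Real.norm_eq_abs, abs_of_pos (wt_pos _)]

theorem continuous_th2_curve (a b c d : Fin g) (e : Fin g → ℤ) (σ : ℝ) :
    Continuous (fun s : ℝ => th2 e (curve a b c d σ s).1 0) := by
  simp only [th2_curve]
  apply continuous_tsum (u := fun n : Fin g → ℤ => wt (dbl e n))
  · intro n
    fun_prop
  · exact summable_wt0 e
  · intro n s
    rw [norm_mul, mul_comm Complex.I, Complex.norm_exp_ofReal_mul_I, mul_one, Complex.norm_real,
      Real.norm_eq_abs, abs_of_pos (wt_pos _)]

theorem th2_diff (a b c d : Fin g) (hab : a ≠ b) (hac : a ≠ c) (had : a ≠ d)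
    (hbc : b ≠ c) (hbd : b ≠ d) (hcd : c ≠ d) (e : Fin g → ℤ) (s : ℝ) :
    th2 e (curve a b c d 1 s).1 0 - th2 e (curve a b c d (-1) s).1 0 =
    ∑' n, ((wt (dbl e n) * (2 * Real.sin (Real.pi * s * (dbl e n d * dbl e n a)) *
      Real.sin (Real.pi * s * (dbl e n a * dbl e n b)) *
      Real.sin (Real.pi * s * (dbl e n b * dbl e n c)) *
      Real.sin (Real.pi * s * (dbl e n c * dbl e n d))) : ℝ) : ℂ) := by
  rw [← tsum_sin e a b c d hab hac had hbc hbd hcd (Real.pi * s), th2_curve, th2_curve,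
    ← Summable.tsum_sub (summable_curve e _) (summable_curve e _)]
  refine tsum_congr fun n => ?_
  rw [← mul_sub]
  congr 3
  · push_cast
    ring_nf
  · push_cast
    ring_nf

theorem tendsto_sin_div (t : ℝ) :
    Tendsto (fun s : ℝ => Real.sin (Real.pi * s * t) / s) (𝓝[≠] 0) (𝓝 (Real.pi * t)) := by
  have h : HasDerivAt (fun s : ℝ => Real.sin (Real.pi * s * t)) (Real.pi * t) 0 := by
    have h1 : HasDerivAt (fun s : ℝ => Real.pi * s * t) (Real.pi * t) 0 := by
      have := ((hasDerivAt_id (0 : ℝ)).const_mul Real.pi).mul_const t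
      simpa using this
    have h2 := h1.sin
    simpa using h2
  have h3 := h.tendsto_slope_zero
  refine h3.congr fun s => ?_
  simp only [zero_add, mul_zero, zero_mul, Real.sin_zero, sub_zero, smul_eq_mul]
  rw [div_eq_inv_mul]

theorem sin_div_bound (s t : ℝ) (hs : s ≠ 0) :
    |Real.sin (Real.pi * s * t) / s| ≤ Real.pi * |t| := by
  rw [abs_div, div_le_iff₀ (abs_pos.mpr hs)]
  calc |Real.sin (Real.pi * s * t)| ≤ |Real.pi * s * t| := Real.abs_sin_le_abs
    _ = Real.pi * |t| * |s| := by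
        rw [abs_mul, abs_mul, abs_of_pos Real.pi_pos]
        ring

theorem summable_lim (e : Fin g → ℤ) (a b c d : Fin g) :
    Summable (fun n : Fin g → ℤ => wt (dbl e n) * (2 * Real.pi ^ 4 *
      ((dbl e n a : ℝ) * dbl e n b * dbl e n c * dbl e n d) ^ 2)) := by
  have h := (summable_wt (g := g) e 4).mul_left (2 * Real.pi ^ 4 * 16)
  refine Summable.of_nonneg_of_le (fun n => ?_) (fun n => ?_) h
  · have := wt_pos (dbl e n)
    positivity
  · set m := dbl e n with hm
    have h1 : ∀ i, (m i : ℝ) ^ 2 ≤ 2 * Real.exp (∑ i, |(m i : ℝ)|) := by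
      intro i
      have h2 := Real.quadratic_le_exp_of_nonneg (abs_nonneg (m i : ℝ))
      have h3 : |(m i : ℝ)| ≤ ∑ i, |(m i : ℝ)| :=
        Finset.single_le_sum (f := fun i => |(m i : ℝ)|) (fun _ _ => abs_nonneg _)
          (Finset.mem_univ i)
      have h4 := Real.exp_le_exp.mpr h3
      have h5 := abs_nonneg (m i : ℝ)
      rw [sq_abs] at h2
      linarith
    have h6 : ((m a : ℝ) * m b * m c * m d) ^ 2 ≤ 16 * Real.exp (4 * ∑ i, |(m i : ℝ)|) := by
      have e1 : Real.exp (4 * ∑ i, |(m i : ℝ)|) = Real.exp (∑ i, |(m i : ℝ)|) *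
          Real.exp (∑ i, |(m i : ℝ)|) * Real.exp (∑ i, |(m i : ℝ)|) *
          Real.exp (∑ i, |(m i : ℝ)|) := by
        rw [← Real.exp_add, ← Real.exp_add, ← Real.exp_add]
        congr 1
        ring
      calc ((m a : ℝ) * m b * m c * m d) ^ 2 =
          (m a : ℝ) ^ 2 * (m b : ℝ) ^ 2 * (m c : ℝ) ^ 2 * (m d : ℝ) ^ 2 := by ring
        _ ≤ (2 * Real.exp (∑ i, |(m i : ℝ)|)) * (2 * Real.exp (∑ i, |(m i : ℝ)|)) *
            (2 * Real.exp (∑ i, |(m i : ℝ)|)) * (2 * Real.exp (∑ i, |(m i : ℝ)|)) := by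
            gcongr <;> exact h1 _
        _ = _ := by rw [e1]; ring
    have h7 := wt_pos m
    calc wt m * (2 * Real.pi ^ 4 * ((m a : ℝ) * m b * m c * m d) ^ 2) ≤
        wt m * (2 * Real.pi ^ 4 * (16 * Real.exp (4 * ∑ i, |(m i : ℝ)|))) := by gcongr
      _ = _ := by ring

/-- The limit value. -/
noncomputable def limVal (e : Fin g → ℤ) (a b c d : Fin g) : ℂ :=
  ∑' n : Fin g → ℤ, ((wt (dbl e n) * (2 * Real.pi ^ 4 *
      ((dbl e n a : ℝ) * dbl e n b * dbl e n c * dbl e n d) ^ 2) : ℝ) : ℂ)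

theorem limVal_swap (e : Fin g → ℤ) (a b c d : Fin g) :
    limVal e a c b d = limVal e a b c d := by
  unfold limVal
  refine tsum_congr fun n => ?_
  congr 1
  ring

theorem tendsto_th2_diff (a b c d : Fin g) (hab : a ≠ b) (hac : a ≠ c) (had : a ≠ d)
    (hbc : b ≠ c) (hbd : b ≠ d) (hcd : c ≠ d) (e : Fin g → ℤ) :
    Tendsto (fun s : ℝ => (th2 e (curve a b c d 1 s).1 0 - th2 e (curve a b c d (-1) s).1 0) /
      (s : ℂ) ^ 4) (𝓝[≠] 0) (𝓝 (limVal e a b c d)) := by
  have h1 : ∀ s : ℝ, (th2 e (curve a b c d 1 s).1 0 - th2 e (curve a b c d (-1) s).1 0) /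
      (s : ℂ) ^ 4 = ∑' n, ((wt (dbl e n) * (2 *
      (Real.sin (Real.pi * s * (dbl e n d * dbl e n a)) / s) *
      (Real.sin (Real.pi * s * (dbl e n a * dbl e n b)) / s) *
      (Real.sin (Real.pi * s * (dbl e n b * dbl e n c)) / s) *
      (Real.sin (Real.pi * s * (dbl e n c * dbl e n d)) / s)) : ℝ) : ℂ) := by
    intro s
    rw [th2_diff a b c d hab hac had hbc hbd hcd, ← tsum_div_const]
    refine tsum_congr fun n => ?_
    push_cast
    ring
  simp only [h1]
  unfold limVal
  apply tendsto_tsum_of_dominated_convergence (summable_lim e a b c d)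
  · intro n
    set m := dbl e n with hm
    have t1 := tendsto_sin_div ((m d : ℝ) * m a)
    have t2 := tendsto_sin_div ((m a : ℝ) * m b)
    have t3 := tendsto_sin_div ((m b : ℝ) * m c)
    have t4 := tendsto_sin_div ((m c : ℝ) * m d)
    have t5 := ((((t1.const_mul 2).mul t2).mul t3).mul t4).const_mul (wt m)
    have t6 := (Complex.continuous_ofReal.tendsto _).comp t5
    have e1 : wt m * (2 * (Real.pi * ((m d : ℝ) * m a)) * (Real.pi * ((m a : ℝ) * m b)) *
        (Real.pi * ((m b : ℝ) * m c)) * (Real.pi * ((m c : ℝ) * m d))) =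
        wt m * (2 * Real.pi ^ 4 * ((m a : ℝ) * m b * m c * m d) ^ 2) := by ring
    rw [e1] at t6
    exact t6
  · refine eventually_nhdsWithin_of_forall fun s hs n => ?_
    have hs' : s ≠ 0 := hs
    set m := dbl e n with hm
    rw [Complex.norm_real, Real.norm_eq_abs]
    have b1 := sin_div_bound s ((m d : ℝ) * m a) hs'
    have b2 := sin_div_bound s ((m a : ℝ) * m b) hs'
    have b3 := sin_div_bound s ((m b : ℝ) * m c) hs'
    have b4 := sin_div_bound s ((m c : ℝ) * m d) hs'
    rw [abs_mul, abs_of_pos (wt_pos m), abs_mul, abs_mul, abs_mul, abs_mul]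
    have h7 := wt_pos m
    have h2 : |(2 : ℝ)| = 2 := abs_of_pos (by norm_num)
    rw [h2]
    calc wt m * (2 * |Real.sin (Real.pi * s * ((m d : ℝ) * m a)) / s| *
          |Real.sin (Real.pi * s * ((m a : ℝ) * m b)) / s| *
          |Real.sin (Real.pi * s * ((m b : ℝ) * m c)) / s| *
          |Real.sin (Real.pi * s * ((m c : ℝ) * m d)) / s|) ≤
        wt m * (2 * (Real.pi * |(m d : ℝ) * m a|) * (Real.pi * |(m a : ℝ) * m b|) *
          (Real.pi * |(m b : ℝ) * m c|) * (Real.pi * |(m c : ℝ) * m d|)) := by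
          gcongr
      _ = wt m * (2 * Real.pi ^ 4 * ((m a : ℝ) * m b * m c * m d) ^ 2) := by
          have : ((m a : ℝ) * m b * m c * m d) ^ 2 = |(m d : ℝ) * m a| * |(m a : ℝ) * m b| *
              |(m b : ℝ) * m c| * |(m c : ℝ) * m d| := by
            rw [← abs_mul, ← abs_mul, ← abs_mul]
            rw [← abs_of_nonneg (sq_nonneg ((m a : ℝ) * m b * m c * m d))]
            congr 1
            ring
          rw [this]
          ring

end Pool.Agent.H937R2
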