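import Pool.Agent.H937R2.Siegel

set_option autoImplicit false

namespace Pool.Agent.H937R2

open Matrix

variable {g : ℕ}

/-- Parity data of an element `γ ≡ 1 mod 2`. -/
theorem exists_half (γ : SpZ g) (h : ∀ i j, (2 : ℤ) ∣ (γ.1 - 1) i j) :
    ∃ A B C D : Matrix (Fin g) (Fin g) ℤ, blkA γ = 1 + (2 : ℤ) • A ∧
      blkB γ = (2 : ℤ) • B ∧ blkC γ = (2 : ℤ) • C ∧ blkD γ = 1 + (2 : ℤ) • D := by
  choose N hN using h
  refine ⟨Matrix.of fun i j => N (Sum.inl i) (Sum.inl j), Matrix.of fun i j => N (Sum.inl i) (Sum.inr j),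
    Matrix.of fun i j => N (Sum.inr i) (Sum.inl j), Matrix.of fun i j => N (Sum.inr i) (Sum.inr j),
    ?_, ?_, ?_, ?_⟩
  · ext i j
    have := hN (Sum.inl i) (Sum.inl j)
    simp only [Matrix.sub_apply, Matrix.one_apply, Sum.inl.injEq] at this
    simp only [blkA, toBlocks₁₁, Matrix.of_apply, Matrix.add_apply, Matrix.one_apply,
      Matrix.smul_apply, smul_eq_mul]
    linarith
  · ext i j
    have := hN (Sum.inl i) (Sum.inr j)
    simp only [Matrix.sub_apply, Matrix.one_apply, reduceCtorEq, if_false, sub_zero] at this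
    simp only [blkB, toBlocks₁₂, Matrix.of_apply, Matrix.smul_apply, smul_eq_mul]
    linarith
  · ext i j
    have := hN (Sum.inr i) (Sum.inl j)
    simp only [Matrix.sub_apply, Matrix.one_apply, reduceCtorEq, if_false, sub_zero] at this
    simp only [blkC, toBlocks₂₁, Matrix.of_apply, Matrix.smul_apply, smul_eq_mul]
    linarith
  · ext i j
    have := hN (Sum.inr i) (Sum.inr j)
    simp only [Matrix.sub_apply, Matrix.one_apply, Sum.inr.injEq] at this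
    simp only [blkD, toBlocks₂₂, Matrix.of_apply, Matrix.add_apply, Matrix.one_apply,
      Matrix.smul_apply, smul_eq_mul]
    linarith

/-- For `γ ≡ 1 mod 2`, `diag(aᵗb) ≡ 0 mod 4` iff `diag(b) ≡ 0 mod 4`. -/
theorem diagB_iff (γ : SpZ g) (h : ∀ i j, (2 : ℤ) ∣ (γ.1 - 1) i j) (i : Fin g) :
    (4 : ℤ) ∣ ((blkA γ)ᵀ * blkB γ) i i ↔ (4 : ℤ) ∣ blkB γ i i := by
  obtain ⟨A, B, C, D, hA, hB, hC, hD⟩ := exists_half γ h
  have e : (blkA γ)ᵀ * blkB γ = blkB γ + (4 : ℤ) • (Aᵀ * B) := by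
    rw [hA, hB, transpose_add, transpose_one, transpose_smul, Matrix.add_mul, Matrix.one_mul,
      Matrix.smul_mul, Matrix.mul_smul, smul_smul]
    norm_num
  rw [e, Matrix.add_apply, Matrix.smul_apply, smul_eq_mul]
  exact (Int.dvd_add_left (Dvd.intro _ rfl))

theorem diagC_iff (γ : SpZ g) (h : ∀ i j, (2 : ℤ) ∣ (γ.1 - 1) i j) (i : Fin g) :
    (4 : ℤ) ∣ ((blkC γ)ᵀ * blkD γ) i i ↔ (4 : ℤ) ∣ blkC γ i i := by
  obtain ⟨A, B, C, D, hA, hB, hC, hD⟩ := exists_half γ h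
  have e : (blkC γ)ᵀ * blkD γ = (blkC γ)ᵀ + (4 : ℤ) • (Cᵀ * D) := by
    rw [hC, hD, transpose_smul, Matrix.mul_add, Matrix.mul_one,
      Matrix.smul_mul, Matrix.mul_smul, smul_smul]
    norm_num
  rw [e, Matrix.add_apply, Matrix.smul_apply, smul_eq_mul, transpose_apply]
  exact (Int.dvd_add_left (Dvd.intro _ rfl))

/-- The membership condition of `Γ_g(2,4)`: `γ ≡ 1 mod 2` and
`diag(aᵗb) ≡ diag(cᵗd) ≡ 0 mod 4`. -/
def IsGamma24 (γ : SpZ g) : Prop :=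
  (∀ i j, (2 : ℤ) ∣ (γ.1 - 1) i j) ∧ (∀ i, (4 : ℤ) ∣ ((blkA γ)ᵀ * blkB γ) i i) ∧
    ∀ i, (4 : ℤ) ∣ ((blkC γ)ᵀ * blkD γ) i i

theorem isGamma24_iff (γ : SpZ g) : IsGamma24 γ ↔
    (∀ i j, (2 : ℤ) ∣ (γ.1 - 1) i j) ∧ (∀ i, (4 : ℤ) ∣ blkB γ i i) ∧
    ∀ i, (4 : ℤ) ∣ blkC γ i i := by
  unfold IsGamma24
  constructor
  · rintro ⟨h, h1, h2⟩
    exact ⟨h, fun i => (diagB_iff γ h i).mp (h1 i), fun i => (diagC_iff γ h i).mp (h2 i)⟩
  · rintro ⟨h, h1, h2⟩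
    exact ⟨h, fun i => (diagB_iff γ h i).mpr (h1 i), fun i => (diagC_iff γ h i).mpr (h2 i)⟩

theorem isGamma24_one : IsGamma24 (1 : SpZ g) := by
  rw [isGamma24_iff]
  have h : (1 : SpZ g).1 = 1 := rfl
  refine ⟨fun i j => by rw [h]; simp, fun i => ?_, fun i => ?_⟩
  · simp [blkB, toBlocks₁₂, h]
  · simp [blkC, toBlocks₂₁, h]

theorem isGamma24_mul {γ δ : SpZ g} (hγ : IsGamma24 γ) (hδ : IsGamma24 δ) :
    IsGamma24 (γ * δ) := by
  rw [isGamma24_iff] at hγ hδ ⊢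
  obtain ⟨h, h1, h2⟩ := hγ
  obtain ⟨k, k1, k2⟩ := hδ
  have hm : (γ * δ).1 = γ.1 * δ.1 := rfl
  obtain ⟨A, B, C, D, hA, hB, hC, hD⟩ := exists_half γ h
  obtain ⟨A', B', C', D', hA', hB', hC', hD'⟩ := exists_half δ k
  obtain ⟨m1, m2, m3, m4⟩ := blk_mul γ δ
  refine ⟨?_, ?_, ?_⟩
  · intro i j
    have e : (γ * δ).1 - 1 = (γ.1 - 1) * δ.1 + (δ.1 - 1) := by
      rw [hm]
      noncomm_ring
    rw [e, Matrix.add_apply, Matrix.mul_apply]
    exact dvd_add (Finset.dvd_sum fun x _ => Dvd.dvd.mul_right (h i x) _) (k i j)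
  · intro i
    have e : blkB (γ * δ) = blkB δ + blkB γ + (4 : ℤ) • (A * B' + B * D') := by
      rw [m2, hA, hB, hB', hD']
      simp only [Matrix.add_mul, Matrix.mul_add, Matrix.one_mul, Matrix.mul_one, Matrix.smul_mul,
        Matrix.mul_smul, smul_smul, smul_add]
      norm_num
      abel
    rw [e, Matrix.add_apply, Matrix.add_apply, Matrix.smul_apply, smul_eq_mul]
    exact dvd_add (dvd_add (k1 i) (h1 i)) (Dvd.intro _ rfl)
  · intro i
    have e : blkC (γ * δ) = blkC γ + blkC δ + (4 : ℤ) • (C * A' + D * C') := by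
      rw [m3, hC, hD, hA', hC']
      simp only [Matrix.add_mul, Matrix.mul_add, Matrix.one_mul, Matrix.mul_one, Matrix.smul_mul,
        Matrix.mul_smul, smul_smul, smul_add]
      norm_num
      abel
    rw [e, Matrix.add_apply, Matrix.add_apply, Matrix.smul_apply, smul_eq_mul]
    exact dvd_add (dvd_add (h2 i) (k2 i)) (Dvd.intro _ rfl)

theorem blk_inv (γ : SpZ g) : blkA γ⁻¹ = (blkD γ)ᵀ ∧ blkB γ⁻¹ = -(blkB γ)ᵀ ∧
    blkC γ⁻¹ = -(blkC γ)ᵀ ∧ blkD γ⁻¹ = (blkA γ)ᵀ := by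
  have h := SymplecticGroup.coe_inv γ
  rw [fromBlocks_blk γ, fromBlocks_transpose, J, fromBlocks_neg, fromBlocks_multiply,
    fromBlocks_multiply, fromBlocks_blk (γ⁻¹), fromBlocks_inj] at h
  simpa using h

theorem isGamma24_inv {γ : SpZ g} (hγ : IsGamma24 γ) : IsGamma24 γ⁻¹ := by
  rw [isGamma24_iff] at hγ ⊢
  obtain ⟨h, h1, h2⟩ := hγ
  obtain ⟨m1, m2, m3, m4⟩ := blk_inv γ
  refine ⟨?_, ?_, ?_⟩
  · intro i j
    have e0 : (γ⁻¹).1 * γ.1 = 1 := by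
      have := congrArg Subtype.val (inv_mul_cancel γ)
      exact this
    have e : (γ⁻¹).1 - 1 = -((γ⁻¹).1 * (γ.1 - 1)) := by
      rw [Matrix.mul_sub, e0, Matrix.mul_one]
      abel
    rw [e, Matrix.neg_apply, Matrix.mul_apply, dvd_neg]
    exact Finset.dvd_sum fun x _ => Dvd.dvd.mul_left (h x j) _
  · intro i
    rw [m2, Matrix.neg_apply, transpose_apply, dvd_neg]
    exact h1 i
  · intro i
    rw [m3, Matrix.neg_apply, transpose_apply, dvd_neg]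
    exact h2 i

/-- The group `Γ_g(2,4)`. -/
def Gamma24 (g : ℕ) : Subgroup (SpZ g) where
  carrier := {γ | IsGamma24 γ}
  mul_mem' := isGamma24_mul
  one_mem' := isGamma24_one
  inv_mem' := isGamma24_inv

theorem mem_Gamma24 (γ : SpZ g) : γ ∈ Gamma24 g ↔ IsGamma24 γ := Iff.rfl

end Pool.Agent.H937R2
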