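import Mathlib

set_option autoImplicit false

namespace Pool.Agent.H937R2

open Matrix

/-- Products of summable nonnegative functions are summable over `Fin g → ℤ`. -/
theorem summable_pi_prod : ∀ {g : ℕ} (f : Fin g → ℤ → ℝ), (∀ i n, 0 ≤ f i n) →
    (∀ i, Summable (f i)) → Summable (fun n : Fin g → ℤ => ∏ i, f i (n i)) := by
  intro g
  induction g with
  | zero =>
    intro f _ _
    exact Summable.of_finite
  | succ g ih =>
    intro f hf hs
    have h1 := ih (fun i => f i.succ) (fun i n => hf _ n) (fun i => hs _)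
    have h2 : Summable (fun p : ℤ × (Fin g → ℤ) => f 0 p.1 * ∏ i : Fin g, f i.succ (p.2 i)) := by
      apply Summable.mul_of_nonneg (hs 0) h1
      · intro n
        exact hf 0 n
      · intro n
        exact Finset.prod_nonneg fun i _ => hf _ _
    have e := (Fin.consEquiv (fun _ : Fin (g + 1) => ℤ))
    rw [← (Fin.consEquiv (fun _ : Fin (g + 1) => ℤ)).summable_iff]
    refine h2.congr fun p => ?_
    simp [Fin.prod_univ_succ, Fin.consEquiv]

theorem summable_gauss_one (c B : ℝ) (hc : 0 < c) :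
    Summable (fun n : ℤ => Real.exp (-c * (n : ℝ) ^ 2 + B * |(n : ℝ)|)) := by
  have h := summable_pow_mul_jacobiTheta₂_term_bound (B / (2 * Real.pi))
    (T := c / Real.pi) (by positivity) 0
  refine h.congr fun n => ?_
  have hpi : Real.pi ≠ 0 := Real.pi_ne_zero
  simp only [pow_zero, one_mul]
  congr 1
  field_simp
  push_cast
  ring

theorem summable_gauss {g : ℕ} (c B : ℝ) (hc : 0 < c) :
    Summable (fun n : Fin g → ℤ => ∏ i, Real.exp (-c * (n i : ℝ) ^ 2 + B * |(n i : ℝ)|)) :=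
  summable_pi_prod (fun (_ : Fin g) (n : ℤ) => Real.exp (-c * (n : ℝ) ^ 2 + B * |(n : ℝ)|))
    (fun _ _ => (Real.exp_pos _).le) (fun _ => summable_gauss_one c B hc)

/-- The quadratic form of a real matrix. -/
def qr {g : ℕ} (Y : Matrix (Fin g) (Fin g) ℝ) (x : Fin g → ℝ) : ℝ := ∑ i, ∑ j, x i * Y i j * x j

theorem qr_smul {g : ℕ} (Y : Matrix (Fin g) (Fin g) ℝ) (a : ℝ) (x : Fin g → ℝ) :
    qr Y (a • x) = a ^ 2 * qr Y x := by
  unfold qr
  simp only [Finset.mul_sum]
  refine Finset.sum_congr rfl fun i _ => Finset.sum_congr rfl fun j _ => ?_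
  rw [Pi.smul_apply, Pi.smul_apply, smul_eq_mul, smul_eq_mul]
  ring

/-- A positive definite real quadratic form is bounded below by a multiple of the sum of
squares. -/
theorem posDef_lower {g : ℕ} (Y : Matrix (Fin g) (Fin g) ℝ) (hY : Y.PosDef) :
    ∃ c : ℝ, 0 < c ∧ ∀ x : Fin g → ℝ, c * ∑ i, x i ^ 2 ≤ qr Y x := by
  have hq : ∀ x : Fin g → ℝ, x ≠ 0 → 0 < qr Y x := by
    intro x hx
    have := hY.dotProduct_mulVec_pos hx
    unfold qr
    simp only [dotProduct, mulVec, Finset.mul_sum, Pi.star_apply, star_trivial] at this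
    simpa only [mul_assoc] using this
  rcases Nat.eq_zero_or_pos g with hg | hg
  · subst hg
    exact ⟨1, one_pos, fun x => by simp [qr]⟩
  have hne : (Metric.sphere (0 : Fin g → ℝ) 1).Nonempty := by
    have : Nonempty (Fin g) := ⟨⟨0, hg⟩⟩
    exact NormedSpace.sphere_nonempty.mpr zero_le_one
  have hcont : Continuous (fun x : Fin g → ℝ => qr Y x) := by unfold qr; fun_prop
  obtain ⟨x0, hx0, hmin⟩ := (isCompact_sphere (0 : Fin g → ℝ) 1).exists_isMinOn hne
    hcont.continuousOn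
  have hx0n : ‖x0‖ = 1 := by simpa using hx0
  have hx0' : x0 ≠ 0 := by
    intro h
    rw [h, norm_zero] at hx0n
    exact zero_ne_one hx0n
  have hc0pos : 0 < qr Y x0 := hq x0 hx0'
  have hgpos : (0 : ℝ) < g := by exact_mod_cast hg
  refine ⟨qr Y x0 / g, div_pos hc0pos hgpos, ?_⟩
  intro x
  by_cases hx : x = 0
  · subst hx
    simp [qr]
  have hnx : 0 < ‖x‖ := norm_pos_iff.mpr hx
  have hu : (‖x‖⁻¹ • x) ∈ Metric.sphere (0 : Fin g → ℝ) 1 := by
    rw [mem_sphere_zero_iff_norm, norm_smul, norm_inv, norm_norm]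
    exact inv_mul_cancel₀ hnx.ne'
  have h1 : qr Y x0 ≤ qr Y (‖x‖⁻¹ • x) := (isMinOn_iff.mp hmin) _ hu
  rw [qr_smul] at h1
  have h3 : ∑ i, x i ^ 2 ≤ g * ‖x‖ ^ 2 := by
    calc ∑ i, x i ^ 2 ≤ ∑ _i : Fin g, ‖x‖ ^ 2 := by
          refine Finset.sum_le_sum fun i _ => ?_
          have := norm_le_pi_norm x i
          rw [Real.norm_eq_abs] at this
          calc x i ^ 2 = |x i| ^ 2 := (sq_abs _).symm
            _ ≤ ‖x‖ ^ 2 := by gcongr
      _ = g * ‖x‖ ^ 2 := by simp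
  calc qr Y x0 / g * ∑ i, x i ^ 2 ≤ qr Y x0 / g * (g * ‖x‖ ^ 2) :=
        mul_le_mul_of_nonneg_left h3 (div_pos hc0pos hgpos).le
    _ = qr Y x0 * ‖x‖ ^ 2 := by
        rw [div_mul_eq_mul_div, mul_comm (g : ℝ), ← mul_assoc, mul_div_assoc, div_self hgpos.ne',
          mul_one]
    _ ≤ ((‖x‖⁻¹) ^ 2 * qr Y x) * ‖x‖ ^ 2 :=
        mul_le_mul_of_nonneg_right h1 (by positivity)
    _ = qr Y x * ((‖x‖⁻¹) ^ 2 * ‖x‖ ^ 2) := by ring
    _ = qr Y x := by
        rw [← mul_pow, inv_mul_cancel₀ hnx.ne', one_pow, mul_one]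

end Pool.Agent.H937R2
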