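import Pool.Agent.H937R2.Gamma
import Pool.Agent.H937R2.Summ

set_option autoImplicit false

namespace Pool.Agent.H937R2

open Matrix

variable {g : ℕ}

/-- `star v ⬝ Y v = Y[x] + Y[y]` for `v = x + iy` and `Y` real symmetric. -/
theorem herm_form (Y : Matrix (Fin g) (Fin g) ℝ) (hs : ∀ i j, Y j i = Y i j) (w : Fin g → ℂ) :
    star w ⬝ᵥ (Y.map (Complex.ofReal : ℝ → ℂ) *ᵥ w) =
      ((qr Y (fun i => (w i).re) + qr Y (fun i => (w i).im) : ℝ) : ℂ) := by
  have hsum : ∀ (f : Fin g → Fin g → ℝ), (∀ i j, f i j = - f j i) →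
      ∑ i, ∑ j, f i j = 0 := by
    intro f hf
    have h1 : ∑ i, ∑ j, f i j = ∑ i, ∑ j, f j i := Finset.sum_comm
    have h2 : ∑ i, ∑ j, f i j = - ∑ i, ∑ j, f j i := by
      simp only [← Finset.sum_neg_distrib]
      exact Finset.sum_congr rfl fun i _ => Finset.sum_congr rfl fun j _ => hf i j
    linarith
  unfold qr
  apply Complex.ext
  · simp only [dotProduct, mulVec, Complex.ofReal_re, Pi.star_apply, Complex.re_sum,
      Complex.star_def, Finset.mul_sum, map_apply]
    simp only [← Finset.sum_add_distrib]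
    refine Finset.sum_congr rfl fun i _ => Finset.sum_congr rfl fun j _ => ?_
    simp [Complex.mul_re]
    ring
  · simp only [dotProduct, mulVec, Complex.ofReal_im, Pi.star_apply, Complex.im_sum,
      Complex.star_def, Finset.mul_sum, map_apply]
    apply hsum
    intro i j
    simp [Complex.mul_im, hs i j]
    ring

/-- Entrywise closeness to `i·1`. -/
def nearI (δ : ℝ) (τ : Siegel g) : Prop :=
  ∀ i j, ‖τ.1 i j - (if i = j then Complex.I else 0)‖ < δ

theorem nearI_im {δ : ℝ} {τ : Siegel g} (h : nearI δ τ) (i j : Fin g) :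
    |(τ.1 i j).im - (if i = j then 1 else 0)| < δ := by
  have h1 := h i j
  have h2 := Complex.abs_im_le_norm (τ.1 i j - (if i = j then Complex.I else 0))
  have h3 : (τ.1 i j - (if i = j then Complex.I else 0)).im =
      (τ.1 i j).im - (if i = j then 1 else 0) := by
    rw [Complex.sub_im]
    split_ifs <;> simp
  rw [h3] at h2
  linarith

theorem qr_lower {δ : ℝ} (hδ : 0 ≤ δ) (Y : Matrix (Fin g) (Fin g) ℝ)
    (h : ∀ i j, |Y i j - (if i = j then 1 else 0)| ≤ δ) (x : Fin g → ℝ) :
    (1 - g * δ) * ∑ i, x i ^ 2 ≤ qr Y x := by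
  have h1 : qr Y x = ∑ i, x i ^ 2 + ∑ i, ∑ j, x i * (Y i j - (if i = j then 1 else 0)) * x j := by
    unfold qr
    rw [← Finset.sum_add_distrib]
    refine Finset.sum_congr rfl fun i _ => ?_
    have h2 : x i ^ 2 = ∑ j, x i * (if i = j then 1 else 0) * x j := by
      rw [Finset.sum_eq_single i]
      · simp [sq]
      · intro j _ hj
        simp [hj.symm]
      · intro h
        exact absurd (Finset.mem_univ _) h
    rw [h2, ← Finset.sum_add_distrib]
    refine Finset.sum_congr rfl fun j _ => ?_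
    ring
  have h2 : |∑ i, ∑ j, x i * (Y i j - (if i = j then 1 else 0)) * x j| ≤
      δ * (∑ i, |x i|) ^ 2 := by
    calc |∑ i, ∑ j, x i * (Y i j - (if i = j then 1 else 0)) * x j| ≤
        ∑ i, ∑ j, |x i * (Y i j - (if i = j then 1 else 0)) * x j| := by
          refine (Finset.abs_sum_le_sum_abs _ _).trans ?_
          exact Finset.sum_le_sum fun i _ => Finset.abs_sum_le_sum_abs _ _
      _ ≤ ∑ i, ∑ j, δ * (|x i| * |x j|) := by
          refine Finset.sum_le_sum fun i _ => Finset.sum_le_sum fun j _ => ?_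
          rw [abs_mul, abs_mul]
          have := h i j
          have h3 := abs_nonneg (x i)
          have h4 := abs_nonneg (x j)
          calc |x i| * |Y i j - (if i = j then 1 else 0)| * |x j| ≤ |x i| * δ * |x j| := by
                gcongr
            _ = δ * (|x i| * |x j|) := by ring
      _ = δ * (∑ i, |x i|) ^ 2 := by
          rw [sq, Finset.sum_mul_sum, Finset.mul_sum]
          refine Finset.sum_congr rfl fun i _ => ?_
          rw [Finset.mul_sum]
  have h3 : (∑ i, |x i|) ^ 2 ≤ g * ∑ i, x i ^ 2 := by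
    have := sq_sum_le_card_mul_sum_sq (s := (Finset.univ : Finset (Fin g))) (f := fun i => |x i|)
    simpa [sq_abs] using this
  have h4 := neg_abs_le (∑ i, ∑ j, x i * (Y i j - (if i = j then 1 else 0)) * x j)
  have h5 : δ * (∑ i, |x i|) ^ 2 ≤ δ * (g * ∑ i, x i ^ 2) := mul_le_mul_of_nonneg_left h3 hδ
  rw [h1]
  nlinarith

theorem int_zero_of_even {k : ℤ} (h : (2 : ℤ) ∣ k) (h2 : |(k : ℝ)| < 2) : k = 0 := by
  have h3 : |k| < 2 := by exact_mod_cast h2
  have h4 := abs_lt.mp h3
  omega

theorem int_zero_of_small {k : ℤ} (h2 : |(k : ℝ)| < 1) : k = 0 := by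
  have h3 : |k| < 1 := by exact_mod_cast h2
  have h4 := abs_lt.mp h3
  omega

/-- Elements of `Γ_g(2,4)` moving a point near `i·1` to a point near `i·1` are diagonal sign
changes. -/
theorem local_unique (δ : ℝ) (hδ : 0 < δ) (hδg : (g : ℝ) * δ ≤ 1 / 10) (hδ1 : δ ≤ 1 / 10)
    (γ : SpZ g) (hγ : IsGamma24 γ) (τ : Siegel g) (hτ : nearI δ τ) (hτ' : nearI δ (γ • τ)) :
    ∃ s : Fin g → ℤ, (∀ i, s i = 1 ∨ s i = -1) ∧
      ∀ i j, (γ • τ).1 i j = (s i : ℂ) * (s j : ℂ) * τ.1 i j := by
  obtain ⟨h2, hb, hc⟩ := (isGamma24_iff γ).mp hγ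
  obtain ⟨A, B, C, D, hA, hB, hC, hD⟩ := exists_half γ h2
  obtain ⟨r1, r2, r3, r4⟩ := rel γ
  -- the relation Qᴴ Y' Q = Y
  have hrel : (den γ τ.1)ᴴ * imC (γ • τ).1 * den γ τ.1 = imC τ.1 := by
    have h := act_im γ τ
    have hQ := den_inv_mul γ τ
    have hQt : (den γ τ.1)ᴴ * ((den γ τ.1)⁻¹)ᴴ = 1 := by
      rw [← conjTranspose_mul, hQ, conjTranspose_one]
    rw [smul_val, h]
    calc (den γ τ.1)ᴴ * (((den γ τ.1)⁻¹)ᴴ * imC τ.1 * (den γ τ.1)⁻¹) * den γ τ.1 =
        ((den γ τ.1)ᴴ * ((den γ τ.1)⁻¹)ᴴ) * imC τ.1 * ((den γ τ.1)⁻¹ * den γ τ.1) := by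
          noncomm_ring
      _ = _ := by rw [hQ, hQt, Matrix.one_mul, Matrix.mul_one]
  have hsymm' : ∀ i j, ((γ • τ).1.map Complex.im) j i = ((γ • τ).1.map Complex.im) i j := by
    intro i j
    have := congrFun (congrFun (γ • τ).2.1 i) j
    simp only [transpose_apply] at this
    simp only [map_apply, this]
  -- column bound
  have hcol : ∀ j, ∑ i, ((den γ τ.1 i j).re ^ 2 + (den γ τ.1 i j).im ^ 2) ≤ 11 / 9 := by
    intro j
    have h := congrFun (congrFun hrel j) j
    have h1 : ((den γ τ.1)ᴴ * imC (γ • τ).1 * den γ τ.1) j j =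
        star (fun i => den γ τ.1 i j) ⬝ᵥ (imC (γ • τ).1 *ᵥ (fun i => den γ τ.1 i j)) := by
      rw [Matrix.mul_assoc, Matrix.mul_apply]
      rfl
    rw [h1] at h
    have h3 := herm_form ((γ • τ).1.map Complex.im) hsymm' (fun i => den γ τ.1 i j)
    change star (fun i => den γ τ.1 i j) ⬝ᵥ (imC (γ • τ).1 *ᵥ (fun i => den γ τ.1 i j)) = _ at h3
    rw [h3] at h
    have h4 : qr ((γ • τ).1.map Complex.im) (fun i => (den γ τ.1 i j).re) +
        qr ((γ • τ).1.map Complex.im) (fun i => (den γ τ.1 i j).im) = (τ.1 j j).im := by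
      have : imC τ.1 j j = (((τ.1 j j).im : ℝ) : ℂ) := rfl
      rw [this] at h
      exact_mod_cast h
    have h5 : (τ.1 j j).im ≤ 1 + δ := by
      have := nearI_im hτ j j
      simp only [if_true] at this
      have := (abs_lt.mp this).2
      linarith
    have hY : ∀ i j, |((γ • τ).1.map Complex.im) i j - (if i = j then 1 else 0)| ≤ δ :=
      fun i j => (nearI_im hτ' i j).le
    have h6 := qr_lower hδ.le _ hY (fun i => (den γ τ.1 i j).re)
    have h7 := qr_lower hδ.le _ hY (fun i => (den γ τ.1 i j).im)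
    rw [Finset.sum_add_distrib]
    have hn1 : 0 ≤ ∑ i, (den γ τ.1 i j).re ^ 2 := Finset.sum_nonneg fun i _ => sq_nonneg _
    have hn2 : 0 ≤ ∑ i, (den γ τ.1 i j).im ^ 2 := Finset.sum_nonneg fun i _ => sq_nonneg _
    nlinarith
  have hentry : ∀ i j, |(den γ τ.1 i j).re| ≤ 111 / 100 ∧ |(den γ τ.1 i j).im| ≤ 111 / 100 := by
    intro i j
    have h := hcol j
    have h1 : (den γ τ.1 i j).re ^ 2 + (den γ τ.1 i j).im ^ 2 ≤ 11 / 9 :=
      (Finset.single_le_sum (f := fun i => (den γ τ.1 i j).re ^ 2 + (den γ τ.1 i j).im ^ 2)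
        (fun i _ => by positivity) (Finset.mem_univ i)).trans h
    constructor
    · apply abs_le_of_sq_le_sq _ (by norm_num)
      nlinarith [sq_nonneg (den γ τ.1 i j).im]
    · apply abs_le_of_sq_le_sq _ (by norm_num)
      nlinarith [sq_nonneg (den γ τ.1 i j).re]
  -- imaginary part of the denominator
  have hIm : ∀ i j, (den γ τ.1 i j).im = ∑ k, (blkC γ i k : ℝ) * (τ.1 k j).im := by
    intro i j
    unfold den
    rw [Matrix.add_apply, Complex.add_im, Matrix.mul_apply, Complex.im_sum]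
    have h1 : (toC (blkD γ) i j).im = 0 := by simp [toC]
    rw [h1, add_zero]
    refine Finset.sum_congr rfl fun k _ => ?_
    simp [toC, Complex.mul_im]
  have hC0 : ∀ i j, blkC γ i j = 0 := by
    intro i j
    apply int_zero_of_even (by rw [hC]; exact Dvd.intro _ rfl)
    have hstep : ∀ j, |(blkC γ i j : ℝ)| ≤ 111 / 100 + δ * ∑ k, |(blkC γ i k : ℝ)| := by
      intro j
      have h1 : (blkC γ i j : ℝ) = (den γ τ.1 i j).im -
          ∑ k, (blkC γ i k : ℝ) * ((τ.1 k j).im - (if k = j then 1 else 0)) := by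
        rw [hIm, ← Finset.sum_sub_distrib]
        rw [Finset.sum_eq_single j]
        · simp only [if_true]
          ring
        · intro k _ hk
          simp [hk]
        · intro h
          exact absurd (Finset.mem_univ _) h
      rw [h1]
      refine (abs_sub _ _).trans ?_
      refine add_le_add (hentry i j).2 ?_
      refine (Finset.abs_sum_le_sum_abs _ _).trans ?_
      rw [Finset.mul_sum]
      refine Finset.sum_le_sum fun k _ => ?_
      rw [abs_mul, mul_comm]
      exact mul_le_mul_of_nonneg_right (nearI_im hτ k j).le (abs_nonneg _)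
    have hsum : ∑ k, |(blkC γ i k : ℝ)| ≤ g * (111 / 100 + δ * ∑ k, |(blkC γ i k : ℝ)|) := by
      calc ∑ k, |(blkC γ i k : ℝ)| ≤ ∑ _k : Fin g, (111 / 100 + δ * ∑ k, |(blkC γ i k : ℝ)|) :=
            Finset.sum_le_sum fun k _ => hstep k
        _ = _ := by
            rw [Finset.sum_const, Finset.card_univ, Fintype.card_fin, nsmul_eq_mul]
    set S := ∑ k, |(blkC γ i k : ℝ)| with hS
    have hSn : 0 ≤ S := Finset.sum_nonneg fun k _ => abs_nonneg _
    have h8 : δ * S ≤ δ * (g * (111 / 100 + δ * S)) := mul_le_mul_of_nonneg_left hsum hδ.le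
    have h9 := hstep j
    have h10 : (g : ℝ) * δ * (δ * S) ≤ 1 / 10 * (δ * S) :=
      mul_le_mul_of_nonneg_right hδg (mul_nonneg hδ.le hSn)
    nlinarith
  have hC0' : blkC γ = 0 := by
    ext i j
    exact hC0 i j
  have hden : ∀ i j, den γ τ.1 i j = (blkD γ i j : ℂ) := by
    intro i j
    unfold den
    rw [hC0', toC_zero, Matrix.zero_mul, zero_add]
    rfl
  have hDabs : ∀ i j, |(blkD γ i j : ℝ)| ≤ 111 / 100 := by
    intro i j
    have := (hentry i j).1
    rw [hden] at this
    simpa using this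
  have hD0 : ∀ i j, i ≠ j → blkD γ i j = 0 := by
    intro i j hij
    apply int_zero_of_even
    · rw [hD, Matrix.add_apply, Matrix.one_apply_ne hij, zero_add]
      exact Dvd.intro _ rfl
    · have := hDabs i j
      linarith
  have hDd : ∀ i, blkD γ i i = 1 ∨ blkD γ i i = -1 := by
    intro i
    have h1 := hDabs i i
    have h3 : |blkD γ i i| < 2 := by
      have : |(blkD γ i i : ℝ)| < 2 := by linarith
      exact_mod_cast this
    have h4 := abs_lt.mp h3
    have h5 : blkD γ i i = 1 + 2 * D i i := by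
      rw [hD, Matrix.add_apply, Matrix.one_apply_eq, Matrix.smul_apply, smul_eq_mul]
    omega
  have hDdiag : blkD γ = Matrix.diagonal (fun i => blkD γ i i) := by
    ext i j
    by_cases h : i = j
    · subst h
      simp
    · rw [Matrix.diagonal_apply_ne _ h, hD0 i j h]
  have hss : ∀ i, blkD γ i i * blkD γ i i = 1 := by
    intro i
    rcases hDd i with h | h <;> rw [h] <;> norm_num
  have hAd : ∀ i j, blkA γ i j = if i = j then blkD γ i i else 0 := by
    intro i j
    rw [hC0', transpose_zero, Matrix.zero_mul, sub_zero] at r3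
    have h1 := congrFun (congrFun r3 j) i
    rw [hDdiag, Matrix.mul_diagonal, transpose_apply, Matrix.one_apply] at h1
    have h3 : blkA γ i j = (if j = i then (1 : ℤ) else 0) * blkD γ i i := by
      rw [← h1, mul_assoc, hss, mul_one]
    rw [h3]
    by_cases h : i = j
    · subst h
      simp
    · simp [h, Ne.symm h]
  have hact : ∀ i j, (γ • τ).1 i j * (blkD γ j j : ℂ) =
      (blkD γ i i : ℂ) * τ.1 i j + (blkB γ i j : ℂ) := by
    intro i j
    have h1 : (γ • τ).1 * den γ τ.1 = num γ τ.1 := by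
      rw [smul_val, Matrix.mul_assoc, den_inv_mul, Matrix.mul_one]
    have h3 := congrFun (congrFun h1 i) j
    rw [Matrix.mul_apply, Finset.sum_eq_single j] at h3
    · rw [hden] at h3
      rw [h3]
      unfold num
      rw [Matrix.add_apply, Matrix.mul_apply, Finset.sum_eq_single i]
      · simp [toC, hAd]
      · intro k _ hk
        simp [toC, hAd, Ne.symm hk]
      · intro h
        exact absurd (Finset.mem_univ _) h
    · intro k _ hk
      rw [hden, hD0 k j hk]
      simp
    · intro h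
      exact absurd (Finset.mem_univ _) h
  have hsn : ∀ i, ‖(blkD γ i i : ℂ)‖ = 1 := by
    intro i
    rcases hDd i with h | h <;> rw [h] <;> simp
  have hB0 : ∀ i j, blkB γ i j = 0 := by
    intro i j
    apply int_zero_of_small
    have h1 : (blkB γ i j : ℂ) = (γ • τ).1 i j * (blkD γ j j : ℂ) -
        (blkD γ i i : ℂ) * τ.1 i j := by
      rw [hact]
      ring
    have h3 : ‖(blkB γ i j : ℂ)‖ < 1 := by
      have h4 : (blkB γ i j : ℂ) = ((γ • τ).1 i j - (if i = j then Complex.I else 0)) *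
          (blkD γ j j : ℂ) - (blkD γ i i : ℂ) * (τ.1 i j - (if i = j then Complex.I else 0)) := by
        rw [h1]
        by_cases h : i = j
        · subst h
          ring
        · simp [h]
      rw [h4]
      calc _ ≤ ‖((γ • τ).1 i j - (if i = j then Complex.I else 0)) * (blkD γ j j : ℂ)‖ +
            ‖(blkD γ i i : ℂ) * (τ.1 i j - (if i = j then Complex.I else 0))‖ := norm_sub_le _ _
        _ = ‖(γ • τ).1 i j - (if i = j then Complex.I else 0)‖ +
            ‖τ.1 i j - (if i = j then Complex.I else 0)‖ := by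
            rw [norm_mul, norm_mul, hsn, hsn, mul_one, one_mul]
        _ < δ + δ := add_lt_add (hτ' i j) (hτ i j)
        _ ≤ 1 := by linarith
    have h5 : ‖(blkB γ i j : ℂ)‖ = |(blkB γ i j : ℝ)| := by
      have : (blkB γ i j : ℂ) = ((blkB γ i j : ℝ) : ℂ) := by push_cast; rfl
      rw [this, Complex.norm_real, Real.norm_eq_abs]
    rwa [h5] at h3
  refine ⟨fun i => blkD γ i i, hDd, fun i j => ?_⟩
  have h1 := hact i j
  rw [hB0, Int.cast_zero, add_zero] at h1
  have h3 : (blkD γ j j : ℂ) * (blkD γ j j : ℂ) = 1 := by exact_mod_cast hss j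
  calc (γ • τ).1 i j = (γ • τ).1 i j * ((blkD γ j j : ℂ) * (blkD γ j j : ℂ)) := by
        rw [h3, mul_one]
    _ = ((γ • τ).1 i j * (blkD γ j j : ℂ)) * (blkD γ j j : ℂ) := by ring
    _ = _ := by rw [h1]; ring

end Pool.Agent.H937R2
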