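import Pool.Agent.H937R2.ThetaMap
import Pool.Agent.H937R2.Curve
import Pool.Agent.H937R2.Local

set_option autoImplicit false

namespace Pool.Agent.H937R2

open Matrix Topology Filter Asymptotics

variable {g : ℕ}

theorem continuous_proj : Continuous (proj (g := g)) := continuous_coinduced_rng

/-- Limits of difference quotients of order `s⁴` under a strictly differentiable map. -/
theorem strict_limit {V : Type*} [NormedAddCommGroup V] [NormedSpace ℂ V] (F : V → ℂ)
    (F' : V →L[ℂ] ℂ) (v0 : V) (hF : HasStrictFDerivAt F F' v0) (p m : ℝ → V)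
    (hp : Tendsto p (𝓝[≠] 0) (𝓝 v0)) (hm : Tendsto m (𝓝[≠] 0) (𝓝 v0)) (L : V)
    (hL : Tendsto (fun s : ℝ => (((s : ℂ) ^ 4)⁻¹) • (p s - m s)) (𝓝[≠] 0) (𝓝 L)) :
    Tendsto (fun s : ℝ => (F (p s) - F (m s)) / (s : ℂ) ^ 4) (𝓝[≠] 0) (𝓝 (F' L)) := by
  have h1 := hF.isLittleO
  have h2 : Tendsto (fun s => (p s, m s)) (𝓝[≠] 0) (𝓝 (v0, v0)) := hp.prodMk_nhds hm
  have h3 := h1.comp_tendsto h2
  have h4 : (fun s => p s - m s) =O[𝓝[≠] (0 : ℝ)] (fun s : ℝ => (s : ℂ) ^ 4) := by
    have hb := hL.isBigO_one ℂ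
    have h5 : (fun s : ℝ => (s : ℂ) ^ 4 • ((((s : ℂ) ^ 4)⁻¹) • (p s - m s))) =O[𝓝[≠] (0 : ℝ)]
        (fun s : ℝ => (s : ℂ) ^ 4 • (1 : ℂ)) :=
      (isBigO_refl (fun s : ℝ => (s : ℂ) ^ 4) (𝓝[≠] (0 : ℝ))).smul hb
    refine (h5.congr' ?_ ?_)
    · refine eventually_nhdsWithin_of_forall fun s hs => ?_
      have hs' : (s : ℂ) ^ 4 ≠ 0 := by
        have : (s : ℂ) ≠ 0 := by
          intro h
          exact hs (by exact_mod_cast h)
        exact pow_ne_zero _ this
      change (s : ℂ) ^ 4 • ((((s : ℂ) ^ 4)⁻¹) • (p s - m s)) = p s - m s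
      rw [smul_smul, mul_inv_cancel₀ hs', one_smul]
    · exact Eventually.of_forall fun s => by simp
  have h6 : (fun s => F (p s) - F (m s) - F' (p s - m s)) =o[𝓝[≠] (0 : ℝ)]
      (fun s : ℝ => (s : ℂ) ^ 4) := h3.trans_isBigO h4
  have h7 := h6.tendsto_div_nhds_zero
  have h8 : Tendsto (fun s : ℝ => F' ((((s : ℂ) ^ 4)⁻¹) • (p s - m s))) (𝓝[≠] 0)
      (𝓝 (F' L)) := (F'.continuous.tendsto L).comp hL
  have h9 := h7.add h8
  rw [zero_add] at h9
  refine h9.congr fun s => ?_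
  rw [map_smul, smul_eq_mul]
  ring

/-- The base point `i·1`. -/
noncomputable def base (g : ℕ) : Siegel g :=
  ⟨Complex.I • (1 : Matrix (Fin g) (Fin g) ℂ), by rw [transpose_smul, transpose_one], by
    have e : (Complex.I • (1 : Matrix (Fin g) (Fin g) ℂ)).map Complex.im = 1 := by
      ext i j
      by_cases h : i = j
      · subst h
        simp
      · simp [Matrix.one_apply_ne h]
    rw [e]
    exact Matrix.PosDef.one⟩

theorem curve_zero (a b c d : Fin g) (σ : ℝ) : curve a b c d σ 0 = base g := by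
  apply Subtype.ext
  simp [curve, base]

theorem continuous_curve (a b c d : Fin g) (σ : ℝ) : Continuous (curve a b c d σ) := by
  apply Continuous.subtype_mk
  apply Continuous.add continuous_const
  exact Continuous.smul Complex.continuous_ofReal continuous_const

theorem nearI_base {δ : ℝ} (hδ : 0 < δ) : nearI δ (base g) := by
  intro i j
  by_cases h : i = j
  · subst h
    simp [base, hδ]
  · simp [base, h, hδ]

/-- The function `τ ↦ τ_ab τ_bc τ_cd τ_da`. -/
def F0 (a b c d : Fin g) (A : Matrix (Fin g) (Fin g) ℂ) : ℂ := A a b * A b c * A c d * A d a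

open Classical in
/-- The function on `𝒜_g(2,4)` given near `i·1` by `F0`. -/
noncomputable def fn (δ : ℝ) (a b c d : Fin g) (x : A24 g) : ℂ :=
  if h : ∃ τ : Siegel g, proj τ = x ∧ nearI δ τ then F0 a b c d h.choose.1 else 0

theorem exists_of_proj_eq (τ τ' : Siegel g) (h : proj τ = proj τ') :
    ∃ γ : SpZ g, IsGamma24 γ ∧ γ • τ' = τ := by
  have h' : (MulAction.orbitRel (Gamma24 g) (Siegel g)) τ τ' := Quotient.exact h
  obtain ⟨γ, hγ⟩ := h'
  exact ⟨γ.1, γ.2, hγ⟩

theorem proj_smul (γ : SpZ g) (hγ : IsGamma24 γ) (τ : Siegel g) : proj (γ • τ) = proj τ := by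
  apply Quotient.sound
  exact ⟨⟨γ, hγ⟩, rfl⟩

theorem fn_proj (δ : ℝ) (hδ : 0 < δ) (hδg : (g : ℝ) * δ ≤ 1 / 10) (hδ1 : δ ≤ 1 / 10)
    (a b c d : Fin g) (τ : Siegel g) (hτ : nearI δ τ) :
    fn δ a b c d (proj τ) = F0 a b c d τ.1 := by
  have h : ∃ τ' : Siegel g, proj τ' = proj τ ∧ nearI δ τ' := ⟨τ, rfl, hτ⟩
  unfold fn
  rw [dif_pos h]
  obtain ⟨h1, h2⟩ := h.choose_spec
  obtain ⟨γ, hγ, hγτ⟩ := exists_of_proj_eq _ _ h1
  have h3 : nearI δ (γ • τ) := by rw [hγτ]; exact h2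
  obtain ⟨s, hs, hs2⟩ := local_unique δ hδ hδg hδ1 γ hγ τ hτ h3
  rw [← hγτ]
  unfold F0
  rw [hs2, hs2, hs2, hs2]
  have hss : ∀ i, (s i : ℂ) * (s i : ℂ) = 1 := by
    intro i
    rcases hs i with h | h <;> rw [h] <;> norm_num
  calc _ = ((s a : ℂ) * (s a : ℂ)) * ((s b : ℂ) * (s b : ℂ)) * ((s c : ℂ) * (s c : ℂ)) *
        ((s d : ℂ) * (s d : ℂ)) * (τ.1 a b * τ.1 b c * τ.1 c d * τ.1 d a) := by ring
    _ = _ := by rw [hss, hss, hss, hss]; ring

/-- The entries of `γτ` are analytic in the entries of `τ`. -/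
theorem analyticAt_act (γ : SpZ g) (τ : Siegel g) (i j : Fin g) :
    AnalyticAt ℂ (fun A : Fin g → Fin g → ℂ =>
      (num γ (Matrix.of A) * (den γ (Matrix.of A))⁻¹) i j) (fun i j => τ.1 i j) := by
  have hcoord : ∀ k j, AnalyticAt ℂ (fun A : Fin g → Fin g → ℂ => A k j)
      (fun i j => τ.1 i j) := by
    intro k j
    exact ((ContinuousLinearMap.proj (R := ℂ) (φ := fun _ : Fin g => ℂ) j).comp
      (ContinuousLinearMap.proj (R := ℂ) (φ := fun _ : Fin g => Fin g → ℂ) k)).analyticAt _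
  have hnum : ∀ i j, AnalyticAt ℂ (fun A : Fin g → Fin g → ℂ => num γ (Matrix.of A) i j)
      (fun i j => τ.1 i j) := by
    intro i j
    unfold num
    simp only [Matrix.add_apply, Matrix.mul_apply, Matrix.of_apply]
    refine AnalyticAt.add ?_ analyticAt_const
    apply Finset.analyticAt_fun_sum
    intro k _
    exact analyticAt_const.mul (hcoord k j)
  have hden : ∀ i j, AnalyticAt ℂ (fun A : Fin g → Fin g → ℂ => den γ (Matrix.of A) i j)
      (fun i j => τ.1 i j) := by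
    intro i j
    unfold den
    simp only [Matrix.add_apply, Matrix.mul_apply, Matrix.of_apply]
    refine AnalyticAt.add ?_ analyticAt_const
    apply Finset.analyticAt_fun_sum
    intro k _
    exact analyticAt_const.mul (hcoord k j)
  have hdetg : ∀ M : (Fin g → Fin g → ℂ) → Matrix (Fin g) (Fin g) ℂ,
      (∀ i j, AnalyticAt ℂ (fun A => M A i j) (fun i j => τ.1 i j)) →
      AnalyticAt ℂ (fun A => (M A).det) (fun i j => τ.1 i j) := by
    intro M hM
    simp only [Matrix.det_apply]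
    apply Finset.analyticAt_fun_sum
    intro σ _
    have : AnalyticAt ℂ (fun A : Fin g → Fin g → ℂ => ∏ i, M A (σ i) i) (fun i j => τ.1 i j) := by
      apply Finset.analyticAt_fun_prod
      intro i _
      exact hM _ _
    rcases Int.units_eq_one_or (Equiv.Perm.sign σ) with h | h
    · simpa [h] using this
    · have h2 := this.neg
      simp only [h, Units.neg_smul, one_smul]
      exact h2
  have hdet := hdetg (fun A => den γ (Matrix.of A)) hden
  have hdet0 : (den γ (Matrix.of (fun i j => τ.1 i j))).det ≠ 0 := by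
    have := (Matrix.isUnit_iff_isUnit_det _).mp (den_isUnit γ τ)
    exact this.ne_zero
  have hinv : ∀ i j, AnalyticAt ℂ (fun A : Fin g → Fin g → ℂ => (den γ (Matrix.of A))⁻¹ i j)
      (fun i j => τ.1 i j) := by
    intro i j
    simp only [Matrix.inv_def, Ring.inverse_eq_inv', Matrix.smul_apply, smul_eq_mul]
    apply AnalyticAt.mul
    · exact hdet.inv hdet0
    · simp only [Matrix.adjugate_apply]
      apply hdetg
      intro k l
      by_cases h : k = j
      · subst h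
        simp only [Matrix.updateRow_self]
        exact analyticAt_const
      · simp only [Matrix.updateRow_ne h]
        exact hden k l
  simp only [Matrix.mul_apply]
  apply Finset.analyticAt_fun_sum
  intro k _
  exact (hnum i k).mul (hinv k j)

theorem tendsto_smul_entry (γ : SpZ g) (τ : Siegel g) (i j : Fin g) :
    Tendsto (fun τ' : Siegel g => (γ • τ').1 i j) (𝓝 τ) (𝓝 ((γ • τ).1 i j)) := by
  have h := (analyticAt_act γ τ i j).continuousAt
  have h2 : Continuous (fun τ' : Siegel g => (fun i j => τ'.1 i j : Fin g → Fin g → ℂ)) :=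
    continuous_subtype_val
  exact h.tendsto.comp (h2.tendsto τ)

theorem eventually_near (δ : ℝ) (γ : SpZ g) (τ : Siegel g) (h : nearI δ (γ • τ)) :
    ∀ᶠ τ' in 𝓝 τ, nearI δ (γ • τ') := by
  unfold nearI
  rw [eventually_all]
  intro i
  rw [eventually_all]
  intro j
  have h1 := ((tendsto_smul_entry γ τ i j).sub_const (if i = j then Complex.I else 0)).norm
  exact h1.eventually (gt_mem_nhds (h i j))

theorem holA_fn (δ : ℝ) (hδ : 0 < δ) (hδg : (g : ℝ) * δ ≤ 1 / 10) (hδ1 : δ ≤ 1 / 10)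
    (a b c d : Fin g) : HolA (fn δ a b c d) (proj (base g)) := by
  intro τ hτ
  obtain ⟨γ, hγ, hγτ⟩ := exists_of_proj_eq _ _ hτ.symm
  refine ⟨fun A => F0 a b c d (num γ (Matrix.of A) * (den γ (Matrix.of A))⁻¹), ?_, ?_⟩
  · unfold F0
    exact (((analyticAt_act γ τ _ _).mul (analyticAt_act γ τ _ _)).mul
      (analyticAt_act γ τ _ _)).mul (analyticAt_act γ τ _ _)
  · have h1 : nearI δ (γ • τ) := by
      rw [hγτ]
      exact nearI_base hδ
    filter_upwards [eventually_near δ γ τ h1] with τ' h2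
    rw [← proj_smul γ hγ τ', fn_proj δ hδ hδg hδ1 a b c d _ h2]
    rfl

theorem thetaVec_tendsto (a b c d : Fin g) (σ : ℝ) :
    Tendsto (fun s : ℝ => thetaVec (curve a b c d σ s)) (𝓝[≠] 0) (𝓝 (thetaVec (base g))) := by
  rw [tendsto_pi_nhds]
  intro e
  have h := (continuous_th2_curve a b c d (fun i => ((e i : ℕ) : ℤ)) σ).tendsto 0
  have h2 := h.mono_left (nhdsWithin_le_nhds (s := {0}ᶜ))
  rw [curve_zero] at h2
  simp only [thetaVec, thetaConst_eq]
  exact h2

theorem thetaVec_diff (a b c d : Fin g) (hab : a ≠ b) (hac : a ≠ c) (had : a ≠ d)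
    (hbc : b ≠ c) (hbd : b ≠ d) (hcd : c ≠ d) :
    Tendsto (fun s : ℝ => (((s : ℂ) ^ 4)⁻¹) •
      (thetaVec (curve a b c d 1 s) - thetaVec (curve a b c d (-1) s))) (𝓝[≠] 0)
      (𝓝 (fun e => limVal (fun i => ((e i : ℕ) : ℤ)) a b c d)) := by
  rw [tendsto_pi_nhds]
  intro e
  have h := tendsto_th2_diff a b c d hab hac had hbc hbd hcd (fun i => ((e i : ℕ) : ℤ))
  refine h.congr fun s => ?_
  simp only [thetaVec, thetaConst_eq, Pi.smul_apply, Pi.sub_apply, smul_eq_mul]
  rw [div_eq_inv_mul]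

theorem F0_curve (a b c d : Fin g) (hab : a ≠ b) (hac : a ≠ c) (had : a ≠ d)
    (hbc : b ≠ c) (hbd : b ≠ d) (hcd : c ≠ d) (σ s : ℝ) :
    F0 a b c d (curve a b c d σ s).1 = (σ : ℂ) * (s : ℂ) ^ 4 := by
  simp [F0, curve, cyc, edge, hab, hac, had, hbc, hbd, hcd, hab.symm, hac.symm, had.symm,
    hbc.symm, hbd.symm, hcd.symm]
  ring

theorem F0_curve' (a b c d : Fin g) (hab : a ≠ b) (hac : a ≠ c) (had : a ≠ d)
    (hbc : b ≠ c) (hbd : b ≠ d) (hcd : c ≠ d) (σ s : ℝ) :
    F0 a b c d (curve a c b d σ s).1 = 0 := by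
  simp [F0, curve, cyc, edge, hab, hac, had, hbc, hbd, hcd, hab.symm, hac.symm, had.symm,
    hbc.symm, hbd.symm, hcd.symm]

/-- The germ of `fn` at the class of `i·1` is not pulled back from projective space. -/
theorem not_pullback (δ : ℝ) (hδ : 0 < δ) (hδg : (g : ℝ) * δ ≤ 1 / 10) (hδ1 : δ ≤ 1 / 10)
    (a b c d : Fin g) (hab : a ≠ b) (hac : a ≠ c) (had : a ≠ d)
    (hbc : b ≠ c) (hbd : b ≠ d) (hcd : c ≠ d) (G : PN g → ℂ)
    (hG : HolP G (thetaMap g (proj (base g))))
    (hfG : fn δ a b c d =ᶠ[𝓝 (proj (base g))] G ∘ thetaMap g) : False := by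
  obtain ⟨F, hF, hFG⟩ := hG (thetaVec (base g)) (thetaVec_ne_zero _) (thetaMap_proj _).symm
  have hstrict := hF.hasStrictFDerivAt
  -- values along the curves
  have hval : ∀ (a' b' c' d' : Fin g) (σ : ℝ), ∀ᶠ s : ℝ in 𝓝[≠] 0,
      F0 a b c d (curve a' b' c' d' σ s).1 = F (thetaVec (curve a' b' c' d' σ s)) := by
    intro a' b' c' d' σ
    have h1 : Tendsto (fun s : ℝ => proj (curve a' b' c' d' σ s)) (𝓝[≠] 0)
        (𝓝 (proj (base g))) := by
      have := ((continuous_proj.comp (continuous_curve a' b' c' d' σ)).tendsto 0).mono_left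
        (nhdsWithin_le_nhds (s := {0}ᶜ))
      simpa only [Function.comp_def, curve_zero] using this
    have h2 := h1.eventually hfG
    have h3 := (thetaVec_tendsto a' b' c' d' σ).eventually hFG
    have h4 : ∀ᶠ s : ℝ in 𝓝[≠] 0, nearI δ (curve a' b' c' d' σ s) := by
      have h5 := eventually_near δ (1 : SpZ g) (base g) (by rw [one_smul]; exact nearI_base hδ)
      simp only [one_smul] at h5
      have h6 : Tendsto (fun s : ℝ => curve a' b' c' d' σ s) (𝓝[≠] 0) (𝓝 (base g)) := by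
        have := ((continuous_curve a' b' c' d' σ).tendsto 0).mono_left
          (nhdsWithin_le_nhds (s := {0}ᶜ))
        simpa only [curve_zero] using this
      exact h6.eventually h5
    filter_upwards [h2, h3, h4] with s e1 e2 e3
    rw [fn_proj δ hδ hδg hδ1 a b c d _ e3] at e1
    rw [e1]
    exact e2 (thetaVec_ne_zero _)
  -- limits
  have L1 := strict_limit F _ _ hstrict _ _ (thetaVec_tendsto a b c d 1)
    (thetaVec_tendsto a b c d (-1)) _ (thetaVec_diff a b c d hab hac had hbc hbd hcd)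
  have L2 := strict_limit F _ _ hstrict _ _ (thetaVec_tendsto a c b d 1)
    (thetaVec_tendsto a c b d (-1)) _ (thetaVec_diff a c b d hac hab had hbc.symm hcd hbd)
  simp only [limVal_swap] at L2
  have M1 : Tendsto (fun s : ℝ => (F (thetaVec (curve a b c d 1 s)) -
      F (thetaVec (curve a b c d (-1) s))) / (s : ℂ) ^ 4) (𝓝[≠] 0) (𝓝 2) := by
    have : Tendsto (fun _ : ℝ => (2 : ℂ)) (𝓝[≠] 0) (𝓝 2) := tendsto_const_nhds
    refine this.congr' ?_
    filter_upwards [hval a b c d 1, hval a b c d (-1), self_mem_nhdsWithin] with s e1 e2 e3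
    rw [← e1, ← e2, F0_curve a b c d hab hac had hbc hbd hcd,
      F0_curve a b c d hab hac had hbc hbd hcd]
    have hs : (s : ℂ) ^ 4 ≠ 0 := by
      have : (s : ℂ) ≠ 0 := by
        intro h
        exact e3 (by exact_mod_cast h)
      exact pow_ne_zero _ this
    rw [eq_div_iff hs]
    push_cast
    ring
  have M2 : Tendsto (fun s : ℝ => (F (thetaVec (curve a c b d 1 s)) -
      F (thetaVec (curve a c b d (-1) s))) / (s : ℂ) ^ 4) (𝓝[≠] 0) (𝓝 0) := by
    have : Tendsto (fun _ : ℝ => (0 : ℂ)) (𝓝[≠] 0) (𝓝 0) := tendsto_const_nhds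
    refine this.congr' ?_
    filter_upwards [hval a c b d 1, hval a c b d (-1)] with s e1 e2
    rw [← e1, ← e2, F0_curve' a b c d hab hac had hbc hbd hcd,
      F0_curve' a b c d hab hac had hbc hbd hcd]
    simp
  have U1 := tendsto_nhds_unique L1 M1
  have U2 := tendsto_nhds_unique L2 M2
  rw [U1] at U2
  norm_num at U2

theorem exists_not_pullback (g : ℕ) (hg : 4 ≤ g) : ∃ (x : A24 g) (f : A24 g → ℂ), HolA f x ∧
    ¬ ∃ G : PN g → ℂ, HolP G (thetaMap g x) ∧ f =ᶠ[𝓝 x] G ∘ thetaMap g := by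
  have hgpos : (0 : ℝ) < g := by
    have : 0 < g := by omega
    exact_mod_cast this
  have hg1 : (1 : ℝ) ≤ g := by
    have : 1 ≤ g := by omega
    exact_mod_cast this
  have hδ : (0 : ℝ) < 1 / (10 * g) := by positivity
  have hδg : (g : ℝ) * (1 / (10 * g)) ≤ 1 / 10 := by
    have : (g : ℝ) * (1 / (10 * g)) = 1 / 10 := by field_simp
    rw [this]
  have hδ1 : (1 : ℝ) / (10 * g) ≤ 1 / 10 := by
    apply one_div_le_one_div_of_le (by norm_num)
    linarith
  refine ⟨proj (base g), fn (1 / (10 * g)) ⟨0, by omega⟩ ⟨1, by omega⟩ ⟨2, by omega⟩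
    ⟨3, by omega⟩, holA_fn _ hδ hδg hδ1 _ _ _ _, ?_⟩
  rintro ⟨G, hG, hfG⟩
  exact not_pullback (1 / (10 * g)) hδ hδg hδ1 ⟨0, by omega⟩ ⟨1, by omega⟩ ⟨2, by omega⟩
    ⟨3, by omega⟩ (by simp) (by simp) (by simp) (by simp) (by simp) (by simp) G hG hfG

end Pool.Agent.H937R2
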