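import Mathlib

set_option autoImplicit false

namespace Pool.Agent.H937R2

open MeasureTheory Set

/-- The box `∏ (a_i, a_i + 1]`. -/
def box {g : ℕ} (a : Fin g → ℝ) : Set (Fin g → ℝ) := {x | ∀ i, x i ∈ Ioc (a i) (a i + 1)}

theorem box_measurable {g : ℕ} (a : Fin g → ℝ) : MeasurableSet (box a) := by
  have : box a = Set.pi Set.univ (fun i => Ioc (a i) (a i + 1)) := by
    ext x
    simp [box]
  rw [this]
  exact MeasurableSet.univ_pi fun i => measurableSet_Ioc

theorem box_subset {g : ℕ} (a : Fin g → ℝ) : box a ⊆ Set.Icc a (fun i => a i + 1) := by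
  intro x hx
  exact ⟨fun i => (hx i).1.le, fun i => (hx i).2⟩

/-- Holomorphic dependence of an integral on a parameter. -/
theorem differentiable_integral_param {g : ℕ} (a : Fin g → ℝ) (F : ℂ → (Fin g → ℝ) → ℂ)
    (hF : Continuous (Function.uncurry F)) (hd : ∀ x, Differentiable ℂ (fun s => F s x)) :
    Differentiable ℂ (fun s => ∫ x in box a, F s x) := by
  intro s0
  have hcomp : IsCompact (Metric.closedBall s0 2 ×ˢ Set.Icc a (fun i => a i + 1)) :=
    (isCompact_closedBall s0 2).prod isCompact_Icc
  obtain ⟨C, hC⟩ := hcomp.exists_bound_of_continuousOn hF.continuousOn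
  have hFx : ∀ s, Continuous (F s) := fun s => hF.comp (Continuous.prodMk_right s)
  have hint : ∀ s, IntegrableOn (F s) (box a) := fun s =>
    ((hFx s).continuousOn.integrableOn_compact isCompact_Icc).mono_set (box_subset a)
  have hfin : volume (box a) < ⊤ :=
    lt_of_le_of_lt (measure_mono (box_subset a)) isCompact_Icc.measure_lt_top
  have hmeas : Measurable (fun x : Fin g → ℝ => deriv (fun s => F s x) s0) := by
    have hF' : Continuous (Function.uncurry (fun (x : Fin g → ℝ) (s : ℂ) => F s x)) :=
      hF.comp continuous_swap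
    have := measurable_deriv_with_param hF'
    exact this.comp (measurable_id.prodMk measurable_const)
  have key := hasDerivAt_integral_of_dominated_loc_of_deriv_le (μ := volume.restrict (box a))
    (F := F) (F' := fun s x => deriv (fun s => F s x) s) (x₀ := s0)
    (s := Metric.ball s0 1) (bound := fun _ => C) (Metric.ball_mem_nhds s0 one_pos)
    (Filter.Eventually.of_forall fun s => (hFx s).aestronglyMeasurable)
    (hint s0) hmeas.aestronglyMeasurable
    (by
      rw [ae_restrict_iff' (box_measurable a)]
      refine Filter.Eventually.of_forall fun x hx s hs => ?_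
      have h1 := Complex.norm_deriv_le_of_forall_mem_sphere_norm_le (c := s) (R := 1) (C := C)
        (f := fun s => F s x) one_pos (hd x).diffContOnCl (by
          intro z hz
          apply hC (z, x)
          refine ⟨?_, box_subset a hx⟩
          rw [Metric.mem_ball] at hs
          rw [mem_sphere_iff_norm] at hz
          rw [Metric.mem_closedBall]
          calc dist z s0 ≤ dist z s + dist s s0 := dist_triangle _ _ _
            _ ≤ 1 + 1 := add_le_add (by rw [dist_eq_norm, hz]) hs.le
            _ = 2 := by norm_num)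
      simpa using h1)
    (by
      have : IsFiniteMeasure (volume.restrict (box a)) := ⟨by
        rwa [Measure.restrict_apply_univ]⟩
      exact integrable_const C)
    (Filter.Eventually.of_forall fun x s _ => (hd x s).hasDerivAt)
  exact key.2.differentiableAt

/-- A function on `ℝ^g` that is `ℤ^g`-periodic has the same integral over all unit boxes. -/
theorem exists_torus {g : ℕ} (h : (Fin g → ℝ) → ℂ) (hc : Continuous h)
    (hp : ∀ (q : Fin g → ℤ) x, h (x + fun i => (q i : ℝ)) = h x) :
    ∃ F : C(UnitAddTorus (Fin g), ℂ), ∀ x : Fin g → ℝ, F (fun i => (x i : UnitAddCircle)) = h x := by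
  let F : UnitAddTorus (Fin g) → ℂ := fun t => h (fun i => (AddCircle.equivIoc 1 0 (t i) : ℝ))
  have hF : ∀ x : Fin g → ℝ, F (fun i => (x i : UnitAddCircle)) = h x := by
    intro x
    have h1 : ∀ i, ∃ k : ℤ, (AddCircle.equivIoc 1 0 (x i : UnitAddCircle) : ℝ) = x i + k := by
      intro i
      have h2 : (((AddCircle.equivIoc 1 0 (x i : UnitAddCircle) : ℝ)) : UnitAddCircle) =
          (x i : UnitAddCircle) := by
        exact (AddCircle.equivIoc 1 0).symm_apply_apply (x i : UnitAddCircle)
      rw [← sub_eq_zero, ← AddCircle.coe_sub, AddCircle.coe_eq_zero_iff] at h2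
      obtain ⟨k, hk⟩ := h2
      refine ⟨k, ?_⟩
      simp only [zsmul_eq_mul, mul_one] at hk
      linarith
    choose k hk using h1
    change h (fun i => (AddCircle.equivIoc 1 0 (x i : UnitAddCircle) : ℝ)) = h x
    have : (fun i => (AddCircle.equivIoc 1 0 (x i : UnitAddCircle) : ℝ)) =
        x + fun i => (k i : ℝ) := by
      ext i
      rw [hk i]
      rfl
    rw [this, hp]
  have hq : IsOpenQuotientMap (Pi.map (fun (_ : Fin g) (x : ℝ) => (x : UnitAddCircle))) := by
    apply IsOpenQuotientMap.piMap
    intro i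
    exact QuotientAddGroup.isOpenQuotientMap_mk
  have hcF : Continuous F := by
    rw [hq.isQuotientMap.continuous_iff]
    have : F ∘ (Pi.map (fun (_ : Fin g) (x : ℝ) => (x : UnitAddCircle))) = h := by
      ext x
      exact hF x
    rw [this]
    exact hc
  exact ⟨⟨F, hcF⟩, hF⟩

theorem integral_box_eq {g : ℕ} (h : (Fin g → ℝ) → ℂ) (hc : Continuous h)
    (hp : ∀ (q : Fin g → ℤ) x, h (x + fun i => (q i : ℝ)) = h x) (a : Fin g → ℝ) :
    ∫ x in box a, h x = ∫ x in box 0, h x := by
  obtain ⟨F, hF⟩ := exists_torus h hc hp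
  have h1 := (UnitAddTorus.integral_preimage (fun t => F t) a).symm.trans
    (UnitAddTorus.integral_preimage (fun t => F t) 0)
  simp only [hF] at h1
  exact h1

theorem integral_box_add {g : ℕ} (h : (Fin g → ℝ) → ℂ) (hc : Continuous h)
    (hp : ∀ (q : Fin g → ℤ) x, h (x + fun i => (q i : ℝ)) = h x) (a : Fin g → ℝ) :
    ∫ x in box 0, h (x + a) = ∫ x in box 0, h x := by
  rw [← integral_box_eq h hc hp a]
  have h1 := (measurePreserving_add_right (volume : Measure (Fin g → ℝ)) a)
  have h2 := h1.setIntegral_preimage_emb (measurableEmbedding_addRight a) h (box a)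
  rw [← h2]
  congr 1
  congr 1
  ext x
  simp only [box, Pi.zero_apply, zero_add, mem_Ioc, mem_ofPred_eq, preimage_ofPred_eq,
    Pi.add_apply, lt_add_iff_pos_left]
  refine forall_congr' fun i => ?_
  constructor
  · rintro ⟨h3, h4⟩
    exact ⟨h3, by linarith⟩
  · rintro ⟨h3, h4⟩
    exact ⟨h3, by linarith⟩

end Pool.Agent.H937R2
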