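import Pool.Agent.H937R2.Theta
import Pool.Agent.H937R2.Param

set_option autoImplicit false

namespace Pool.Agent.H937R2

open Matrix MeasureTheory

variable {g : ℕ}

theorem summable_term_all (τ : Siegel g) (z : Fin g → ℂ) :
    Summable (fun m => term τ.1 z m) := by
  obtain ⟨c, hc, hcq⟩ := posDef_lower _ τ.2.2
  obtain ⟨B, hB⟩ : ∃ B : ℝ, ∀ i, |(z i).im| ≤ B := by
    refine ⟨∑ i, |(z i).im|, fun i => ?_⟩
    exact Finset.single_le_sum (f := fun i => |(z i).im|) (fun _ _ => abs_nonneg _)
      (Finset.mem_univ i)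
  have h := summable_gauss (g := g) (Real.pi / 2 * c) (2 * Real.pi * B)
    (mul_pos (by positivity) hc)
  exact h.of_norm_bounded (fun n => norm_term_le τ.1 c B hcq z hB _)

/-- `2τ`. -/
noncomputable def two (τ : Siegel g) : Siegel g :=
  ⟨(2 : ℂ) • τ.1, by rw [transpose_smul, τ.2.1], by
    have h := τ.2.2.smul (show (0 : ℝ) < 2 by norm_num)
    have e : ((2 : ℂ) • τ.1).map Complex.im = (2 : ℝ) • τ.1.map Complex.im := by
      ext i j
      simp
    rw [e]
    exact h⟩

theorem qf_two (τ : Siegel g) (m : Fin g → ℤ) : qf (two τ).1 m = 2 * qf τ.1 m := by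
  unfold qf two
  rw [Finset.mul_sum]
  refine Finset.sum_congr rfl fun i _ => ?_
  rw [Finset.mul_sum]
  refine Finset.sum_congr rfl fun j _ => ?_
  simp only [Matrix.smul_apply, smul_eq_mul]
  ring

theorem qf_par (τ : Siegel g) (b m : Fin g → ℤ) :
    qf τ.1 (m + b) + qf τ.1 m = (qf τ.1 (dbl b m) + qf τ.1 b) / 2 := by
  unfold qf
  rw [← Finset.sum_add_distrib, ← Finset.sum_add_distrib, Finset.sum_div]
  rw [← sub_eq_zero, ← Finset.sum_sub_distrib]
  have e : ∀ i, (∑ j, ((m + b) i : ℂ) * τ.1 i j * ((m + b) j : ℂ)) +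
      (∑ j, (m i : ℂ) * τ.1 i j * (m j : ℂ)) -
      ((∑ j, (dbl b m i : ℂ) * τ.1 i j * (dbl b m j : ℂ)) +
        (∑ j, (b i : ℂ) * τ.1 i j * (b j : ℂ))) / 2 = ∑ _j : Fin g, (0 : ℂ) := by
    intro i
    rw [← Finset.sum_add_distrib, ← Finset.sum_add_distrib, Finset.sum_div,
      ← Finset.sum_sub_distrib]
    refine Finset.sum_congr rfl fun j _ => ?_
    simp only [Pi.add_apply, dbl]
    push_cast
    ring
  simp only [e]
  simp

/-- The addition formula (special case). -/
theorem addition (τ : Siegel g) (w : Fin g → ℂ) :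
    (∑' n, term (two τ).1 w n) * (∑' n, term (two τ).1 (-w) n) =
      ∑' b, th2 b τ.1 0 * term τ.1 w b := by
  have s1 := summable_term_all (two τ) w
  have s2 := summable_term_all (two τ) (-w)
  rw [tsum_mul_tsum_of_summable_norm s1.norm s2.norm]
  let e : (Fin g → ℤ) × (Fin g → ℤ) ≃ (Fin g → ℤ) × (Fin g → ℤ) :=
    { toFun := fun p => (p.2 + p.1, p.2)
      invFun := fun p => (p.1 - p.2, p.2)
      left_inv := fun p => by simp
      right_inv := fun p => by simp }
  rw [← e.tsum_eq (fun z : (Fin g → ℤ) × (Fin g → ℤ) =>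
    term (two τ).1 w z.1 * term (two τ).1 (-w) z.2)]
  have hs : Summable (fun c : (Fin g → ℤ) × (Fin g → ℤ) =>
      term (two τ).1 w (e c).1 * term (two τ).1 (-w) (e c).2) := by
    have h := summable_mul_of_summable_norm s1.norm s2.norm
    exact e.summable_iff.mpr h
  rw [hs.tsum_prod]
  refine tsum_congr fun b => ?_
  unfold th2
  rw [← tsum_mul_right]
  refine tsum_congr fun m => ?_
  change term (two τ).1 w (m + b) * term (two τ).1 (-w) m = _
  unfold term
  rw [← Complex.exp_add, ← Complex.exp_add]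
  congr 1
  have h1 : lin (m + b) w = lin m w + lin b w := lin_add_left m b w
  have h2 : lin m (-w) = - lin m w := by
    have := lin_smul m (-1) w
    simpa using this
  have h3 : lin (dbl b m) 0 = 0 := by simp [lin]
  have h4 := qf_par τ b m
  rw [h1, h2, h3, qf_two, qf_two]
  have h5 : qf τ.1 (m + b) = (qf τ.1 (dbl b m) + qf τ.1 b) / 2 - qf τ.1 m := by
    rw [← h4]
    ring
  rw [h5]
  ring

theorem th1_neg (τ : Siegel g) (w : Fin g → ℂ) :
    (∑' n, term (two τ).1 (-w) n) = ∑' n, term (two τ).1 w n := by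
  rw [← (Equiv.neg (Fin g → ℤ)).tsum_eq (fun n => term (two τ).1 (-w) n)]
  refine tsum_congr fun n => ?_
  unfold term
  congr 2
  have h1 : qf (two τ).1 ((Equiv.neg (Fin g → ℤ)) n) = qf (two τ).1 n := by
    unfold qf
    refine Finset.sum_congr rfl fun i _ => Finset.sum_congr rfl fun j _ => ?_
    simp only [Equiv.neg_apply, Pi.neg_apply]
    push_cast
    ring
  have h2 : lin ((Equiv.neg (Fin g → ℤ)) n) (-w) = lin n w := by
    unfold lin
    refine Finset.sum_congr rfl fun i _ => ?_
    simp only [Equiv.neg_apply, Pi.neg_apply]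
    push_cast
    ring
  rw [h1, h2]

/-- The character `x ↦ exp(2πi n·x)`. -/
noncomputable def chr (n : Fin g → ℤ) (x : Fin g → ℝ) : ℂ :=
  Complex.exp (2 * Real.pi * Complex.I * ∑ i, (n i : ℂ) * (x i : ℂ))

theorem chr_add (n : Fin g → ℤ) (x y : Fin g → ℝ) : chr n (x + y) = chr n x * chr n y := by
  unfold chr
  rw [← Complex.exp_add]
  congr 1
  rw [← mul_add, ← Finset.sum_add_distrib]
  congr 1
  refine Finset.sum_congr rfl fun i _ => ?_
  simp only [Pi.add_apply]
  push_cast
  ring

theorem chr_int (n q : Fin g → ℤ) : chr n (fun i => (q i : ℝ)) = 1 := by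
  unfold chr
  have e : (∑ i, (n i : ℂ) * (((q i : ℝ)) : ℂ)) = ((∑ i, n i * q i : ℤ) : ℂ) := by
    push_cast
    rfl
  rw [e, exp_two_pi_int]

theorem continuous_chr (n : Fin g → ℤ) : Continuous (chr n) := by
  unfold chr
  fun_prop

theorem integral_chr (n : Fin g → ℤ) (hn : n ≠ 0) :
    ∫ x in box (0 : Fin g → ℝ), chr n x = 0 := by
  obtain ⟨i0, hi0⟩ := Function.ne_iff.mp hn
  have h1 := integral_box_add (chr n) (continuous_chr n) (by
    intro q x
    rw [chr_add, chr_int, mul_one]) (Pi.single i0 (1 / (2 * (n i0 : ℝ))))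
  have h2 : chr n (Pi.single i0 (1 / (2 * (n i0 : ℝ)))) = -1 := by
    unfold chr
    have e : (∑ i, (n i : ℂ) * (((Pi.single i0 (1 / (2 * (n i0 : ℝ))) : Fin g → ℝ) i : ℝ) : ℂ)) =
        1 / 2 := by
      rw [Finset.sum_eq_single i0]
      · rw [Pi.single_eq_same]
        have : (n i0 : ℂ) ≠ 0 := by exact_mod_cast hi0
        push_cast
        field_simp
      · intro j _ hj
        rw [Pi.single_eq_of_ne hj]
        simp
      · intro h
        exact absurd (Finset.mem_univ _) h
    rw [e]
    have : 2 * (Real.pi : ℂ) * Complex.I * (1 / 2) = Real.pi * Complex.I := by ring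
    rw [this, Complex.exp_pi_mul_I]
  simp only [chr_add, h2] at h1
  rw [integral_mul_const] at h1
  have h3 : (2 : ℂ) * ∫ x in box (0 : Fin g → ℝ), chr n x = 0 := by
    have : (∫ x in box (0 : Fin g → ℝ), chr n x) * (-1) + 
      (∫ x in box (0 : Fin g → ℝ), chr n x) * 1 = 0 := by ring
    rw [h1] at this
    rw [two_mul]
    simpa using this
  simpa using h3

theorem volume_box : volume (box (0 : Fin g → ℝ)) = 1 := by
  have : box (0 : Fin g → ℝ) = Set.pi Set.univ (fun i => Set.Ioc (0 : ℝ) 1) := by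
    ext x
    simp [box]
  rw [this, Real.volume_pi_Ioc]
  simp

/-- **The second order theta constants have no common zero.** -/
theorem exists_ne_zero (τ : Siegel g) : ∃ b : Fin g → ℤ, th2 b τ.1 0 ≠ 0 := by
  by_contra hcon
  push Not at hcon
  have h0 : ∀ w : Fin g → ℂ, (∑' n, term (two τ).1 w n) = 0 := by
    intro w
    have h := addition τ w
    rw [th1_neg] at h
    simp only [hcon, zero_mul, tsum_zero] at h
    exact mul_self_eq_zero.mp h
  -- integrate over the box
  have hterm : ∀ (n : Fin g → ℤ) (x : Fin g → ℝ),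
      term (two τ).1 (fun i => (x i : ℂ)) n = term (two τ).1 0 n * chr n x := by
    intro n x
    unfold term chr
    rw [← Complex.exp_add]
    congr 1
    have : lin n 0 = 0 := by simp [lin]
    rw [this]
    unfold lin
    ring
  have hnorm : ∀ (n : Fin g → ℤ) (x : Fin g → ℝ), ‖chr n x‖ = 1 := by
    intro n x
    unfold chr
    have : 2 * (Real.pi : ℂ) * Complex.I * ∑ i, (n i : ℂ) * (x i : ℂ) =
        ((2 * Real.pi * ∑ i, (n i : ℝ) * (x i : ℝ) : ℝ) : ℂ) * Complex.I := by
      push_cast
      ring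
    rw [this, Complex.norm_exp_ofReal_mul_I]
  have hs := summable_term_all (two τ) 0
  have hfin : IsFiniteMeasure (volume.restrict (box (0 : Fin g → ℝ))) := ⟨by
    rw [Measure.restrict_apply_univ, volume_box]
    exact ENNReal.one_lt_top⟩
  have key := integral_tsum_of_summable_integral_norm
    (μ := volume.restrict (box (0 : Fin g → ℝ)))
    (F := fun (n : Fin g → ℤ) (x : Fin g → ℝ) => term (two τ).1 0 n * chr n x)
    (by
      intro n
      apply Integrable.const_mul
      have : Integrable (fun _ : Fin g → ℝ => (1 : ℂ)) (volume.restrict (box (0 : Fin g → ℝ))) :=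
        integrable_const _
      refine this.mono (continuous_chr n).aestronglyMeasurable ?_
      refine Filter.Eventually.of_forall fun x => ?_
      rw [hnorm]
      simp)
    (by
      simp only [norm_mul, hnorm, mul_one]
      simp only [integral_const]
      exact hs.norm.mul_left _)
  have h1 : ∀ x : Fin g → ℝ, (∑' n : Fin g → ℤ, term (two τ).1 0 n * chr n x) = 0 := by
    intro x
    rw [← h0 (fun i => (x i : ℂ))]
    exact tsum_congr fun n => (hterm n x).symm
  simp only [h1, integral_zero] at key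
  rw [tsum_eq_single (0 : Fin g → ℤ)] at key
  · rw [integral_const_mul] at key
    have h2 : ∫ x in box (0 : Fin g → ℝ), chr (0 : Fin g → ℤ) x = 1 := by
      have : ∀ x : Fin g → ℝ, chr (0 : Fin g → ℤ) x = 1 := by
        intro x
        simp [chr]
      simp only [this]
      rw [integral_const]
      simp [Measure.real, volume_box]
    rw [h2, mul_one] at key
    exact Complex.exp_ne_zero _ key
  · intro n hn
    rw [integral_const_mul, integral_chr n hn, mul_zero]

end Pool.Agent.H937R2
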