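import Mathlib

set_option autoImplicit false

namespace Pool.Agent.H937R2

open Matrix
open scoped ComplexOrder

/-- The Siegel upper half-space: symmetric complex `g × g` matrices whose imaginary part is
positive definite. -/
def Siegel (g : ℕ) : Type :=
  {τ : Matrix (Fin g) (Fin g) ℂ // τᵀ = τ ∧ (τ.map Complex.im).PosDef}

noncomputable instance (g : ℕ) : TopologicalSpace (Siegel g) := instTopologicalSpaceSubtype

/-- The group `Sp(2g, ℤ)` (for the form `J`). -/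
abbrev SpZ (g : ℕ) := Matrix.symplecticGroup (Fin g) ℤ

variable {g : ℕ}

/-- The four blocks of `γ = (a b; c d)`. -/
def blkA (γ : SpZ g) : Matrix (Fin g) (Fin g) ℤ := γ.1.toBlocks₁₁
@[inherit_doc blkA] def blkB (γ : SpZ g) : Matrix (Fin g) (Fin g) ℤ := γ.1.toBlocks₁₂
@[inherit_doc blkA] def blkC (γ : SpZ g) : Matrix (Fin g) (Fin g) ℤ := γ.1.toBlocks₂₁
@[inherit_doc blkA] def blkD (γ : SpZ g) : Matrix (Fin g) (Fin g) ℤ := γ.1.toBlocks₂₂

/-- An integral matrix as a complex matrix. -/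
def toC (m : Matrix (Fin g) (Fin g) ℤ) : Matrix (Fin g) (Fin g) ℂ := m.map (Int.cast : ℤ → ℂ)

theorem toC_mul (m n : Matrix (Fin g) (Fin g) ℤ) : toC (m * n) = toC m * toC n := by
  unfold toC
  exact Matrix.map_mul (f := Int.castRingHom ℂ)

theorem toC_add (m n : Matrix (Fin g) (Fin g) ℤ) : toC (m + n) = toC m + toC n := by
  unfold toC
  exact Matrix.map_add (Int.castRingHom ℂ) (by simp) m n

theorem toC_sub (m n : Matrix (Fin g) (Fin g) ℤ) : toC (m - n) = toC m - toC n := by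
  unfold toC
  exact Matrix.map_sub (Int.castRingHom ℂ) (by simp) m n

theorem toC_transpose (m : Matrix (Fin g) (Fin g) ℤ) : toC mᵀ = (toC m)ᵀ := rfl

theorem toC_one : toC (1 : Matrix (Fin g) (Fin g) ℤ) = 1 := by
  unfold toC
  exact Matrix.map_one (Int.castRingHom ℂ) (by simp) (by simp)

theorem toC_zero : toC (0 : Matrix (Fin g) (Fin g) ℤ) = 0 := by
  unfold toC
  ext i j
  simp

theorem toC_conjTranspose (m : Matrix (Fin g) (Fin g) ℤ) : (toC m)ᴴ = (toC m)ᵀ := by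
  ext i j
  simp [toC, Matrix.conjTranspose_apply]

theorem fromBlocks_blk (γ : SpZ g) : γ.1 = fromBlocks (blkA γ) (blkB γ) (blkC γ) (blkD γ) :=
  (fromBlocks_toBlocks γ.1).symm

theorem rel (γ : SpZ g) :
    (blkA γ)ᵀ * blkC γ = (blkC γ)ᵀ * blkA γ ∧ (blkB γ)ᵀ * blkD γ = (blkD γ)ᵀ * blkB γ ∧
      (blkA γ)ᵀ * blkD γ - (blkC γ)ᵀ * blkB γ = 1 ∧
      (blkD γ)ᵀ * blkA γ - (blkB γ)ᵀ * blkC γ = 1 := by
  have h := SymplecticGroup.mem_iff'.mp γ.2
  rw [fromBlocks_blk, J, fromBlocks_transpose, fromBlocks_multiply, fromBlocks_multiply,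
    fromBlocks_inj] at h
  simp only [Matrix.mul_zero, Matrix.mul_one, Matrix.mul_neg, zero_add, add_zero,
    Matrix.neg_mul] at h
  obtain ⟨h1, h2, h3, h4⟩ := h
  refine ⟨?_, ?_, ?_, ?_⟩
  · have := sub_eq_zero.mp (show (blkC γ)ᵀ * blkA γ - (blkA γ)ᵀ * blkC γ = 0 by
      rw [sub_eq_add_neg]; exact h1)
    exact this.symm
  · have := sub_eq_zero.mp (show (blkD γ)ᵀ * blkB γ - (blkB γ)ᵀ * blkD γ = 0 by
      rw [sub_eq_add_neg]; exact h4)
    exact this.symm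
  · have := congrArg (fun m => - m) h2
    simp only [neg_add_rev, neg_neg] at this
    rw [sub_eq_add_neg]
    exact this
  · rw [sub_eq_add_neg]
    exact h3

/-- `aτ + b`. -/
def num (γ : SpZ g) (τ : Matrix (Fin g) (Fin g) ℂ) : Matrix (Fin g) (Fin g) ℂ :=
  toC (blkA γ) * τ + toC (blkB γ)

/-- `cτ + d`. -/
def den (γ : SpZ g) (τ : Matrix (Fin g) (Fin g) ℂ) : Matrix (Fin g) (Fin g) ℂ :=
  toC (blkC γ) * τ + toC (blkD γ)

theorem relC (γ : SpZ g) :
    (toC (blkA γ))ᵀ * toC (blkC γ) = (toC (blkC γ))ᵀ * toC (blkA γ) ∧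
    (toC (blkB γ))ᵀ * toC (blkD γ) = (toC (blkD γ))ᵀ * toC (blkB γ) ∧
      (toC (blkA γ))ᵀ * toC (blkD γ) - (toC (blkC γ))ᵀ * toC (blkB γ) = 1 ∧
      (toC (blkD γ))ᵀ * toC (blkA γ) - (toC (blkB γ))ᵀ * toC (blkC γ) = 1 := by
  obtain ⟨h1, h2, h3, h4⟩ := rel γ
  simp only [← toC_transpose, ← toC_mul, ← toC_sub]
  refine ⟨by rw [h1], by rw [h2], by rw [h3, toC_one], by rw [h4, toC_one]⟩

/-- `Qᵀ P = Pᵀ Q`. -/
theorem den_num_symm (γ : SpZ g) (τ : Matrix (Fin g) (Fin g) ℂ) (hτ : τᵀ = τ) :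
    (den γ τ)ᵀ * num γ τ = (num γ τ)ᵀ * den γ τ := by
  obtain ⟨h1, h2, h3, h4⟩ := relC γ
  unfold num den
  simp only [transpose_add, transpose_mul, hτ]
  have e1 : (τ * (toC (blkC γ))ᵀ + (toC (blkD γ))ᵀ) * (toC (blkA γ) * τ + toC (blkB γ)) =
      τ * ((toC (blkC γ))ᵀ * toC (blkA γ)) * τ + τ * ((toC (blkC γ))ᵀ * toC (blkB γ)) +
      ((toC (blkD γ))ᵀ * toC (blkA γ)) * τ + (toC (blkD γ))ᵀ * toC (blkB γ) := by
    noncomm_ring
  have e2 : (τ * (toC (blkA γ))ᵀ + (toC (blkB γ))ᵀ) * (toC (blkC γ) * τ + toC (blkD γ)) =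
      τ * ((toC (blkA γ))ᵀ * toC (blkC γ)) * τ + τ * ((toC (blkA γ))ᵀ * toC (blkD γ)) +
      ((toC (blkB γ))ᵀ * toC (blkC γ)) * τ + (toC (blkB γ))ᵀ * toC (blkD γ) := by
    noncomm_ring
  rw [e1, e2, h1, h2, sub_eq_iff_eq_add.mp h3, sub_eq_iff_eq_add.mp h4]
  noncomm_ring

/-- `Qᴴ P - Pᴴ Q = τ - τᴴ`. -/
theorem den_num_herm (γ : SpZ g) (τ : Matrix (Fin g) (Fin g) ℂ) :
    (den γ τ)ᴴ * num γ τ - (num γ τ)ᴴ * den γ τ = τ - τᴴ := by
  obtain ⟨h1, h2, h3, h4⟩ := relC γ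
  unfold num den
  simp only [conjTranspose_add, conjTranspose_mul, toC_conjTranspose]
  have e1 : (τᴴ * (toC (blkC γ))ᵀ + (toC (blkD γ))ᵀ) * (toC (blkA γ) * τ + toC (blkB γ)) =
      τᴴ * ((toC (blkC γ))ᵀ * toC (blkA γ)) * τ + τᴴ * ((toC (blkC γ))ᵀ * toC (blkB γ)) +
      ((toC (blkD γ))ᵀ * toC (blkA γ)) * τ + (toC (blkD γ))ᵀ * toC (blkB γ) := by
    noncomm_ring
  have e2 : (τᴴ * (toC (blkA γ))ᵀ + (toC (blkB γ))ᵀ) * (toC (blkC γ) * τ + toC (blkD γ)) =
      τᴴ * ((toC (blkA γ))ᵀ * toC (blkC γ)) * τ + τᴴ * ((toC (blkA γ))ᵀ * toC (blkD γ)) +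
      ((toC (blkB γ))ᵀ * toC (blkC γ)) * τ + (toC (blkB γ))ᵀ * toC (blkD γ) := by
    noncomm_ring
  rw [e1, e2, h1, h2, sub_eq_iff_eq_add.mp h3, sub_eq_iff_eq_add.mp h4]
  noncomm_ring

/-- The imaginary part as a complex matrix. -/
def imC (τ : Matrix (Fin g) (Fin g) ℂ) : Matrix (Fin g) (Fin g) ℂ :=
  (τ.map Complex.im).map (Complex.ofReal : ℝ → ℂ)

theorem two_I_imC (τ : Matrix (Fin g) (Fin g) ℂ) (hτ : τᵀ = τ) :
    τ - τᴴ = (2 * Complex.I) • imC τ := by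
  ext i j
  have : τ j i = τ i j := congrFun (congrFun hτ i) j
  simp only [Matrix.sub_apply, Matrix.conjTranspose_apply, this, imC, Matrix.smul_apply,
    Matrix.map_apply, smul_eq_mul]
  apply Complex.ext <;> simp
  ring

/-- Real positive definite implies complex positive definite. -/
theorem posDef_toComplex (Y : Matrix (Fin g) (Fin g) ℝ) :
    (Y.map (Complex.ofReal : ℝ → ℂ)).PosDef ↔ Y.PosDef := by
  constructor
  · intro h
    rw [posDef_iff_dotProduct_mulVec] at h ⊢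
    refine ⟨?_, ?_⟩
    · ext i j
      have := congrFun (congrFun h.1 i) j
      simp only [conjTranspose_apply, map_apply, Complex.star_def, Complex.conj_ofReal] at this
      simpa using Complex.ofReal_injective this
    · intro x hx
      have hx' : (fun i => (x i : ℂ)) ≠ 0 := by
        intro hh
        apply hx
        ext i
        have := congrFun hh i
        simpa using this
      have := h.2 hx'
      have e : star (fun i => (x i : ℂ)) ⬝ᵥ (Y.map (Complex.ofReal : ℝ → ℂ) *ᵥ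
          (fun i => (x i : ℂ))) = ((star x ⬝ᵥ (Y *ᵥ x) : ℝ) : ℂ) := by
        simp [dotProduct, mulVec]
      rw [e] at this
      exact_mod_cast this
  · intro h
    rw [posDef_iff_dotProduct_mulVec] at h ⊢
    obtain ⟨h1, h2⟩ := h
    have hs : ∀ i j, Y j i = Y i j := by
      intro i j
      have := congrFun (congrFun h1 i) j
      simpa using this
    refine ⟨?_, ?_⟩
    · ext i j
      simp [conjTranspose_apply, hs]
    · intro w hw
      set x : Fin g → ℝ := fun i => (w i).re with hx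
      set y : Fin g → ℝ := fun i => (w i).im with hy
      have e : star w ⬝ᵥ (Y.map (Complex.ofReal : ℝ → ℂ) *ᵥ w) =
          ((star x ⬝ᵥ (Y *ᵥ x) + star y ⬝ᵥ (Y *ᵥ y) : ℝ) : ℂ) := by
        have hsum : ∀ (f : Fin g → Fin g → ℝ), (∀ i j, f i j = - f j i) →
            ∑ i, ∑ j, f i j = 0 := by
          intro f hf
          have h1 : ∑ i, ∑ j, f i j = ∑ i, ∑ j, f j i := Finset.sum_comm
          have h2 : ∑ i, ∑ j, f i j = - ∑ i, ∑ j, f j i := by
            simp only [← Finset.sum_neg_distrib]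
            exact Finset.sum_congr rfl fun i _ => Finset.sum_congr rfl fun j _ => hf i j
          linarith
        apply Complex.ext
        · simp only [dotProduct, mulVec, Complex.ofReal_re, Pi.star_apply, Complex.re_sum,
            Complex.star_def, Finset.mul_sum, map_apply, star_trivial]
          simp only [← Finset.sum_add_distrib]
          refine Finset.sum_congr rfl fun i _ => Finset.sum_congr rfl fun j _ => ?_
          simp [hx, hy, Complex.mul_re]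
        · simp only [dotProduct, mulVec, Complex.ofReal_im, Pi.star_apply, Complex.im_sum,
            Complex.star_def, Finset.mul_sum, map_apply]
          apply hsum
          intro i j
          simp [Complex.mul_im, hs i j]
          ring
      rw [e]
      have hxy : x ≠ 0 ∨ y ≠ 0 := by
        by_contra hcon
        push Not at hcon
        apply hw
        ext i
        apply Complex.ext
        · exact congrFun hcon.1 i
        · exact congrFun hcon.2 i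
      have hnn : ∀ z : Fin g → ℝ, 0 ≤ star z ⬝ᵥ (Y *ᵥ z) := by
        intro z
        by_cases hz : z = 0
        · simp [hz]
        · exact (h2 hz).le
      have : 0 < star x ⬝ᵥ (Y *ᵥ x) + star y ⬝ᵥ (Y *ᵥ y) := by
        rcases hxy with hxy | hxy
        · have := h2 hxy
          have := hnn y
          linarith
        · have := h2 hxy
          have := hnn x
          linarith
      exact_mod_cast this

theorem imC_posDef (τ : Siegel g) : (imC τ.1).PosDef := (posDef_toComplex _).mpr τ.2.2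

theorem den_isUnit (γ : SpZ g) (τ : Siegel g) : IsUnit (den γ τ.1) := by
  rw [Matrix.isUnit_iff_isUnit_det, isUnit_iff_ne_zero]
  intro hdet
  obtain ⟨v, hv, hv0⟩ := Matrix.exists_mulVec_eq_zero_iff.mpr hdet
  have h := den_num_herm γ τ.1
  rw [two_I_imC _ τ.2.1] at h
  have h2 := congrArg (fun m => star v ⬝ᵥ (m *ᵥ v)) h
  simp only [sub_mulVec, ← mulVec_mulVec, hv0, mulVec_zero, sub_zero, smul_mulVec,
    dotProduct_smul] at h2
  have h3 : star v ⬝ᵥ ((den γ τ.1)ᴴ *ᵥ (num γ τ.1 *ᵥ v)) = 0 := by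
    rw [dotProduct_mulVec, ← star_mulVec, hv0]
    simp
  rw [h3] at h2
  have h4 := (imC_posDef τ).dotProduct_mulVec_pos hv
  rw [eq_comm, smul_eq_zero] at h2
  rcases h2 with h2 | h2
  · simp at h2
  · rw [h2] at h4
    exact lt_irrefl _ h4

theorem den_mul_inv (γ : SpZ g) (τ : Siegel g) : den γ τ.1 * (den γ τ.1)⁻¹ = 1 :=
  Matrix.mul_nonsing_inv _ ((Matrix.isUnit_iff_isUnit_det _).mp (den_isUnit γ τ))

theorem den_inv_mul (γ : SpZ g) (τ : Siegel g) : (den γ τ.1)⁻¹ * den γ τ.1 = 1 :=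
  Matrix.nonsing_inv_mul _ ((Matrix.isUnit_iff_isUnit_det _).mp (den_isUnit γ τ))

theorem act_symm (γ : SpZ g) (τ : Siegel g) :
    (num γ τ.1 * (den γ τ.1)⁻¹)ᵀ = num γ τ.1 * (den γ τ.1)⁻¹ := by
  have h := den_num_symm γ τ.1 τ.2.1
  have hQ := den_mul_inv γ τ
  have hQ' := den_inv_mul γ τ
  have hQt : ((den γ τ.1)⁻¹)ᵀ * (den γ τ.1)ᵀ = 1 := by
    rw [← transpose_mul, hQ, transpose_one]
  calc (num γ τ.1 * (den γ τ.1)⁻¹)ᵀ = ((den γ τ.1)⁻¹)ᵀ * (num γ τ.1)ᵀ := transpose_mul _ _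
    _ = ((den γ τ.1)⁻¹)ᵀ * ((num γ τ.1)ᵀ * den γ τ.1) * (den γ τ.1)⁻¹ := by
        rw [Matrix.mul_assoc ((den γ τ.1)⁻¹)ᵀ, Matrix.mul_assoc (num γ τ.1)ᵀ, hQ, Matrix.mul_one]
    _ = ((den γ τ.1)⁻¹)ᵀ * ((den γ τ.1)ᵀ * num γ τ.1) * (den γ τ.1)⁻¹ := by rw [h]
    _ = num γ τ.1 * (den γ τ.1)⁻¹ := by
        rw [← Matrix.mul_assoc ((den γ τ.1)⁻¹)ᵀ, hQt, Matrix.one_mul]

/-- `Im (γτ) = Q^{-H} Y Q^{-1}`. -/
theorem act_im (γ : SpZ g) (τ : Siegel g) :
    imC (num γ τ.1 * (den γ τ.1)⁻¹) = ((den γ τ.1)⁻¹)ᴴ * imC τ.1 * (den γ τ.1)⁻¹ := by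
  have h := den_num_herm γ τ.1
  rw [two_I_imC _ τ.2.1] at h
  have hQ := den_mul_inv γ τ
  have hQt : ((den γ τ.1)⁻¹)ᴴ * (den γ τ.1)ᴴ = 1 := by
    rw [← conjTranspose_mul, hQ, conjTranspose_one]
  have h1 := two_I_imC _ (act_symm γ τ)
  have h2 : (2 * Complex.I) • imC (num γ τ.1 * (den γ τ.1)⁻¹) =
      (2 * Complex.I) • (((den γ τ.1)⁻¹)ᴴ * imC τ.1 * (den γ τ.1)⁻¹) := by
    rw [← h1]
    have : (2 * Complex.I) • (((den γ τ.1)⁻¹)ᴴ * imC τ.1 * (den γ τ.1)⁻¹) =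
        ((den γ τ.1)⁻¹)ᴴ * ((2 * Complex.I) • imC τ.1) * (den γ τ.1)⁻¹ := by
      rw [Matrix.mul_smul, Matrix.smul_mul]
    rw [this, ← h, conjTranspose_mul]
    rw [Matrix.mul_sub, Matrix.sub_mul]
    congr 1
    · rw [← Matrix.mul_assoc ((den γ τ.1)⁻¹)ᴴ, hQt, Matrix.one_mul]
    · rw [Matrix.mul_assoc ((den γ τ.1)⁻¹)ᴴ, Matrix.mul_assoc (num γ τ.1)ᴴ, hQ, Matrix.mul_one]
  have h3 : (2 * Complex.I) ≠ 0 := by simp
  exact smul_right_injective _ h3 h2

theorem act_posDef (γ : SpZ g) (τ : Siegel g) :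
    ((num γ τ.1 * (den γ τ.1)⁻¹).map Complex.im).PosDef := by
  rw [← posDef_toComplex]
  change (imC (num γ τ.1 * (den γ τ.1)⁻¹)).PosDef
  rw [act_im]
  apply (imC_posDef τ).conjTranspose_mul_mul_same
  apply mulVec_injective_of_isUnit
  exact (Matrix.isUnit_nonsing_inv_iff).mpr (den_isUnit γ τ)

/-- The action `γ τ = (aτ + b)(cτ + d)⁻¹` of `Sp(2g, ℤ)` on the Siegel upper half-space. -/
noncomputable instance : SMul (SpZ g) (Siegel g) where
  smul γ τ := ⟨num γ τ.1 * (den γ τ.1)⁻¹, act_symm γ τ, act_posDef γ τ⟩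

theorem smul_val (γ : SpZ g) (τ : Siegel g) : (γ • τ).1 = num γ τ.1 * (den γ τ.1)⁻¹ := rfl

theorem blk_mul (γ δ : SpZ g) :
    blkA (γ * δ) = blkA γ * blkA δ + blkB γ * blkC δ ∧
    blkB (γ * δ) = blkA γ * blkB δ + blkB γ * blkD δ ∧
    blkC (γ * δ) = blkC γ * blkA δ + blkD γ * blkC δ ∧
    blkD (γ * δ) = blkC γ * blkB δ + blkD γ * blkD δ := by
  have h : (γ * δ).1 = γ.1 * δ.1 := rfl
  rw [fromBlocks_blk (γ * δ), fromBlocks_blk γ, fromBlocks_blk δ, fromBlocks_multiply,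
    fromBlocks_inj] at h
  exact h

theorem num_mul (γ δ : SpZ g) (τ : Matrix (Fin g) (Fin g) ℂ) :
    num (γ * δ) τ = toC (blkA γ) * num δ τ + toC (blkB γ) * den δ τ := by
  obtain ⟨h1, h2, h3, h4⟩ := blk_mul γ δ
  unfold num den
  rw [h1, h2]
  simp only [toC_add, toC_mul]
  noncomm_ring

theorem den_mul (γ δ : SpZ g) (τ : Matrix (Fin g) (Fin g) ℂ) :
    den (γ * δ) τ = toC (blkC γ) * num δ τ + toC (blkD γ) * den δ τ := by
  obtain ⟨h1, h2, h3, h4⟩ := blk_mul γ δ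
  unfold num den
  rw [h3, h4]
  simp only [toC_add, toC_mul]
  noncomm_ring

noncomputable instance : MulAction (SpZ g) (Siegel g) where
  one_smul τ := by
    apply Subtype.ext
    rw [smul_val]
    have h : (1 : SpZ g).1 = fromBlocks 1 0 0 1 := by
      rw [fromBlocks_one]
      rfl
    rw [fromBlocks_blk, fromBlocks_inj] at h
    unfold num den
    rw [h.1, h.2.1, h.2.2.1, h.2.2.2]
    simp [toC_one, toC_zero]
  mul_smul γ δ τ := by
    apply Subtype.ext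
    rw [smul_val, smul_val]
    have hQ := den_mul_inv δ τ
    have hQ' := den_inv_mul δ τ
    have e1 : num γ (δ • τ).1 = num (γ * δ) τ.1 * (den δ τ.1)⁻¹ := by
      rw [num_mul, smul_val, Matrix.add_mul, Matrix.mul_assoc, Matrix.mul_assoc, hQ]
      unfold num
      rw [Matrix.mul_one]
    have e2 : den γ (δ • τ).1 = den (γ * δ) τ.1 * (den δ τ.1)⁻¹ := by
      rw [den_mul, smul_val, Matrix.add_mul, Matrix.mul_assoc, Matrix.mul_assoc, hQ]
      unfold den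
      rw [Matrix.mul_one]
    rw [e1, e2, Matrix.mul_inv_rev, Matrix.nonsing_inv_nonsing_inv]
    · rw [Matrix.mul_assoc, ← Matrix.mul_assoc (den δ τ.1)⁻¹, hQ', Matrix.one_mul]
    · exact (Matrix.isUnit_iff_isUnit_det _).mp (den_isUnit δ τ)

end Pool.Agent.H937R2
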