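import Pool.Agent.H937R2.Siegel
import Pool.Agent.H937R2.Summ

set_option autoImplicit false

namespace Pool.Agent.H937R2

open Matrix

variable {g : ℕ}

/-- The theta function with characteristic
`θ[ε;δ](τ,z) = ∑_{n ∈ ℤ^g} exp(πi (n+ε)ᵗ(τ(n+ε) + 2(z+δ)))`. -/
noncomputable def theta (ε δ : Fin g → ℝ) (τ : Matrix (Fin g) (Fin g) ℂ) (z : Fin g → ℂ) : ℂ :=
  ∑' n : Fin g → ℤ, Complex.exp (Real.pi * Complex.I *
    ((fun i => (n i : ℂ) + (ε i : ℂ)) ⬝ᵥ
      (τ *ᵥ (fun i => (n i : ℂ) + (ε i : ℂ)) + (2 : ℂ) • (z + fun i => (δ i : ℂ)))))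

/-- The element of `½ℤ^g` with coordinates `e_i / 2`; the `e : Fin g → Fin 2` represent
`½ℤ^g / ℤ^g`. -/
noncomputable def half (e : Fin g → Fin 2) : Fin g → ℝ := fun i => ((e i : ℕ) : ℝ) / 2

/-- The second-order theta constant `Θ[ε](τ) = θ[ε;0](2τ, 0)`. -/
noncomputable def thetaConst (e : Fin g → Fin 2) (τ : Matrix (Fin g) (Fin g) ℂ) : ℂ :=
  theta (half e) 0 ((2 : ℂ) • τ) 0

/-- `mᵗ τ m`. -/
noncomputable def qf (τ : Matrix (Fin g) (Fin g) ℂ) (m : Fin g → ℤ) : ℂ :=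
  ∑ i, ∑ j, (m i : ℂ) * τ i j * (m j : ℂ)

/-- `mᵗ z`. -/
noncomputable def lin (m : Fin g → ℤ) (z : Fin g → ℂ) : ℂ := ∑ i, (m i : ℂ) * z i

/-- `exp (2πi (mᵗτm/4 + mᵗz))`. -/
noncomputable def term (τ : Matrix (Fin g) (Fin g) ℂ) (z : Fin g → ℂ) (m : Fin g → ℤ) : ℂ :=
  Complex.exp (2 * Real.pi * Complex.I * (qf τ m / 4 + lin m z))

/-- `2n + e`. -/
def dbl (e n : Fin g → ℤ) : Fin g → ℤ := fun i => 2 * n i + e i

/-- The second-order theta function `Θ[e/2](τ, z)`. -/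
noncomputable def th2 (e : Fin g → ℤ) (τ : Matrix (Fin g) (Fin g) ℂ) (z : Fin g → ℂ) : ℂ :=
  ∑' n : Fin g → ℤ, term τ z (dbl e n)

theorem thetaConst_eq (e : Fin g → Fin 2) (τ : Matrix (Fin g) (Fin g) ℂ) :
    thetaConst e τ = th2 (fun i => ((e i : ℕ) : ℤ)) τ 0 := by
  unfold thetaConst theta th2 term
  refine tsum_congr fun n => ?_
  congr 1
  have h : (fun i => (n i : ℂ) + (half e i : ℂ)) ⬝ᵥ
      (((2 : ℂ) • τ) *ᵥ (fun i => (n i : ℂ) + (half e i : ℂ)) +
        (2 : ℂ) • ((0 : Fin g → ℂ) + fun i => (((0 : Fin g → ℝ) i : ℝ) : ℂ))) =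
      2 * (qf τ (dbl (fun i => ((e i : ℕ) : ℤ)) n) / 4) := by
    have h0 : (2 : ℂ) • ((0 : Fin g → ℂ) + fun i => (((0 : Fin g → ℝ) i : ℝ) : ℂ)) = 0 := by
      ext i
      simp
    rw [h0, add_zero]
    unfold qf
    simp only [dotProduct, mulVec, Finset.mul_sum, Finset.sum_div]
    refine Finset.sum_congr rfl fun i _ => Finset.sum_congr rfl fun j _ => ?_
    simp only [half, dbl, Matrix.smul_apply, smul_eq_mul]
    push_cast
    ring
  rw [h]
  simp [lin]
  ring

theorem qf_im (τ : Matrix (Fin g) (Fin g) ℂ) (m : Fin g → ℤ) :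
    (qf τ m).im = qr (τ.map Complex.im) (fun i => (m i : ℝ)) := by
  unfold qf qr
  simp only [Complex.im_sum]
  refine Finset.sum_congr rfl fun i _ => Finset.sum_congr rfl fun j _ => ?_
  simp [Complex.mul_im]

theorem norm_term (τ : Matrix (Fin g) (Fin g) ℂ) (z : Fin g → ℂ) (m : Fin g → ℤ) :
    ‖term τ z m‖ = Real.exp (-(Real.pi / 2) * qr (τ.map Complex.im) (fun i => (m i : ℝ)) -
      2 * Real.pi * (lin m z).im) := by
  unfold term
  rw [Complex.norm_exp]
  congr 1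
  have : (2 * (Real.pi : ℂ) * Complex.I * (qf τ m / 4 + lin m z)).re =
      -(2 * Real.pi) * ((qf τ m).im / 4 + (lin m z).im) := by
    have e : (2 * (Real.pi : ℂ) * Complex.I * (qf τ m / 4 + lin m z)) =
      ((2 * Real.pi : ℝ) : ℂ) * (Complex.I * (qf τ m / ((4 : ℝ) : ℂ) + lin m z)) := by
      push_cast
      ring
    rw [e, Complex.re_ofReal_mul, Complex.I_mul_re, Complex.add_im, Complex.div_ofReal_im]
    ring
  rw [this, qf_im]
  ring

/-- The bound for the terms. -/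
theorem norm_term_le (τ : Matrix (Fin g) (Fin g) ℂ) (c B : ℝ)
    (hc : ∀ x : Fin g → ℝ, c * ∑ i, x i ^ 2 ≤ qr (τ.map Complex.im) x)
    (z : Fin g → ℂ) (hz : ∀ i, |(z i).im| ≤ B) (m : Fin g → ℤ) :
    ‖term τ z m‖ ≤ ∏ i, Real.exp (-(Real.pi / 2 * c) * (m i : ℝ) ^ 2 +
      2 * Real.pi * B * |(m i : ℝ)|) := by
  rw [norm_term, ← Real.exp_sum]
  apply Real.exp_le_exp.mpr
  have h1 := hc (fun i => (m i : ℝ))
  have h2 : -(lin m z).im ≤ ∑ i, B * |(m i : ℝ)| := by
    have : (lin m z).im = ∑ i, (m i : ℝ) * (z i).im := by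
      unfold lin
      simp [Complex.im_sum, Complex.mul_im]
    rw [this, ← Finset.sum_neg_distrib]
    refine Finset.sum_le_sum fun i _ => ?_
    calc -((m i : ℝ) * (z i).im) ≤ |(m i : ℝ) * (z i).im| := neg_le_abs _
      _ = |(z i).im| * |(m i : ℝ)| := by rw [abs_mul, mul_comm]
      _ ≤ B * |(m i : ℝ)| := mul_le_mul_of_nonneg_right (hz i) (abs_nonneg _)
  have hpi := Real.pi_pos
  calc -(Real.pi / 2) * qr (τ.map Complex.im) (fun i => (m i : ℝ)) - 2 * Real.pi * (lin m z).im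
      ≤ -(Real.pi / 2) * (c * ∑ i, (m i : ℝ) ^ 2) + 2 * Real.pi * ∑ i, B * |(m i : ℝ)| := by
        nlinarith
    _ = _ := by
        rw [Finset.mul_sum, Finset.mul_sum, Finset.mul_sum, ← Finset.sum_add_distrib]
        refine Finset.sum_congr rfl fun i _ => ?_
        ring

theorem dbl_injective (e : Fin g → ℤ) : Function.Injective (dbl e) := by
  intro n n' h
  ext i
  have := congrFun h i
  simp only [dbl] at this
  linarith

theorem summable_bound (c B : ℝ) (hc : 0 < c) (e : Fin g → ℤ) :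
    Summable (fun n : Fin g → ℤ => ∏ i, Real.exp (-(Real.pi / 2 * c) * (dbl e n i : ℝ) ^ 2 +
      2 * Real.pi * B * |(dbl e n i : ℝ)|)) := by
  have h := summable_gauss (g := g) (Real.pi / 2 * c) (2 * Real.pi * B)
    (mul_pos (by positivity) hc)
  exact h.comp_injective (dbl_injective e)

theorem summable_term (τ : Siegel g) (z : Fin g → ℂ) (e : Fin g → ℤ) :
    Summable (fun n => term τ.1 z (dbl e n)) := by
  obtain ⟨c, hc, hcq⟩ := posDef_lower _ τ.2.2
  obtain ⟨B, hB⟩ : ∃ B : ℝ, ∀ i, |(z i).im| ≤ B := by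
    refine ⟨∑ i, |(z i).im|, fun i => ?_⟩
    exact Finset.single_le_sum (f := fun i => |(z i).im|) (fun _ _ => abs_nonneg _)
      (Finset.mem_univ i)
  exact (summable_bound c B hc e).of_norm_bounded (fun n => norm_term_le τ.1 c B hcq z hB _)

theorem continuous_th2 (τ : Siegel g) (e : Fin g → ℤ) : Continuous (th2 e τ.1) := by
  obtain ⟨c, hc, hcq⟩ := posDef_lower _ τ.2.2
  rw [continuous_iff_continuousAt]
  intro z0
  have hcont : ContinuousOn (th2 e τ.1) (Metric.ball z0 1) := by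
    unfold th2
    apply continuousOn_tsum (u := fun n : Fin g → ℤ => ∏ i,
      Real.exp (-(Real.pi / 2 * c) * (dbl e n i : ℝ) ^ 2 +
      2 * Real.pi * (‖z0‖ + 1) * |(dbl e n i : ℝ)|))
    · intro n
      unfold term lin
      fun_prop
    · exact summable_bound c (‖z0‖ + 1) hc e
    · intro n z hz
      apply norm_term_le τ.1 c (‖z0‖ + 1) hcq z _ _
      intro i
      have h1 : ‖z‖ ≤ ‖z0‖ + 1 := by
        have := norm_sub_norm_le z z0
        rw [Metric.mem_ball, dist_eq_norm] at hz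
        linarith
      calc |(z i).im| ≤ ‖z i‖ := Complex.abs_im_le_norm _
        _ ≤ ‖z‖ := norm_le_pi_norm z i
        _ ≤ _ := h1
  exact hcont.continuousAt (Metric.ball_mem_nhds z0 one_pos)

theorem differentiable_th2_line (τ : Siegel g) (e : Fin g → ℤ) (x v : Fin g → ℂ) :
    Differentiable ℂ (fun s : ℂ => th2 e τ.1 (x + s • v)) := by
  obtain ⟨c, hc, hcq⟩ := posDef_lower _ τ.2.2
  intro s0
  have hdiff : DifferentiableOn ℂ (fun s : ℂ => th2 e τ.1 (x + s • v)) (Metric.ball s0 1) := by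
    unfold th2
    apply Complex.differentiableOn_tsum_of_summable_norm (u := fun n : Fin g → ℤ => ∏ i,
      Real.exp (-(Real.pi / 2 * c) * (dbl e n i : ℝ) ^ 2 +
      2 * Real.pi * (‖x‖ + (‖s0‖ + 1) * ‖v‖) * |(dbl e n i : ℝ)|))
    · exact summable_bound c _ hc e
    · intro n
      apply Differentiable.differentiableOn
      unfold term lin
      simp only [Pi.add_apply, Pi.smul_apply, smul_eq_mul]
      fun_prop
    · exact Metric.isOpen_ball
    · intro n s hs
      apply norm_term_le τ.1 c _ hcq _ _ _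
      intro i
      have h1 : ‖s‖ ≤ ‖s0‖ + 1 := by
        have := norm_sub_norm_le s s0
        rw [Metric.mem_ball, dist_eq_norm] at hs
        linarith
      calc |((x + s • v) i).im| ≤ ‖(x + s • v) i‖ := Complex.abs_im_le_norm _
        _ ≤ ‖x + s • v‖ := norm_le_pi_norm _ i
        _ ≤ ‖x‖ + ‖s • v‖ := norm_add_le _ _
        _ = ‖x‖ + ‖s‖ * ‖v‖ := by rw [norm_smul]
        _ ≤ _ := by gcongr
  exact hdiff.differentiableAt (Metric.ball_mem_nhds s0 one_pos)

theorem lin_add (m : Fin g → ℤ) (z w : Fin g → ℂ) : lin m (z + w) = lin m z + lin m w := by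
  unfold lin
  rw [← Finset.sum_add_distrib]
  refine Finset.sum_congr rfl fun i _ => ?_
  simp only [Pi.add_apply]
  ring

/-- An integer vector as a complex vector. -/
def toV (p : Fin g → ℤ) : Fin g → ℂ := fun i => (p i : ℂ)

theorem exp_two_pi_int (k : ℤ) : Complex.exp (2 * Real.pi * Complex.I * (k : ℂ)) = 1 := by
  rw [Complex.exp_eq_one_iff]
  exact ⟨k, by ring⟩

/-- Translation by `q/2`. -/
theorem th2_add_half (e q : Fin g → ℤ) (τ : Matrix (Fin g) (Fin g) ℂ) (z : Fin g → ℂ) :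
    th2 e τ (z + (1 / 2 : ℂ) • toV q) =
      Complex.exp (Real.pi * Complex.I * (∑ i, (e i : ℂ) * (q i : ℂ))) * th2 e τ z := by
  unfold th2
  rw [← tsum_mul_left]
  refine tsum_congr fun n => ?_
  unfold term
  rw [lin_add, ← Complex.exp_add]
  have h : lin (dbl e n) ((1 / 2 : ℂ) • toV q) =
      (∑ i, (n i * q i) : ℤ) + (1 / 2) * ∑ i, (e i : ℂ) * (q i : ℂ) := by
    unfold lin toV dbl
    push_cast
    rw [Finset.mul_sum, ← Finset.sum_add_distrib]
    refine Finset.sum_congr rfl fun i _ => ?_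
    simp only [Pi.smul_apply, smul_eq_mul]
    ring
  rw [h]
  have e1 : 2 * (Real.pi : ℂ) * Complex.I * (qf τ (dbl e n) / 4 + (lin (dbl e n) z +
      (((∑ i, (n i * q i) : ℤ) : ℂ) + (1 / 2) * ∑ i, (e i : ℂ) * (q i : ℂ)))) =
      2 * Real.pi * Complex.I * ((∑ i, (n i * q i) : ℤ) : ℂ) +
      (Real.pi * Complex.I * (∑ i, (e i : ℂ) * (q i : ℂ)) +
      2 * Real.pi * Complex.I * (qf τ (dbl e n) / 4 + lin (dbl e n) z)) := by
    ring
  rw [e1, Complex.exp_add, exp_two_pi_int, one_mul]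

theorem qf_add (τ : Matrix (Fin g) (Fin g) ℂ) (hτ : τᵀ = τ) (m p : Fin g → ℤ) :
    qf τ (m + p) = qf τ m + qf τ p + 2 * lin m (τ *ᵥ toV p) := by
  have hs : ∀ i j, τ j i = τ i j := fun i j => congrFun (congrFun hτ i) j
  have h1 : qf τ (m + p) = qf τ m + qf τ p + (∑ i, ∑ j, (m i : ℂ) * τ i j * (p j : ℂ)) +
      (∑ i, ∑ j, (p i : ℂ) * τ i j * (m j : ℂ)) := by
    unfold qf
    simp only [← Finset.sum_add_distrib]
    refine Finset.sum_congr rfl fun i _ => Finset.sum_congr rfl fun j _ => ?_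
    simp only [Pi.add_apply]
    push_cast
    ring
  have h2 : (∑ i, ∑ j, (p i : ℂ) * τ i j * (m j : ℂ)) =
      ∑ i, ∑ j, (m i : ℂ) * τ i j * (p j : ℂ) := by
    rw [Finset.sum_comm]
    refine Finset.sum_congr rfl fun i _ => Finset.sum_congr rfl fun j _ => ?_
    rw [hs i j]
    ring
  have h3 : lin m (τ *ᵥ toV p) = ∑ i, ∑ j, (m i : ℂ) * τ i j * (p j : ℂ) := by
    unfold lin toV mulVec dotProduct
    refine Finset.sum_congr rfl fun i _ => ?_
    rw [Finset.mul_sum]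
    refine Finset.sum_congr rfl fun j _ => ?_
    ring
  rw [h1, h2, h3]
  ring

theorem lin_smul (m : Fin g → ℤ) (a : ℂ) (z : Fin g → ℂ) : lin m (a • z) = a * lin m z := by
  unfold lin
  rw [Finset.mul_sum]
  refine Finset.sum_congr rfl fun i _ => ?_
  simp only [Pi.smul_apply, smul_eq_mul]
  ring

theorem lin_add_left (m p : Fin g → ℤ) (z : Fin g → ℂ) : lin (m + p) z = lin m z + lin p z := by
  unfold lin
  rw [← Finset.sum_add_distrib]
  refine Finset.sum_congr rfl fun i _ => ?_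
  simp only [Pi.add_apply]
  push_cast
  ring

/-- Translation by `τp/2`. -/
theorem th2_add_tau_half (e p : Fin g → ℤ) (τ : Matrix (Fin g) (Fin g) ℂ) (hτ : τᵀ = τ)
    (z : Fin g → ℂ) :
    th2 e τ (z + (1 / 2 : ℂ) • (τ *ᵥ toV p)) =
      Complex.exp (-(2 * Real.pi * Complex.I * (qf τ p / 4 + lin p z))) * th2 (e + p) τ z := by
  unfold th2
  rw [← tsum_mul_left]
  refine tsum_congr fun n => ?_
  have hd : dbl (e + p) n = dbl e n + p := by
    ext i
    simp only [dbl, Pi.add_apply]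
    ring
  rw [hd]
  unfold term
  rw [← Complex.exp_add]
  congr 1
  rw [lin_add, lin_smul, qf_add τ hτ, lin_add_left]
  ring

/-- `Θ[e]` depends on `e` modulo `2` only. -/
theorem th2_add_two (e k : Fin g → ℤ) (τ : Matrix (Fin g) (Fin g) ℂ) (z : Fin g → ℂ) :
    th2 (fun i => e i + 2 * k i) τ z = th2 e τ z := by
  unfold th2
  rw [← (Equiv.addRight k).tsum_eq (fun n => term τ z (dbl e n))]
  refine tsum_congr fun n => ?_
  congr 1
  ext i
  simp only [dbl, Equiv.coe_addRight, Pi.add_apply]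
  ring

theorem th2_congr (e e' : Fin g → ℤ) (h : ∀ i, (2 : ℤ) ∣ e i - e' i)
    (τ : Matrix (Fin g) (Fin g) ℂ) (z : Fin g → ℂ) : th2 e τ z = th2 e' τ z := by
  choose k hk using h
  have : e = fun i => e' i + 2 * k i := by
    ext i
    have := hk i
    linarith
  rw [this, th2_add_two]

end Pool.Agent.H937R2
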