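import Pool.Agent.H937R2.Transf
import Pool.Agent.H937R2.NonVan

set_option autoImplicit false

namespace Pool.Agent.H937R2

open Matrix Topology

variable {g : ℕ}

/-- `𝒜_g(2,4) = ℋ_g / Γ_g(2,4)`. -/
def A24 (g : ℕ) : Type := MulAction.orbitRel.Quotient (Gamma24 g) (Siegel g)

/-- The projection `ℋ_g → 𝒜_g(2,4)`. -/
noncomputable def proj (τ : Siegel g) : A24 g := Quotient.mk (MulAction.orbitRel (Gamma24 g) (Siegel g)) τ

/-- The quotient topology on `𝒜_g(2,4)`. -/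
noncomputable instance (g : ℕ) : TopologicalSpace (A24 g) :=
  TopologicalSpace.coinduced (proj (g := g)) inferInstance

/-- The vector of the `2^g` second order theta constants. -/
noncomputable def thetaVec (τ : Siegel g) : (Fin g → Fin 2) → ℂ := fun e => thetaConst e τ.1

/-- The projective space `ℙ^{2^g-1}`, with homogeneous coordinates indexed by
`½ℤ^g/ℤ^g`. -/
abbrev PN (g : ℕ) : Type := Projectivization ℂ ((Fin g → Fin 2) → ℂ)

/-- The usual topology of projective space (the quotient topology). -/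
noncomputable instance (g : ℕ) : TopologicalSpace (PN g) :=
  TopologicalSpace.coinduced
    (fun v : {v : (Fin g → Fin 2) → ℂ // v ≠ 0} => Projectivization.mk ℂ v.1 v.2) inferInstance

theorem th2_eq_thetaConst (b : Fin g → ℤ) (τ : Matrix (Fin g) (Fin g) ℂ) :
    th2 b τ 0 = thetaConst (fun i => (⟨(b i % 2).toNat, by omega⟩ : Fin 2)) τ := by
  rw [thetaConst_eq]
  apply th2_congr
  intro i
  have h1 : (0 : ℤ) ≤ b i % 2 := by omega
  simp only [Int.toNat_of_nonneg h1]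
  omega

theorem thetaVec_ne_zero (τ : Siegel g) : thetaVec τ ≠ 0 := by
  obtain ⟨b, hb⟩ := exists_ne_zero τ
  intro h
  apply hb
  rw [th2_eq_thetaConst]
  exact congrFun h _

theorem thetaVec_smul (γ : SpZ g) (hγ : IsGamma24 γ) (τ : Siegel g) :
    ∃ κ : ℂ, thetaVec (γ • τ) = κ • thetaVec τ := by
  obtain ⟨κ, hκ⟩ := theta_transf γ hγ τ
  refine ⟨κ, ?_⟩
  ext e
  simp only [thetaVec, thetaConst_eq, Pi.smul_apply, smul_eq_mul]
  exact hκ _

/-- **The theta map** `Th : 𝒜_g(2,4) → ℙ^{2^g-1}`, `τ ↦ [Θ[ε](τ)]_ε`. -/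
noncomputable def thetaMap (g : ℕ) : A24 g → PN g :=
  Quotient.lift (fun τ : Siegel g => Projectivization.mk ℂ (thetaVec τ) (thetaVec_ne_zero τ)) (by
    intro τ τ' h
    have h' : τ ∈ MulAction.orbit (Gamma24 g) τ' := h
    obtain ⟨γ, hγ⟩ := h'
    have hγ' : γ.1 • τ' = τ := hγ
    obtain ⟨κ, hκ⟩ := thetaVec_smul γ.1 γ.2 τ'
    rw [hγ'] at hκ
    rw [Projectivization.mk_eq_mk_iff']
    exact ⟨κ, hκ.symm⟩)

theorem thetaMap_proj (τ : Siegel g) :
    thetaMap g (proj τ) = Projectivization.mk ℂ (thetaVec τ) (thetaVec_ne_zero τ) := rfl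

/-- `f` is holomorphic in a neighbourhood of the point `x` of the analytic space
`𝒜_g(2,4)`: near every point `τ` of `ℋ_g` above `x`, the function `f ∘ proj` is the restriction of a
function that is analytic in the matrix entries. -/
def HolA (f : A24 g → ℂ) (x : A24 g) : Prop :=
  ∀ τ : Siegel g, proj τ = x → ∃ F : (Fin g → Fin g → ℂ) → ℂ,
    AnalyticAt ℂ F (fun i j => τ.1 i j) ∧
      ∀ᶠ τ' in 𝓝 τ, f (proj τ') = F (fun i j => τ'.1 i j)

/-- `G` is holomorphic in a neighbourhood of the point `p` of `ℙ^{2^g-1}`: near every vector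
`v ≠ 0` above `p`, the function `w ↦ G [w]` is analytic. -/
def HolP (G : PN g → ℂ) (p : PN g) : Prop :=
  ∀ (v : (Fin g → Fin 2) → ℂ) (hv : v ≠ 0), Projectivization.mk ℂ v hv = p →
    ∃ F : ((Fin g → Fin 2) → ℂ) → ℂ, AnalyticAt ℂ F v ∧
      ∀ᶠ w in 𝓝 v, ∀ hw : w ≠ 0, G (Projectivization.mk ℂ w hw) = F w

/-- The map `Φ : 𝒜_g(2,4) → ℙ^{2^g-1}` is near `x` an isomorphism of analytic spaces onto its
image: on some open neighbourhood `U` of `x` it is a homeomorphism onto `Φ(U)`, and near each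
`y ∈ U` the holomorphic functions on `𝒜_g(2,4)` are exactly the functions `G ∘ Φ` with `G`
holomorphic on `ℙ^{2^g-1}` near `Φ(y)`. -/
def IsoOntoImageNear (Φ : A24 g → PN g) (x : A24 g) : Prop :=
  ∃ U : Set (A24 g), IsOpen U ∧ x ∈ U ∧ IsEmbedding (fun y : U => Φ y) ∧
    ∀ y ∈ U, ∀ f : A24 g → ℂ, HolA f y ↔ ∃ G : PN g → ℂ, HolP G (Φ y) ∧ f =ᶠ[𝓝 y] G ∘ Φ

/-- The map `Φ` is an embedding: it is injective and an isomorphism of analytic spaces onto
its image. -/
def IsAnalyticEmbedding (Φ : A24 g → PN g) : Prop :=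
  IsEmbedding Φ ∧
    ∀ y : A24 g, ∀ f : A24 g → ℂ, HolA f y ↔ ∃ G : PN g → ℂ, HolP G (Φ y) ∧ f =ᶠ[𝓝 y] G ∘ Φ

end Pool.Agent.H937R2
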