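import Pool.Agent.H937R2.Uniq
import Pool.Agent.H937R2.Gamma

set_option autoImplicit false

namespace Pool.Agent.H937R2

open Matrix

variable {g : ℕ}

theorem lin_eq (m : Fin g → ℤ) (z : Fin g → ℂ) : lin m z = toV m ⬝ᵥ z := rfl

theorem qf_eq (τ : Matrix (Fin g) (Fin g) ℂ) (m : Fin g → ℤ) :
    qf τ m = toV m ⬝ᵥ (τ *ᵥ toV m) := by
  unfold qf toV dotProduct mulVec
  refine Finset.sum_congr rfl fun i _ => ?_
  rw [dotProduct, Finset.mul_sum]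
  refine Finset.sum_congr rfl fun j _ => ?_
  ring

theorem toV_mulVec (m : Matrix (Fin g) (Fin g) ℤ) (p : Fin g → ℤ) :
    toV (m *ᵥ p) = toC m *ᵥ toV p := by
  ext i
  simp [toV, toC, mulVec, dotProduct]

theorem toV_add (p q : Fin g → ℤ) : toV (p + q) = toV p + toV q := by
  ext i
  simp [toV]

theorem toV_sub (p q : Fin g → ℤ) : toV (p - q) = toV p - toV q := by
  ext i
  simp [toV]

/-- `Q^{-t} = a - τ'c`. -/
theorem den_inv_transpose (γ : SpZ g) (τ : Siegel g) :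
    ((den γ τ.1)⁻¹)ᵀ = toC (blkA γ) - (γ • τ).1 * toC (blkC γ) := by
  obtain ⟨h1, h2, h3, h4⟩ := relC γ
  have hQ := den_mul_inv γ τ
  have hQt : ((den γ τ.1)⁻¹)ᵀ * (den γ τ.1)ᵀ = 1 := by
    rw [← transpose_mul, hQ, transpose_one]
  have hP : (den γ τ.1)ᵀ * (γ • τ).1 = (num γ τ.1)ᵀ := by
    have hs : ((γ • τ).1)ᵀ = (γ • τ).1 := (γ • τ).2.1
    rw [← hs, ← transpose_mul, smul_val, Matrix.mul_assoc, den_inv_mul, Matrix.mul_one]
  have key : (den γ τ.1)ᵀ * (toC (blkA γ) - (γ • τ).1 * toC (blkC γ)) = 1 := by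
    rw [Matrix.mul_sub, ← Matrix.mul_assoc, hP]
    unfold den num
    simp only [transpose_add, transpose_mul, τ.2.1]
    have e1 : (τ.1 * (toC (blkC γ))ᵀ + (toC (blkD γ))ᵀ) * toC (blkA γ) -
        (τ.1 * (toC (blkA γ))ᵀ + (toC (blkB γ))ᵀ) * toC (blkC γ) =
        τ.1 * ((toC (blkC γ))ᵀ * toC (blkA γ) - (toC (blkA γ))ᵀ * toC (blkC γ)) +
        ((toC (blkD γ))ᵀ * toC (blkA γ) - (toC (blkB γ))ᵀ * toC (blkC γ)) := by
      noncomm_ring
    rw [e1, h4, h1, sub_self, Matrix.mul_zero, zero_add]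
  calc ((den γ τ.1)⁻¹)ᵀ = ((den γ τ.1)⁻¹)ᵀ *
        ((den γ τ.1)ᵀ * (toC (blkA γ) - (γ • τ).1 * toC (blkC γ))) := by
        rw [key, Matrix.mul_one]
    _ = _ := by rw [← Matrix.mul_assoc, hQt, Matrix.one_mul]

/-- `p' = dp - cq`. -/
def pp (γ : SpZ g) (p q : Fin g → ℤ) : Fin g → ℤ := blkD γ *ᵥ p - blkC γ *ᵥ q
/-- `q' = aq - bp`. -/
def qq (γ : SpZ g) (p q : Fin g → ℤ) : Fin g → ℤ := blkA γ *ᵥ q - blkB γ *ᵥ p

theorem pp_qq_p (γ : SpZ g) (p q : Fin g → ℤ) :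
    (toC (blkA γ))ᵀ *ᵥ toV (pp γ p q) + (toC (blkC γ))ᵀ *ᵥ toV (qq γ p q) = toV p := by
  obtain ⟨h1, h2, h3, h4⟩ := relC γ
  unfold pp qq
  rw [toV_sub, toV_sub]
  simp only [toV_mulVec, mulVec_sub, mulVec_mulVec]
  have e : (toC (blkA γ))ᵀ * toC (blkD γ) = 1 + (toC (blkC γ))ᵀ * toC (blkB γ) :=
    sub_eq_iff_eq_add.mp h3
  rw [e, h1, add_mulVec, one_mulVec]
  abel

theorem pp_qq_q (γ : SpZ g) (p q : Fin g → ℤ) :
    (toC (blkB γ))ᵀ *ᵥ toV (pp γ p q) + (toC (blkD γ))ᵀ *ᵥ toV (qq γ p q) = toV q := by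
  obtain ⟨h1, h2, h3, h4⟩ := relC γ
  unfold pp qq
  rw [toV_sub, toV_sub]
  simp only [toV_mulVec, mulVec_sub, mulVec_mulVec]
  have e : (toC (blkD γ))ᵀ * toC (blkA γ) = 1 + (toC (blkB γ))ᵀ * toC (blkC γ) :=
    sub_eq_iff_eq_add.mp h4
  rw [e, h2, add_mulVec, one_mulVec]
  abel

/-- `Q^{-t}(τp + q) = τ'p' + q'`. -/
theorem lattice_map (γ : SpZ g) (τ : Siegel g) (p q : Fin g → ℤ) :
    ((den γ τ.1)⁻¹)ᵀ *ᵥ (τ.1 *ᵥ toV p + toV q) =
      (γ • τ).1 *ᵥ toV (pp γ p q) + toV (qq γ p q) := by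
  have hQ := den_mul_inv γ τ
  have hQt : ((den γ τ.1)⁻¹)ᵀ * (den γ τ.1)ᵀ = 1 := by
    rw [← transpose_mul, hQ, transpose_one]
  have hP : (den γ τ.1)ᵀ * (γ • τ).1 = (num γ τ.1)ᵀ := by
    have hs : ((γ • τ).1)ᵀ = (γ • τ).1 := (γ • τ).2.1
    rw [← hs, ← transpose_mul, smul_val, Matrix.mul_assoc, den_inv_mul, Matrix.mul_one]
  have key : (den γ τ.1)ᵀ *ᵥ ((γ • τ).1 *ᵥ toV (pp γ p q) + toV (qq γ p q)) =
      τ.1 *ᵥ toV p + toV q := by
    rw [mulVec_add, mulVec_mulVec, hP]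
    unfold num den
    simp only [transpose_add, transpose_mul, τ.2.1, add_mulVec]
    rw [← mulVec_mulVec, ← mulVec_mulVec]
    have e1 := pp_qq_p γ p q
    have e2 := pp_qq_q γ p q
    conv_rhs => rw [← e1, ← e2, mulVec_add]
    abel
  rw [← key, mulVec_mulVec, hQt, one_mulVec]

theorem dot_symm (S : Matrix (Fin g) (Fin g) ℂ) (hS : Sᵀ = S) (x y : Fin g → ℂ) :
    x ⬝ᵥ (S *ᵥ y) = y ⬝ᵥ (S *ᵥ x) := by
  rw [dotProduct_mulVec, ← mulVec_transpose, hS, dotProduct_comm]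

/-- The identity (E1). -/
theorem E1 (γ : SpZ g) (τ : Siegel g) (p q : Fin g → ℤ) (z : Fin g → ℂ) :
    ((γ • τ).1 *ᵥ toV (pp γ p q) + toV (qq γ p q)) ⬝ᵥ (toC (blkC γ) *ᵥ z) +
      toV (pp γ p q) ⬝ᵥ (((den γ τ.1)⁻¹)ᵀ *ᵥ z) = toV p ⬝ᵥ z := by
  rw [den_inv_transpose, sub_mulVec, dotProduct_sub, add_dotProduct, ← mulVec_mulVec]
  have h1 : ((γ • τ).1 *ᵥ toV (pp γ p q)) ⬝ᵥ (toC (blkC γ) *ᵥ z) =
      toV (pp γ p q) ⬝ᵥ ((γ • τ).1 *ᵥ (toC (blkC γ) *ᵥ z)) := by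
    rw [dotProduct_comm, dot_symm _ (γ • τ).2.1]
  rw [h1]
  have h2 : toV (qq γ p q) ⬝ᵥ (toC (blkC γ) *ᵥ z) =
      ((toC (blkC γ))ᵀ *ᵥ toV (qq γ p q)) ⬝ᵥ z := by
    rw [dotProduct_mulVec, ← mulVec_transpose]
  have h3 : toV (pp γ p q) ⬝ᵥ (toC (blkA γ) *ᵥ z) =
      ((toC (blkA γ))ᵀ *ᵥ toV (pp γ p q)) ⬝ᵥ z := by
    rw [dotProduct_mulVec, ← mulVec_transpose]
  rw [h2, h3]
  have h4 := congrArg (fun v => v ⬝ᵥ z) (pp_qq_p γ p q)
  simp only [add_dotProduct] at h4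
  rw [← h4]
  ring

/-- `S = Q⁻¹c`. -/
noncomputable def SS (γ : SpZ g) (τ : Siegel g) : Matrix (Fin g) (Fin g) ℂ :=
  (den γ τ.1)⁻¹ * toC (blkC γ)

theorem SS_symm (γ : SpZ g) (τ : Siegel g) : (SS γ τ)ᵀ = SS γ τ := by
  obtain ⟨h1, h2, h3, h4⟩ := relC γ
  have h := den_inv_transpose γ τ
  have e : (SS γ τ)ᵀ = (toC (blkC γ))ᵀ * toC (blkA γ) -
      (toC (blkC γ))ᵀ * (γ • τ).1 * toC (blkC γ) := by
    unfold SS
    rw [transpose_mul, h, Matrix.mul_sub, Matrix.mul_assoc]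
  have e2 : ((SS γ τ)ᵀ)ᵀ = (SS γ τ)ᵀ := by
    rw [e, transpose_sub, transpose_mul, transpose_transpose, transpose_mul, transpose_mul,
      transpose_transpose, (γ • τ).2.1, h1, Matrix.mul_assoc]
  rw [← e2, transpose_transpose]

/-- The automorphy-corrected function. -/
noncomputable def Phi (γ : SpZ g) (τ : Siegel g) (e : Fin g → ℤ) (z : Fin g → ℂ) : ℂ :=
  Complex.exp (-(2 * Real.pi * Complex.I * (z ⬝ᵥ (SS γ τ *ᵥ z)))) *
    th2 e (γ • τ).1 (((den γ τ.1)⁻¹)ᵀ *ᵥ z)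

theorem Phi_shift (γ : SpZ g) (τ : Siegel g) (p q : Fin g → ℤ) (z : Fin g → ℂ) :
    Phi γ τ 0 (z + (1 / 2 : ℂ) • (τ.1 *ᵥ toV p + toV q)) =
      Complex.exp (-(2 * Real.pi * Complex.I * (qf τ.1 p / 4 + lin p z))) *
      Complex.exp (-(2 * Real.pi * Complex.I *
        ((toV p ⬝ᵥ toV q - toV (pp γ p q) ⬝ᵥ toV (qq γ p q)) / 4))) *
      Phi γ τ (pp γ p q) z := by
  unfold Phi
  set p' := pp γ p q with hp'
  set q' := qq γ p q with hq'
  have hmap := lattice_map γ τ p q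
  rw [← hp', ← hq'] at hmap
  have harg : ((den γ τ.1)⁻¹)ᵀ *ᵥ (z + (1 / 2 : ℂ) • (τ.1 *ᵥ toV p + toV q)) =
      (((den γ τ.1)⁻¹)ᵀ *ᵥ z + (1 / 2 : ℂ) • toV q') + (1 / 2 : ℂ) • ((γ • τ).1 *ᵥ toV p') := by
    rw [mulVec_add, mulVec_smul, hmap, smul_add]
    abel
  rw [harg, th2_add_tau_half _ _ _ (γ • τ).2.1, th2_add_half, zero_add]
  set y := ((den γ τ.1)⁻¹)ᵀ *ᵥ z with hy
  set w := τ.1 *ᵥ toV p + toV q with hw
  have hE1 := E1 γ τ p q z
  have hE2 := E1 γ τ p q w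
  rw [← hp', ← hq'] at hE1 hE2
  rw [hmap] at hE2
  have hS := SS_symm γ τ
  -- `w ⬝ S z = (τ'p'+q') ⬝ c z`
  have hwS : ∀ v : Fin g → ℂ, w ⬝ᵥ (SS γ τ *ᵥ v) =
      ((γ • τ).1 *ᵥ toV p' + toV q') ⬝ᵥ (toC (blkC γ) *ᵥ v) := by
    intro v
    unfold SS
    rw [← mulVec_mulVec, dotProduct_mulVec, ← mulVec_transpose, hmap]
  have hexp : (z + (1 / 2 : ℂ) • w) ⬝ᵥ (SS γ τ *ᵥ (z + (1 / 2 : ℂ) • w)) =
      z ⬝ᵥ (SS γ τ *ᵥ z) + w ⬝ᵥ (SS γ τ *ᵥ z) + (1 / 4) * (w ⬝ᵥ (SS γ τ *ᵥ w)) := by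
    rw [mulVec_add, mulVec_smul, add_dotProduct, dotProduct_add, dotProduct_add,
      smul_dotProduct, smul_dotProduct, dotProduct_smul, dotProduct_smul,
      dot_symm _ hS z w]
    simp only [smul_eq_mul]
    ring
  rw [hexp, hwS z, hwS w]
  have hlin1 : lin p' (y + (1 / 2 : ℂ) • toV q') = toV p' ⬝ᵥ y + (1 / 2) * (toV p' ⬝ᵥ toV q') := by
    rw [lin_eq, dotProduct_add, dotProduct_smul, smul_eq_mul]
  have hsum : (∑ i, (p' i : ℂ) * (q' i : ℂ)) = toV p' ⬝ᵥ toV q' := rfl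
  rw [hlin1, hsum, qf_eq, qf_eq, lin_eq]
  rw [← hy] at hE1
  set X := ((γ • τ).1 *ᵥ toV p' + toV q') ⬝ᵥ (toC (blkC γ) *ᵥ z) with hX
  set W := ((γ • τ).1 *ᵥ toV p' + toV q') ⬝ᵥ (toC (blkC γ) *ᵥ w) with hW
  have hE2' : W = toV p ⬝ᵥ (τ.1 *ᵥ toV p) + toV p ⬝ᵥ toV q -
      toV p' ⬝ᵥ ((γ • τ).1 *ᵥ toV p') - toV p' ⬝ᵥ toV q' := by
    rw [dotProduct_add, hw, dotProduct_add] at hE2
    rw [← hE2]
    ring
  have hE1' : X = toV p ⬝ᵥ z - toV p' ⬝ᵥ y := by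
    rw [← hE1]
    ring
  rw [hE1', hE2']
  simp only [← mul_assoc, ← Complex.exp_add]
  congr 2
  ring


/-- A symmetric even integral matrix with diagonal divisible by `4` takes values divisible by
`4`. -/
theorem four_dvd_quad (N : Matrix (Fin g) (Fin g) ℤ) (hs : Nᵀ = N)
    (he : ∀ i j, (2 : ℤ) ∣ N i j) (hd : ∀ i, (4 : ℤ) ∣ N i i) (x : Fin g → ℤ) :
    (4 : ℤ) ∣ x ⬝ᵥ (N *ᵥ x) := by
  choose M hM using he
  have hMs : ∀ i j, M i j = M j i := by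
    intro i j
    have h1 : N j i = N i j := congrFun (congrFun hs i) j
    have h2 := hM i j
    have h3 := hM j i
    omega
  have hMd : ∀ i, (2 : ℤ) ∣ M i i := by
    intro i
    have h1 := hM i i
    have h2 := hd i
    omega
  have e : x ⬝ᵥ (N *ᵥ x) = 2 * ∑ p : Fin g × Fin g, x p.1 * M p.1 p.2 * x p.2 := by
    rw [Fintype.sum_prod_type, Finset.mul_sum]
    unfold dotProduct mulVec
    refine Finset.sum_congr rfl fun i _ => ?_
    rw [dotProduct, Finset.mul_sum, Finset.mul_sum]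
    refine Finset.sum_congr rfl fun j _ => ?_
    rw [hM i j]
    ring
  rw [e]
  have h2 : (2 : ℤ) ∣ ∑ p : Fin g × Fin g, x p.1 * M p.1 p.2 * x p.2 := by
    have h3 : ((∑ p : Fin g × Fin g, x p.1 * M p.1 p.2 * x p.2 : ℤ) : ZMod 2) = 0 := by
      push_cast
      apply Finset.sum_involution (fun (p : Fin g × Fin g) _ => (p.2, p.1))
      · intro p _
        have h4 : (M p.1 p.2 : ZMod 2) = M p.2 p.1 := by rw [hMs]
        have h5 : ∀ a : ZMod 2, a + a = 0 := by decide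
        rw [h4]
        have h6 : (x p.1 : ZMod 2) * (M p.2 p.1 : ZMod 2) * (x p.2 : ZMod 2) =
          (x p.2 : ZMod 2) * (M p.2 p.1 : ZMod 2) * (x p.1 : ZMod 2) := by ring
        rw [h6]
        exact h5 _
      · intro p _ hp heq
        apply hp
        have h7 : p.1 = p.2 := by
          have := congrArg Prod.fst heq
          exact this.symm
        rw [h7]
        have h8 : (M p.2 p.2 : ZMod 2) = 0 := (ZMod.intCast_zmod_eq_zero_iff_dvd _ 2).mpr (hMd _)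
        rw [h8]
        ring
      · intro p _
        exact Finset.mem_univ _
      · intro p _
        rfl
    exact (ZMod.intCast_zmod_eq_zero_iff_dvd _ 2).mp h3
  obtain ⟨k, hk⟩ := h2
  exact ⟨k, by rw [hk]; ring⟩

theorem toV_dot (p q : Fin g → ℤ) : toV p ⬝ᵥ toV q = ((p ⬝ᵥ q : ℤ) : ℂ) := by
  unfold toV dotProduct
  push_cast
  rfl

theorem toV_zero : toV (0 : Fin g → ℤ) = 0 := by
  ext i
  simp [toV]

theorem dvd_two_mulVec (m : Matrix (Fin g) (Fin g) ℤ) (h : ∀ i j, (2 : ℤ) ∣ m i j)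
    (x : Fin g → ℤ) (i : Fin g) : (2 : ℤ) ∣ (m *ᵥ x) i := by
  unfold mulVec dotProduct
  exact Finset.dvd_sum fun j _ => Dvd.dvd.mul_right (h i j) _

theorem exp_four (k : ℤ) (h : (4 : ℤ) ∣ k) :
    Complex.exp (-(2 * Real.pi * Complex.I * ((k : ℂ) / 4))) = 1 := by
  obtain ⟨l, hl⟩ := h
  rw [hl]
  have e : -(2 * (Real.pi : ℂ) * Complex.I * (((4 * l : ℤ) : ℂ) / 4)) =
      2 * Real.pi * Complex.I * ((-l : ℤ) : ℂ) := by
    push_cast
    ring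
  rw [e, exp_two_pi_int]

/-- **Transformation of the second order theta constants under `Γ_g(2,4)`.** -/
theorem theta_transf (γ : SpZ g) (hγ : IsGamma24 γ) (τ : Siegel g) :
    ∃ κ : ℂ, ∀ p : Fin g → ℤ, th2 p (γ • τ).1 0 = κ * th2 p τ.1 0 := by
  have hγ' := (isGamma24_iff γ).mp hγ
  obtain ⟨h2, hb, hc⟩ := hγ'
  obtain ⟨A, B, C, D, hA, hB, hC, hD⟩ := exists_half γ h2
  obtain ⟨r1, r2, r3, r4⟩ := rel γ
  have hCe : ∀ i j, (2 : ℤ) ∣ blkC γ i j := fun i j => by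
    rw [hC]; exact Dvd.intro _ rfl
  have hBe : ∀ i j, (2 : ℤ) ∣ blkB γ i j := fun i j => by
    rw [hB]; exact Dvd.intro _ rfl
  -- translation by q/2
  have t1 : ∀ (q : Fin g → ℤ) z, Phi γ τ 0 (z + (1 / 2 : ℂ) • toV q) = Phi γ τ 0 z := by
    intro q z
    have h := Phi_shift γ τ 0 q z
    rw [toV_zero, mulVec_zero, zero_add] at h
    rw [h]
    have e1 : Phi γ τ (pp γ 0 q) z = Phi γ τ 0 z := by
      unfold Phi
      congr 1
      apply th2_congr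
      intro i
      simp only [pp, mulVec_zero, zero_sub, Pi.neg_apply, Pi.zero_apply, sub_zero, dvd_neg]
      exact dvd_two_mulVec _ hCe q i
    have e2 : qf τ.1 0 / 4 + lin 0 z = 0 := by
      simp [qf, lin]
    have e3 : (4 : ℤ) ∣ -(pp γ 0 q ⬝ᵥ qq γ 0 q) := by
      have e4 : -(pp γ 0 q ⬝ᵥ qq γ 0 q) = q ⬝ᵥ (((blkC γ)ᵀ * blkA γ) *ᵥ q) := by
        unfold pp qq
        rw [mulVec_zero, mulVec_zero, zero_sub, sub_zero, neg_dotProduct, neg_neg,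
          ← mulVec_mulVec, dotProduct_mulVec q, vecMul_transpose]
      rw [e4]
      apply four_dvd_quad
      · rw [transpose_mul, transpose_transpose, r1]
      · intro i j
        rw [Matrix.mul_apply]
        exact Finset.dvd_sum fun k _ => Dvd.dvd.mul_right (hCe k i) _
      · intro i
        have e5 : (blkC γ)ᵀ * blkA γ = (blkC γ)ᵀ + (4 : ℤ) • (Cᵀ * A) := by
          rw [hC, hA, transpose_smul, Matrix.mul_add, Matrix.mul_one,
            Matrix.smul_mul, Matrix.mul_smul, smul_smul]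
          norm_num
        rw [e5, Matrix.add_apply, Matrix.smul_apply, smul_eq_mul, transpose_apply]
        exact dvd_add (hc i) (Dvd.intro _ rfl)
    have e6 : (0 : Fin g → ℂ) ⬝ᵥ toV q - toV (pp γ 0 q) ⬝ᵥ toV (qq γ 0 q) =
        ((-(pp γ 0 q ⬝ᵥ qq γ 0 q) : ℤ) : ℂ) := by
      rw [zero_dotProduct, toV_dot]
      push_cast
      ring
    rw [e1, e2, e6, exp_four _ e3]
    simp
  -- translation by τp
  have t2 : ∀ (p : Fin g → ℤ) z, Phi γ τ 0 (z + τ.1 *ᵥ toV p) =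
      Complex.exp (-(2 * Real.pi * Complex.I * (qf τ.1 p + 2 * lin p z))) * Phi γ τ 0 z := by
    intro p z
    have h := Phi_shift γ τ (2 • p) 0 z
    have e0 : (1 / 2 : ℂ) • (τ.1 *ᵥ toV (2 • p) + toV (0 : Fin g → ℤ)) = τ.1 *ᵥ toV p := by
      have : toV (2 • p) = (2 : ℂ) • toV p := by
        ext i
        simp [toV]
      rw [this, toV_zero, add_zero, mulVec_smul, smul_smul]
      norm_num
    rw [e0] at h
    rw [h]
    have e1 : Phi γ τ (pp γ (2 • p) 0) z = Phi γ τ 0 z := by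
      unfold Phi
      congr 1
      apply th2_congr
      intro i
      simp only [pp, mulVec_zero, sub_zero, Pi.zero_apply, mulVec_smul]
      exact Dvd.intro _ rfl
    have e2 : qf τ.1 (2 • p) / 4 + lin (2 • p) z = qf τ.1 p + 2 * lin p z := by
      have h5 : qf τ.1 (2 • p) = 4 * qf τ.1 p := by
        unfold qf
        rw [Finset.mul_sum]
        refine Finset.sum_congr rfl fun i _ => ?_
        rw [Finset.mul_sum]
        refine Finset.sum_congr rfl fun j _ => ?_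
        simp only [Pi.smul_apply, nsmul_eq_mul]
        push_cast
        ring
      have h6 : lin (2 • p) z = 2 * lin p z := by
        unfold lin
        rw [Finset.mul_sum]
        refine Finset.sum_congr rfl fun i _ => ?_
        simp only [Pi.smul_apply, nsmul_eq_mul]
        push_cast
        ring
      rw [h5, h6]
      ring
    have e3 : (4 : ℤ) ∣ -(pp γ (2 • p) 0 ⬝ᵥ qq γ (2 • p) 0) := by
      unfold pp qq
      rw [mulVec_zero, mulVec_zero, zero_sub, sub_zero, dotProduct_neg, neg_neg, mulVec_smul,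
        mulVec_smul, smul_dotProduct, dotProduct_smul, smul_smul]
      exact ⟨blkD γ *ᵥ p ⬝ᵥ blkB γ *ᵥ p, by simp⟩
    have e6 : toV (2 • p) ⬝ᵥ toV (0 : Fin g → ℤ) -
        toV (pp γ (2 • p) 0) ⬝ᵥ toV (qq γ (2 • p) 0) =
        ((-(pp γ (2 • p) 0 ⬝ᵥ qq γ (2 • p) 0) : ℤ) : ℂ) := by
      rw [toV_zero, dotProduct_zero, toV_dot]
      push_cast
      ring
    rw [e1, e2, e6, exp_four _ e3, mul_one]
  -- regularity
  have c1 : Continuous (Phi γ τ 0) := by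
    unfold Phi
    have h1 := continuous_th2 (γ • τ) 0
    have h2 : Continuous (fun z : Fin g → ℂ => ((den γ τ.1)⁻¹)ᵀ *ᵥ z) := by fun_prop
    have h3 : Continuous (fun z : Fin g → ℂ => z ⬝ᵥ (SS γ τ *ᵥ z)) := by fun_prop
    exact Continuous.mul (by fun_prop) (h1.comp h2)
  have c2 : ∀ x v, Differentiable ℂ (fun s : ℂ => Phi γ τ 0 (x + s • v)) := by
    intro x v
    unfold Phi
    have h1 := differentiable_th2_line (γ • τ) 0 (((den γ τ.1)⁻¹)ᵀ *ᵥ x)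
      (((den γ τ.1)⁻¹)ᵀ *ᵥ v)
    have h2 : (fun s : ℂ => Complex.exp (-(2 * Real.pi * Complex.I *
        ((x + s • v) ⬝ᵥ (SS γ τ *ᵥ (x + s • v))))) *
        th2 0 (γ • τ).1 (((den γ τ.1)⁻¹)ᵀ *ᵥ (x + s • v))) = fun s : ℂ =>
        Complex.exp (-(2 * Real.pi * Complex.I * (x ⬝ᵥ (SS γ τ *ᵥ x) +
          s * (x ⬝ᵥ (SS γ τ *ᵥ v)) + s * (v ⬝ᵥ (SS γ τ *ᵥ x)) +
          s * s * (v ⬝ᵥ (SS γ τ *ᵥ v))))) *
        th2 0 (γ • τ).1 (((den γ τ.1)⁻¹)ᵀ *ᵥ x + s • (((den γ τ.1)⁻¹)ᵀ *ᵥ v)) := by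
      ext s
      have e7 : (x + s • v) ⬝ᵥ (SS γ τ *ᵥ (x + s • v)) = x ⬝ᵥ (SS γ τ *ᵥ x) +
          s * (x ⬝ᵥ (SS γ τ *ᵥ v)) + s * (v ⬝ᵥ (SS γ τ *ᵥ x)) +
          s * s * (v ⬝ᵥ (SS γ τ *ᵥ v)) := by
        rw [mulVec_add, mulVec_smul, add_dotProduct, dotProduct_add, dotProduct_add,
          smul_dotProduct, smul_dotProduct, dotProduct_smul, dotProduct_smul]
        simp only [smul_eq_mul]
        ring
      rw [e7, mulVec_add, mulVec_smul]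
    rw [h2]
    exact Differentiable.mul (by fun_prop) h1
  obtain ⟨κ, hκ⟩ := uniq τ (Phi γ τ 0) c1 c2 t1 t2
  refine ⟨κ, fun p => ?_⟩
  have h := Phi_shift γ τ p 0 0
  rw [toV_zero, add_zero, zero_add, hκ] at h
  have h' := th2_add_tau_half 0 p τ.1 τ.2.1 0
  rw [zero_add, zero_add] at h'
  rw [h'] at h
  have e1 : Phi γ τ (pp γ p 0) 0 = th2 p (γ • τ).1 0 := by
    unfold Phi
    rw [mulVec_zero, zero_dotProduct, mulVec_zero]
    simp only [mul_zero, neg_zero, Complex.exp_zero, one_mul]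
    apply th2_congr
    intro i
    have e5 : pp γ p 0 i - p i = 2 * (D *ᵥ p) i := by
      unfold pp
      rw [mulVec_zero, sub_zero, hD, add_mulVec, one_mulVec, smul_mulVec]
      simp
    rw [e5]
    exact Dvd.intro _ rfl
  have e3 : (4 : ℤ) ∣ -(pp γ p 0 ⬝ᵥ qq γ p 0) := by
    have e4 : -(pp γ p 0 ⬝ᵥ qq γ p 0) = p ⬝ᵥ (((blkD γ)ᵀ * blkB γ) *ᵥ p) := by
      unfold pp qq
      rw [mulVec_zero, mulVec_zero, zero_sub, sub_zero, dotProduct_neg, neg_neg,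
        ← mulVec_mulVec, dotProduct_mulVec p, vecMul_transpose]
    rw [e4]
    apply four_dvd_quad
    · rw [transpose_mul, transpose_transpose, r2]
    · intro i j
      rw [Matrix.mul_apply]
      exact Finset.dvd_sum fun k _ => Dvd.dvd.mul_left (hBe k j) _
    · intro i
      have e5 : (blkD γ)ᵀ * blkB γ = blkB γ + (4 : ℤ) • (Dᵀ * B) := by
        rw [hD, hB, transpose_add, transpose_one, transpose_smul, Matrix.add_mul, Matrix.one_mul,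
          Matrix.smul_mul, Matrix.mul_smul, smul_smul]
        norm_num
      rw [e5, Matrix.add_apply, Matrix.smul_apply, smul_eq_mul]
      exact dvd_add (hb i) (Dvd.intro _ rfl)
  have e6 : toV p ⬝ᵥ (0 : Fin g → ℂ) -
      toV (pp γ p 0) ⬝ᵥ toV (qq γ p 0) = ((-(pp γ p 0 ⬝ᵥ qq γ p 0) : ℤ) : ℂ) := by
    rw [dotProduct_zero, toV_dot]
    push_cast
    ring
  rw [e1, e6, exp_four _ e3, mul_one] at h
  have hne : Complex.exp (-(2 * Real.pi * Complex.I * (qf τ.1 p / 4 + lin p 0))) ≠ 0 :=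
    Complex.exp_ne_zero _
  apply mul_left_cancel₀ hne
  rw [← h]
  ring

end Pool.Agent.H937R2
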