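import Pool.Agent.H937R2.Theta
import Pool.Agent.H937R2.Param

set_option autoImplicit false

namespace Pool.Agent.H937R2

open Matrix MeasureTheory

variable {g : ℕ}

/-- A real vector as a complex vector. -/
def toVR (x : Fin g → ℝ) : Fin g → ℂ := fun i => (x i : ℂ)

theorem continuous_toVR : Continuous (toVR (g := g)) := by
  unfold toVR
  fun_prop

theorem continuous_half_toVR :
    Continuous (fun x : Fin g → ℝ => (1 / 2 : ℂ) • toVR x) :=
  (continuous_const_smul (1 / 2 : ℂ)).comp continuous_toVR

/-- `∫ h (z + x/2) dx` over the unit box. -/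
noncomputable def cof (h : (Fin g → ℂ) → ℂ) (z : Fin g → ℂ) : ℂ :=
  ∫ x in box (0 : Fin g → ℝ), h (z + (1 / 2 : ℂ) • toVR x)

theorem cof_add_real (h : (Fin g → ℂ) → ℂ) (hc : Continuous h)
    (hp : ∀ (q : Fin g → ℤ) z, h (z + (1 / 2 : ℂ) • toV q) = h z) (z : Fin g → ℂ)
    (a : Fin g → ℝ) : cof h (z + (1 / 2 : ℂ) • toVR a) = cof h z := by
  unfold cof
  have h1 := integral_box_add (fun x => h (z + (1 / 2 : ℂ) • toVR x))
    (hc.comp (continuous_const.add continuous_half_toVR)) (by
      intro q x
      have : z + (1 / 2 : ℂ) • toVR (x + fun i => (q i : ℝ)) =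
          (z + (1 / 2 : ℂ) • toVR x) + (1 / 2 : ℂ) • toV q := by
        ext i
        simp [toVR, toV]
        ring
      simp only [this, hp]) a
  rw [← h1]
  congr 1
  ext x
  congr 1
  ext i
  simp [toVR]
  ring

theorem cof_const (h : (Fin g → ℂ) → ℂ) (hc : Continuous h)
    (hd : ∀ x v, Differentiable ℂ (fun s : ℂ => h (x + s • v)))
    (hp : ∀ (q : Fin g → ℤ) z, h (z + (1 / 2 : ℂ) • toV q) = h z) (z w : Fin g → ℂ) :
    cof h (z + w) = cof h z := by
  -- direction `v` real, parameter complex
  have key : ∀ (z : Fin g → ℂ) (v : Fin g → ℝ) (s : ℂ), cof h (z + s • toVR v) = cof h z := by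
    intro z v
    have hdiff : Differentiable ℂ (fun s : ℂ => cof h (z + s • toVR v)) := by
      unfold cof
      apply differentiable_integral_param
      · apply hc.comp
        have h1 : Continuous (fun p : ℂ × (Fin g → ℝ) => z + p.1 • toVR v +
            (1 / 2 : ℂ) • toVR p.2) :=
          (continuous_const.add (continuous_fst.smul continuous_const)).add
            (continuous_half_toVR.comp continuous_snd)
        exact h1
      · intro x
        have := hd (z + (1 / 2 : ℂ) • toVR x) (toVR v)
        convert this using 2 with s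
        congr 1
        ext i
        simp
        ring
    have hreal : ∀ t : ℝ, cof h (z + (t : ℂ) • toVR v) = cof h z := by
      intro t
      have := cof_add_real h hc hp z ((2 * t) • v)
      rw [← this]
      congr 1
      ext i
      simp [toVR]
      ring
    have hconst : Differentiable ℂ (fun _ : ℂ => cof h z) := differentiable_const _
    have hA : AnalyticOnNhd ℂ (fun s : ℂ => cof h (z + s • toVR v)) Set.univ :=
      fun s _ => hdiff.analyticAt s
    have hB : AnalyticOnNhd ℂ (fun _ : ℂ => cof h z) Set.univ :=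
      fun s _ => hconst.analyticAt s
    have hfreq : ∃ᶠ s in nhdsWithin (0 : ℂ) {0}ᶜ,
        (fun s : ℂ => cof h (z + s • toVR v)) s = (fun _ : ℂ => cof h z) s := by
      have ht : Filter.Tendsto (fun n : ℕ => (((1 / ((n : ℝ) + 1) : ℝ)) : ℂ)) Filter.atTop
          (nhdsWithin (0 : ℂ) {0}ᶜ) := by
        apply tendsto_nhdsWithin_iff.mpr
        constructor
        · have h1 := tendsto_one_div_add_atTop_nhds_zero_nat (𝕜 := ℝ)
          have h2 : Filter.Tendsto (fun n : ℕ => (((1 / ((n : ℝ) + 1) : ℝ)) : ℂ)) Filter.atTop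
              (nhds ((0 : ℝ) : ℂ)) := (Complex.continuous_ofReal.tendsto 0).comp h1
          rwa [Complex.ofReal_zero] at h2
        · refine Filter.Eventually.of_forall fun n => ?_
          have : (0 : ℝ) < 1 / ((n : ℝ) + 1) := by positivity
          simp only [Set.mem_compl_iff, Set.mem_singleton_iff]
          intro h0
          have h1 : (1 / ((n : ℝ) + 1)) = 0 := by exact_mod_cast h0
          linarith
      apply ht.frequently
      exact Filter.Frequently.of_forall fun n => hreal _
    intro s
    have := hA.eqOn_of_preconnected_of_frequently_eq hB isPreconnected_univ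
      (Set.mem_univ (0 : ℂ)) hfreq
    exact this (Set.mem_univ s)
  have hw : z + w = (z + (1 : ℂ) • toVR (fun i => (w i).re)) +
      Complex.I • toVR (fun i => (w i).im) := by
    ext i
    simp only [Pi.add_apply, Pi.smul_apply, toVR, smul_eq_mul, one_mul]
    rw [add_assoc, mul_comm Complex.I, Complex.re_add_im]
  rw [hw, key, key]

/-- The functions satisfying the quasi-periodicity of `Θ[0](τ, ·)` are its multiples. -/
theorem uniq (τ : Siegel g) (f : (Fin g → ℂ) → ℂ) (hf : Continuous f)
    (hd : ∀ x v, Differentiable ℂ (fun s : ℂ => f (x + s • v)))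
    (h1 : ∀ (q : Fin g → ℤ) z, f (z + (1 / 2 : ℂ) • toV q) = f z)
    (h2 : ∀ (p : Fin g → ℤ) z, f (z + τ.1 *ᵥ toV p) =
      Complex.exp (-(2 * Real.pi * Complex.I * (qf τ.1 p + 2 * lin p z))) * f z) :
    ∃ κ : ℂ, ∀ z, f z = κ * th2 0 τ.1 z := by
  -- Fourier coefficients
  let hk : (Fin g → ℤ) → (Fin g → ℂ) → ℂ := fun k z =>
    Complex.exp (-(4 * Real.pi * Complex.I * lin k z)) * f z
  have hlin : ∀ k : Fin g → ℤ, Continuous (lin k) := by
    intro k
    unfold lin
    fun_prop
  have hkc : ∀ k, Continuous (hk k) := by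
    intro k
    have := hlin k
    fun_prop
  have hkd : ∀ k, ∀ x v, Differentiable ℂ (fun s : ℂ => hk k (x + s • v)) := by
    intro k x v
    have e : (fun s : ℂ => hk k (x + s • v)) = fun s : ℂ =>
        Complex.exp (-(4 * Real.pi * Complex.I * (lin k x + s * lin k v))) * f (x + s • v) := by
      ext s
      simp only [hk, lin_add, lin_smul]
    rw [e]
    exact Differentiable.mul (by fun_prop) (hd x v)
  have hkp : ∀ k, ∀ (q : Fin g → ℤ) z, hk k (z + (1 / 2 : ℂ) • toV q) = hk k z := by
    intro k q z
    simp only [hk]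
    rw [h1, lin_add, lin_smul]
    congr 1
    have e1 : lin k (toV q) = ((∑ i, k i * q i : ℤ) : ℂ) := by
      unfold lin toV
      push_cast
      rfl
    rw [e1]
    have e2 : -(4 * (Real.pi : ℂ) * Complex.I * (lin k z + 1 / 2 * ((∑ i, k i * q i : ℤ) : ℂ))) =
        2 * Real.pi * Complex.I * ((-(∑ i, k i * q i) : ℤ) : ℂ) +
          -(4 * (Real.pi : ℂ) * Complex.I * lin k z) := by
      push_cast
      ring
    rw [e2, Complex.exp_add, exp_two_pi_int, one_mul]
  have hconst : ∀ k z w, cof (hk k) (z + w) = cof (hk k) z := fun k z w =>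
    cof_const (hk k) (hkc k) (hkd k) (hkp k) z w
  -- relation between the coefficients
  have hrel : ∀ p : Fin g → ℤ, cof (hk p) 0 =
      Complex.exp (2 * Real.pi * Complex.I * qf τ.1 p) * cof (hk 0) 0 := by
    intro p
    have e1 : cof (hk 0) (0 + τ.1 *ᵥ toV p) = cof (hk 0) 0 := hconst 0 0 _
    have e2 : cof (hk 0) (0 + τ.1 *ᵥ toV p) =
        Complex.exp (-(2 * Real.pi * Complex.I * qf τ.1 p)) * cof (hk p) 0 := by
      unfold cof
      rw [← integral_const_mul]
      congr 1
      ext x
      simp only [hk]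
      have e3 : (0 : Fin g → ℂ) + τ.1 *ᵥ toV p + (1 / 2 : ℂ) • toVR x =
          ((0 : Fin g → ℂ) + (1 / 2 : ℂ) • toVR x) + τ.1 *ᵥ toV p := by
        abel
      have e4 : ∀ z : Fin g → ℂ, lin 0 z = 0 := by
        intro z
        simp [lin]
      rw [e3, h2, e4]
      simp only [mul_zero, neg_zero, Complex.exp_zero, one_mul]
      rw [← mul_assoc, ← Complex.exp_add]
      congr 2
      ring
    rw [e1] at e2
    rw [e2, ← mul_assoc, ← Complex.exp_add]
    simp
  -- restrict to the real torus
  obtain ⟨F, hF⟩ := exists_torus (fun x : Fin g → ℝ => f ((1 / 2 : ℂ) • toVR x))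
    (hf.comp continuous_half_toVR) (by
      intro q x
      have : (1 / 2 : ℂ) • toVR (x + fun i => (q i : ℝ)) =
          (1 / 2 : ℂ) • toVR x + (1 / 2 : ℂ) • toV q := by
        ext i
        simp [toVR, toV]
        ring
      simp only [this, h1])
  have hmF : ∀ (n : Fin g → ℤ) (x : Fin g → ℝ),
      UnitAddTorus.mFourier n (fun i => (x i : UnitAddCircle)) =
        Complex.exp (4 * Real.pi * Complex.I * lin n ((1 / 2 : ℂ) • toVR x)) := by
    intro n x
    simp only [UnitAddTorus.mFourier, ContinuousMap.coe_mk, fourier_coe_apply]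
    rw [← Complex.exp_sum]
    congr 1
    rw [lin_smul]
    unfold lin toVR
    rw [Finset.mul_sum, Finset.mul_sum]
    refine Finset.sum_congr rfl fun i _ => ?_
    push_cast
    ring
  have hcoeff : ∀ n : Fin g → ℤ, UnitAddTorus.mFourierCoeff F n =
      Complex.exp (2 * Real.pi * Complex.I * qf τ.1 n) * cof (hk 0) 0 := by
    intro n
    rw [← hrel n, UnitAddTorus.mFourierCoeff_eq_integral F n 0]
    unfold cof
    change ∫ x in box 0, _ = ∫ x in box 0, _
    congr 1
    ext x
    rw [hF, hmF]
    simp only [hk, smul_eq_mul, zero_add]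
    congr 2
    unfold lin
    rw [Finset.mul_sum, Finset.mul_sum, ← Finset.sum_neg_distrib]
    refine Finset.sum_congr rfl fun i _ => ?_
    simp only [Pi.neg_apply]
    push_cast
    ring
  have hth : ∀ z : Fin g → ℂ, HasSum (fun n : Fin g → ℤ =>
      Complex.exp (2 * Real.pi * Complex.I * qf τ.1 n) *
        Complex.exp (4 * Real.pi * Complex.I * lin n z)) (th2 0 τ.1 z) := by
    intro z
    have h3 := (summable_term τ z 0).hasSum
    have h4 : (fun n : Fin g → ℤ => Complex.exp (2 * Real.pi * Complex.I * qf τ.1 n) *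
        Complex.exp (4 * Real.pi * Complex.I * lin n z)) =
        fun n => term τ.1 z (dbl 0 n) := by
      ext n
      unfold term
      rw [← Complex.exp_add]
      congr 1
      have h5 : qf τ.1 (dbl 0 n) = 4 * qf τ.1 n := by
        unfold qf dbl
        rw [Finset.mul_sum]
        refine Finset.sum_congr rfl fun i _ => ?_
        rw [Finset.mul_sum]
        refine Finset.sum_congr rfl fun j _ => ?_
        simp only [Pi.zero_apply, add_zero]
        push_cast
        ring
      have h6 : lin (dbl 0 n) z = 2 * lin n z := by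
        unfold lin dbl
        rw [Finset.mul_sum]
        refine Finset.sum_congr rfl fun i _ => ?_
        simp only [Pi.zero_apply, add_zero]
        push_cast
        ring
      rw [h5, h6]
      ring
    rw [h4]
    exact h3
  have hsumc : Summable (fun n : Fin g → ℤ =>
      Complex.exp (2 * Real.pi * Complex.I * qf τ.1 n) * cof (hk 0) 0) := by
    have h3 := (hth 0).summable
    have e4 : ∀ k : Fin g → ℤ, lin k 0 = 0 := by
      intro k
      simp [lin]
    simp only [e4, mul_zero, Complex.exp_zero, mul_one] at h3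
    exact h3.mul_right _
  have hreal : ∀ x : Fin g → ℝ, f ((1 / 2 : ℂ) • toVR x) =
      cof (hk 0) 0 * th2 0 τ.1 ((1 / 2 : ℂ) • toVR x) := by
    intro x
    have h3 : Summable (UnitAddTorus.mFourierCoeff F) := by
      have : UnitAddTorus.mFourierCoeff F = fun n : Fin g → ℤ =>
        Complex.exp (2 * Real.pi * Complex.I * qf τ.1 n) * cof (hk 0) 0 := by
        ext n
        exact hcoeff n
      rw [this]
      exact hsumc
    have h4 := UnitAddTorus.hasSum_mFourier_series_apply_of_summable h3
      (fun i => (x i : UnitAddCircle))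
    have h5 := (hth ((1 / 2 : ℂ) • toVR x)).mul_left (cof (hk 0) 0)
    rw [← hF x]
    refine h4.unique ?_
    refine h5.congr_fun ?_
    intro n
    rw [hcoeff, hmF, smul_eq_mul]
    ring
  refine ⟨cof (hk 0) 0, fun z => ?_⟩
  -- extend from real to complex points
  have hA : Differentiable ℂ (fun s : ℂ => f (toVR (fun i => (z i).re) +
      s • toVR (fun i => (z i).im))) := hd _ _
  have hB : Differentiable ℂ (fun s : ℂ => cof (hk 0) 0 *
      th2 0 τ.1 (toVR (fun i => (z i).re) + s • toVR (fun i => (z i).im))) :=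
    (differentiable_th2_line τ 0 _ _).const_mul _
  have hfreq : ∃ᶠ s in nhdsWithin (0 : ℂ) {0}ᶜ,
      (fun s : ℂ => f (toVR (fun i => (z i).re) + s • toVR (fun i => (z i).im))) s =
      (fun s : ℂ => cof (hk 0) 0 *
      th2 0 τ.1 (toVR (fun i => (z i).re) + s • toVR (fun i => (z i).im))) s := by
    have ht : Filter.Tendsto (fun n : ℕ => (((1 / ((n : ℝ) + 1) : ℝ)) : ℂ)) Filter.atTop
        (nhdsWithin (0 : ℂ) {0}ᶜ) := by
      apply tendsto_nhdsWithin_iff.mpr
      constructor
      · have h1 := tendsto_one_div_add_atTop_nhds_zero_nat (𝕜 := ℝ)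
        have h2 : Filter.Tendsto (fun n : ℕ => (((1 / ((n : ℝ) + 1) : ℝ)) : ℂ)) Filter.atTop
            (nhds ((0 : ℝ) : ℂ)) := (Complex.continuous_ofReal.tendsto 0).comp h1
        rwa [Complex.ofReal_zero] at h2
      · refine Filter.Eventually.of_forall fun n => ?_
        have : (0 : ℝ) < 1 / ((n : ℝ) + 1) := by positivity
        simp only [Set.mem_compl_iff, Set.mem_singleton_iff]
        intro h0
        have h1 : (1 / ((n : ℝ) + 1)) = 0 := by exact_mod_cast h0
        linarith
    apply ht.frequently
    refine Filter.Frequently.of_forall fun n => ?_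
    have h3 := hreal (fun i => 2 * ((z i).re + (1 / ((n : ℝ) + 1)) * (z i).im))
    have h4 : (1 / 2 : ℂ) • toVR (fun i => 2 * ((z i).re + (1 / ((n : ℝ) + 1)) * (z i).im)) =
        toVR (fun i => (z i).re) + (((1 / ((n : ℝ) + 1) : ℝ)) : ℂ) •
          toVR (fun i => (z i).im) := by
      ext i
      simp only [toVR, Pi.smul_apply, Pi.add_apply, smul_eq_mul]
      push_cast
      ring
    rw [h4] at h3
    exact h3
  have hAB := AnalyticOnNhd.eqOn_of_preconnected_of_frequently_eq
    (fun s _ => hA.analyticAt s) (fun s _ => hB.analyticAt s) isPreconnected_univ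
      (Set.mem_univ (0 : ℂ)) hfreq (Set.mem_univ Complex.I)
  have hz : toVR (fun i => (z i).re) + Complex.I • toVR (fun i => (z i).im) = z := by
    ext i
    simp only [Pi.add_apply, Pi.smul_apply, toVR, smul_eq_mul]
    rw [mul_comm Complex.I, Complex.re_add_im]
  simp only [hz] at hAB
  exact hAB

end Pool.Agent.H937R2
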